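import Mathlib

/-!
# Smooth functions of the link variables, vector valued
-/

open MeasureTheory Matrix
open scoped ContDiff Matrix.Norms.Frobenius

namespace Pool.Agent.H189.KS

set_option linter.unusedSectionVars false

noncomputable section

/-- Complex `N × N` matrices. -/
abbrev Mt (N : ℕ) := Matrix (Fin N) (Fin N) ℂ

/-- The unitary group `U(N)`. -/
abbrev UU (N : ℕ) := Matrix.unitaryGroup (Fin N) ℂ

/-- The matrix of an element of a subgroup of `U(N)`. -/
def mt {N : ℕ} {G : Subgroup (UU N)} (g : G) : Mt N := ((g : UU N) : Mt N)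

/-- An orthonormal basis `X` of the Lie algebra of `G`, that is of the real space of all matrices `Y`
with `exp (t Y) ∈ G` for all real `t`, with the scalar product `Re tr (Y* Z)`; `ex a t` is the
element `exp (t X_a)` of `G`. -/
structure LieBasis {N : ℕ} (G : Subgroup (UU N)) (n : ℕ) where
  X : Fin n → Mt N
  ex : Fin n → ℝ → G
  ex_eq : ∀ a t, mt (ex a t) = NormedSpace.exp (t • X a)
  orth : ∀ a b, (trace ((X a)ᴴ * X b)).re = if a = b then 1 else 0
  full : ∀ Y : Mt N, (∀ t : ℝ, ∃ g : G, mt g = NormedSpace.exp (t • Y)) →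
    Y ∈ Submodule.span ℝ (Set.range X)

variable {N n : ℕ} {G : Subgroup (UU N)} {E : Type} [Fintype E] [DecidableEq E]
  {V V' : Type} [NormedAddCommGroup V] [NormedSpace ℝ V] [NormedAddCommGroup V'] [NormedSpace ℝ V']

/-- Smooth functions of the link variables: restrictions of smooth functions of the matrices. -/
def IsSm (F : (E → G) → V) : Prop :=
  ∃ f : (E → Mt N) → V, ContDiff ℝ ∞ f ∧ ∀ U, F U = f (fun e => mt (U e))

/-- the link `e` moves as `exp (t X_a) U_e` -/
def sh (B : LieBasis G n) (e : E) (a : Fin n) (t : ℝ) (U : E → G) : E → G :=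
  Function.update U e (B.ex a t * U e)

/-- the derivative along this motion -/
def dd (B : LieBasis G n) (e : E) (a : Fin n) (F : (E → G) → V) (U : E → G) : V :=
  deriv (fun t => F (sh B e a t U)) 0

/-- gauge transformation on a graph; the link `e` joins `s e` to `t e` -/
def gt {X : Type} (s t : E → X) (γ : X → G) (U : E → G) : E → G :=
  fun e => γ (s e) * U e * (γ (t e))⁻¹

/-! ### the matrix form -/

/-- the vector field `M_e ↦ X_a M_e` -/
def vf (B : LieBasis G n) (e : E) (a : Fin n) (M : E → Mt N) : E → Mt N :=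
  Pi.single e (B.X a * M e)

lemma mt_mul (g h : G) : mt (g * h) = mt g * mt h := rfl

lemma mt_one : mt (1 : G) = 1 := rfl

lemma mt_inv (g : G) : mt g⁻¹ = (mt g)ᴴ := rfl

lemma mt_cont : Continuous (mt : G → Mt N) := continuous_subtype_val.comp continuous_subtype_val

lemma mt_inj {g h : G} (H : mt g = mt h) : g = h := Subtype.ext (Subtype.ext H)

lemma ex_zero (B : LieBasis G n) (a : Fin n) : B.ex a 0 = 1 := by
  refine mt_inj ?_
  rw [B.ex_eq, zero_smul, NormedSpace.exp_zero, mt_one]

lemma ex_add (B : LieBasis G n) (a : Fin n) (s t : ℝ) : B.ex a (s + t) = B.ex a s * B.ex a t := by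
  refine mt_inj ?_
  rw [mt_mul, B.ex_eq, B.ex_eq, B.ex_eq, add_smul]
  exact NormedSpace.exp_add_of_commute ((Commute.refl (B.X a)).smul_left s |>.smul_right t)

lemma ex_deriv (B : LieBasis G n) (a : Fin n) (t : ℝ) :
    HasDerivAt (fun s => mt (B.ex a s)) (B.X a * mt (B.ex a t)) t := by
  have h1 : (fun s => mt (B.ex a s)) = fun s => NormedSpace.exp (s • B.X a) := by
    funext s; exact B.ex_eq a s
  rw [h1, B.ex_eq]
  exact hasDerivAt_exp_smul_const' (𝕂 := ℝ) (B.X a) t

lemma sh_zero (B : LieBasis G n) (e : E) (a : Fin n) (U : E → G) : sh B e a 0 U = U := by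
  unfold sh
  rw [ex_zero, one_mul, Function.update_eq_self]

lemma sh_add (B : LieBasis G n) (e : E) (a : Fin n) (s t : ℝ) (U : E → G) :
    sh B e a (s + t) U = sh B e a s (sh B e a t U) := by
  unfold sh
  rw [ex_add, Function.update_self, Function.update_idem, mul_assoc]

/-- the motion as a left translation -/
lemma sh_eq_mul (B : LieBasis G n) (e : E) (a : Fin n) (t : ℝ) (U : E → G) :
    sh B e a t U = Pi.mulSingle e (B.ex a t) * U := by
  funext e'
  unfold sh
  by_cases h : e' = e
  · subst h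
    rw [Function.update_self, Pi.mul_apply, Pi.mulSingle_eq_same]
  · rw [Function.update_of_ne h, Pi.mul_apply, Pi.mulSingle_eq_of_ne h, one_mul]

lemma hasDerivAt_mat (B : LieBasis G n) (e : E) (a : Fin n) (U : E → G) (t : ℝ) :
    HasDerivAt (fun s => fun e' => mt (sh B e a s U e'))
      (vf B e a fun e' => mt (sh B e a t U e')) t := by
  refine hasDerivAt_pi.2 fun e' => ?_
  by_cases h : e' = e
  · subst h
    have h1 : (fun s => mt (sh B e' a s U e')) = fun s => mt (B.ex a s) * mt (U e') := by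
      funext s
      unfold sh
      rw [Function.update_self, mt_mul]
    have h2 : vf B e' a (fun k => mt (sh B e' a t U k)) e' =
        B.X a * mt (B.ex a t) * mt (U e') := by
      unfold vf sh
      rw [Pi.single_eq_same]
      dsimp only
      rw [Function.update_self, mt_mul, Matrix.mul_assoc]
    rw [h1, h2]
    exact (ex_deriv B a t).mul_const (mt (U e'))
  · have h1 : (fun s => mt (sh B e a s U e')) = fun _ => mt (U e') := by
      funext s
      unfold sh
      rw [Function.update_of_ne h]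
    have h2 : vf B e a (fun e' => mt (sh B e a t U e')) e' = 0 := by
      unfold vf
      rw [Pi.single_eq_of_ne h]
    rw [h1, h2]
    exact hasDerivAt_const _ _

lemma mat_cont : Continuous fun (U : E → G) (e : E) => mt (U e) :=
  continuous_pi fun e => mt_cont.comp (continuous_apply e)

lemma IsSm.cont {F : (E → G) → V} (hF : IsSm F) : Continuous F := by
  obtain ⟨f, hf, h⟩ := hF
  rw [show F = fun U => f fun e => mt (U e) from funext h]
  exact hf.continuous.comp mat_cont

lemma hasDerivAt_ext {f : (E → Mt N) → V} (hf : ContDiff ℝ ∞ f) {F : (E → G) → V}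
    (h : ∀ U, F U = f (fun e => mt (U e))) (B : LieBasis G n) (e : E) (a : Fin n) (U : E → G)
    (t : ℝ) : HasDerivAt (fun s => F (sh B e a s U))
      (fderiv ℝ f (fun e' => mt (sh B e a t U e')) (vf B e a fun e' => mt (sh B e a t U e'))) t := by
  have h1 : (fun s => F (sh B e a s U)) = fun s => f (fun e' => mt (sh B e a s U e')) := by
    funext s; exact h _
  rw [h1]
  have h2 : HasFDerivAt f (fderiv ℝ f (fun e' => mt (sh B e a t U e')))
      (fun e' => mt (sh B e a t U e')) :=
    (hf.differentiable (by simp)).differentiableAt.hasFDerivAt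
  exact h2.comp_hasDerivAt t (hasDerivAt_mat B e a U t)

lemma dd_ext {f : (E → Mt N) → V} (hf : ContDiff ℝ ∞ f) {F : (E → G) → V}
    (h : ∀ U, F U = f (fun e => mt (U e))) (B : LieBasis G n) (e : E) (a : Fin n) (U : E → G) :
    dd B e a F U = fderiv ℝ f (fun e' => mt (U e')) (vf B e a fun e' => mt (U e')) := by
  have h1 := (hasDerivAt_ext hf h B e a U 0).deriv
  simp only [sh_zero] at h1
  exact h1

/-- the function along the motion is differentiable -/
lemma IsSm.hasDerivAt {F : (E → G) → V} (hF : IsSm F) (B : LieBasis G n) (e : E) (a : Fin n)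
    (U : E → G) (t : ℝ) :
    HasDerivAt (fun s => F (sh B e a s U)) (dd B e a F (sh B e a t U)) t := by
  obtain ⟨f, hf, h⟩ := hF
  rw [dd_ext hf h]
  exact hasDerivAt_ext hf h B e a U t

lemma contDiff_vf (B : LieBasis G n) (e : E) (a : Fin n) :
    ContDiff ℝ ∞ (vf B e a : (E → Mt N) → (E → Mt N)) := by
  rw [contDiff_pi]
  intro e'
  by_cases h : e' = e
  · subst h
    have : (fun M : E → Mt N => vf B e' a M e') = fun M => B.X a * M e' := by
      funext M; simp [vf]
    rw [this]
    exact contDiff_const.mul (contDiff_apply ℝ (Mt N) e')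
  · have : (fun M : E → Mt N => vf B e a M e') = fun M => 0 := by
      funext M; simp [vf, Pi.single_eq_of_ne h]
    rw [this]
    exact contDiff_const

lemma IsSm.dd {F : (E → G) → V} (hF : IsSm F) (B : LieBasis G n) (e : E) (a : Fin n) :
    IsSm (dd B e a F) := by
  obtain ⟨f, hf, h⟩ := hF
  exact ⟨fun M => fderiv ℝ f M (vf B e a M),
    (hf.fderiv_right (m := ∞) (by simp)).clm_apply (contDiff_vf B e a),
    fun U => dd_ext hf h B e a U⟩

/-! ### closure properties -/

lemma IsSm.const (v : V) : IsSm fun _ : E → G => v := ⟨fun _ => v, contDiff_const, fun _ => rfl⟩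

lemma IsSm.add {F H : (E → G) → V} (hF : IsSm F) (hH : IsSm H) : IsSm fun U => F U + H U := by
  obtain ⟨f, hf, h⟩ := hF
  obtain ⟨f', hf', h'⟩ := hH
  exact ⟨fun M => f M + f' M, hf.add hf', fun U => by dsimp only; rw [h, h']⟩

lemma IsSm.comp {F : (E → G) → V} (hF : IsSm F) {φ : V → V'} (hφ : ContDiff ℝ ∞ φ) :
    IsSm fun U => φ (F U) := by
  obtain ⟨f, hf, h⟩ := hF
  exact ⟨fun M => φ (f M), hφ.comp hf, fun U => by dsimp only; rw [h]⟩

lemma IsSm.clm_apply {A : (E → G) → V →L[ℝ] V'} {F : (E → G) → V} (hA : IsSm A) (hF : IsSm F) :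
    IsSm fun U => A U (F U) := by
  obtain ⟨f, hf, h⟩ := hF
  obtain ⟨f', hf', h'⟩ := hA
  exact ⟨fun M => f' M (f M), hf'.clm_apply hf, fun U => by dsimp only; rw [h, h']⟩

lemma IsSm.smul {c : (E → G) → ℝ} {F : (E → G) → V} (hc : IsSm c) (hF : IsSm F) :
    IsSm fun U => c U • F U := by
  obtain ⟨f, hf, h⟩ := hF
  obtain ⟨f', hf', h'⟩ := hc
  exact ⟨fun M => f' M • f M, hf'.smul hf, fun U => by dsimp only; rw [h, h']⟩

lemma IsSm.pi {ι : Type} [Fintype ι] {W : ι → Type} [∀ i, NormedAddCommGroup (W i)]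
    [∀ i, NormedSpace ℝ (W i)] {F : (E → G) → ∀ i, W i} (hF : ∀ i, IsSm fun U => F U i) :
    IsSm F := by
  choose f hf h using hF
  exact ⟨fun M i => f i M, contDiff_pi.2 hf, fun U => funext fun i => h i U⟩

lemma IsSm.sum {ι : Type} (s : Finset ι) {F : ι → (E → G) → V} (hF : ∀ i ∈ s, IsSm (F i)) :
    IsSm fun U => ∑ i ∈ s, F i U := by
  classical
  induction s using Finset.induction_on with
  | empty => simpa using IsSm.const (0 : V)
  | insert i s hi ih =>
    simp only [Finset.sum_insert hi]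
    exact (hF i (Finset.mem_insert_self _ _)).add
      (ih fun j hj => hF j (Finset.mem_insert_of_mem hj))

lemma dd_const (B : LieBasis G n) (e : E) (a : Fin n) (v : V) (U : E → G) :
    dd B e a (fun _ => v) U = 0 := by
  unfold KS.dd
  exact deriv_const _ _

lemma dd_add (B : LieBasis G n) (e : E) (a : Fin n) {F H : (E → G) → V} (hF : IsSm F)
    (hH : IsSm H) (U : E → G) : dd B e a (fun U => F U + H U) U = dd B e a F U + dd B e a H U := by
  have h1 := (hF.hasDerivAt B e a U 0).add (hH.hasDerivAt B e a U 0)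
  simp only [sh_zero] at h1
  exact h1.deriv

lemma dd_const_smul (B : LieBasis G n) (e : E) (a : Fin n) (c : ℝ) {F : (E → G) → V}
    (hF : IsSm F) (U : E → G) : dd B e a (fun U => c • F U) U = c • dd B e a F U := by
  have h1 := (hF.hasDerivAt B e a U 0).const_smul c
  simp only [sh_zero] at h1
  exact h1.deriv

lemma dd_clm (B : LieBasis G n) (e : E) (a : Fin n) (T : V →L[ℝ] V') {F : (E → G) → V}
    (hF : IsSm F) (U : E → G) : dd B e a (fun U => T (F U)) U = T (dd B e a F U) := by
  have h1 := T.hasFDerivAt.comp_hasDerivAt (0 : ℝ) (hF.hasDerivAt B e a U 0)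
  simp only [sh_zero] at h1
  exact h1.deriv

lemma dd_clm_apply (B : LieBasis G n) (e : E) (a : Fin n) {A : (E → G) → V →L[ℝ] V'}
    {F : (E → G) → V} (hA : IsSm A) (hF : IsSm F) (U : E → G) :
    dd B e a (fun U => A U (F U)) U = dd B e a A U (F U) + A U (dd B e a F U) := by
  have h1 := (hA.hasDerivAt B e a U 0).clm_apply (hF.hasDerivAt B e a U 0)
  simp only [sh_zero] at h1
  exact h1.deriv

/-! ### gauge transformations -/

/-- gauge transformation of the matrices -/
def gtM {X : Type} (s t : E → X) (γ : X → G) : (E → Mt N) →ₗ[ℝ] (E → Mt N) where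
  toFun M := fun e => mt (γ (s e)) * M e * (mt (γ (t e)))ᴴ
  map_add' M M' := by
    funext e
    simp only [Pi.add_apply, mul_add, add_mul]
  map_smul' c M := by
    funext e
    simp only [Pi.smul_apply, mul_smul_comm, smul_mul_assoc, RingHom.id_apply]

lemma mat_gt {X : Type} (s t : E → X) (γ : X → G) (U : E → G) :
    (fun e => mt (gt s t γ U e)) = gtM s t γ (fun e => mt (U e)) := by
  funext e
  show mt (γ (s e) * U e * (γ (t e))⁻¹) = _
  rw [mt_mul, mt_mul, mt_inv]
  rfl

/-- the same as a continuous map -/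
def gtC {X : Type} (s t : E → X) (γ : X → G) : (E → Mt N) →L[ℝ] (E → Mt N) :=
  LinearMap.toContinuousLinearMap (gtM s t γ)

lemma IsSm.gt {X : Type} (s t : E → X) (γ : X → G) {F : (E → G) → V} (hF : IsSm F) :
    IsSm fun U => F (gt s t γ U) := by
  obtain ⟨f, hf, h⟩ := hF
  refine ⟨fun M => f (gtC s t γ M), hf.comp (gtC s t γ).contDiff, fun U => ?_⟩
  dsimp only
  rw [h, mat_gt]; rfl

/-! ### energies -/

variable [MeasurableSpace G] (μ : Measure G)

/-- the square of the norm -/
def nsq (F : (E → G) → V) : ℝ := ∫ U, ‖F U‖ ^ 2 ∂(Measure.pi fun _ : E => μ)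

/-- the electric energy of one link -/
def kin (B : LieBasis G n) (e : E) (F : (E → G) → V) : ℝ :=
  ∑ a, ∫ U, ‖dd B e a F U‖ ^ 2 ∂(Measure.pi fun _ : E => μ)

/-- the magnetic energy -/
def pot (W : (E → G) → ℝ) (F : (E → G) → V) : ℝ :=
  ∫ U, W U * ‖F U‖ ^ 2 ∂(Measure.pi fun _ : E => μ)

/-- the energy, as a quadratic form -/
def enr (B : LieBasis G n) (g : ℝ) (W : (E → G) → ℝ) (F : (E → G) → V) : ℝ :=
  g ^ 2 / 2 * (∑ e, kin μ B e F) + 1 / g ^ 2 * pot μ W F

end

end Pool.Agent.H189.KS
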