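import Mathlib
import Pool.Agent.H189.KS.Base

/-!
# Statements of the parts
-/

open MeasureTheory Matrix Filter
open scoped ContDiff Matrix.Norms.Frobenius Topology

namespace Pool.Agent.H189.KS

set_option linter.unusedSectionVars false
set_option linter.unusedVariables false

noncomputable section

/-- SPAN. Finitely many independent random elements of a connected closed group generate it up to
the centre: an element which commutes with all of them is central. -/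
def S_SPAN : Prop := ∀ (N : ℕ) (G : Subgroup (UU N)), IsClosed (G : Set (UU N)) →
  ∀ [ConnectedSpace G] [MeasurableSpace G] [BorelSpace G] (μ : Measure G)
    [IsProbabilityMeasure μ] [μ.IsHaarMeasure],
  ∃ m : ℕ, ∀ᵐ p ∂(Measure.pi fun _ : Fin m => μ), ∀ g : G, (∀ i, g * p i = p i * g) →
    ∀ h : G, g * h = h * g

/-- PARI. Parametric integrals are smooth. -/
def S_PARI : Prop := ∀ (X : Type) [TopologicalSpace X] [CompactSpace X]
  [SecondCountableTopology X] [MeasurableSpace X] [BorelSpace X] (ν : Measure X)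
  [IsFiniteMeasure ν] (P H V W : Type) [NormedAddCommGroup P] [NormedSpace ℝ P]
  [FiniteDimensional ℝ P] [NormedAddCommGroup H] [NormedSpace ℝ H] [FiniteDimensional ℝ H]
  [NormedAddCommGroup V] [NormedSpace ℝ V] [NormedAddCommGroup W] [NormedSpace ℝ W]
  [CompleteSpace W] (f : H → V), ContDiff ℝ ∞ f → ∀ (T : X → P →L[ℝ] H), Continuous T →
  ∀ (A : X → V →L[ℝ] W), Continuous A → ContDiff ℝ ∞ (fun x => ∫ γ, A γ (f (T γ x)) ∂ν)

/-- COVF. Covariant functions: smooth functions `h_k` of `m` matrices with values in the linear maps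
`C^M → C^M'`, such that `h_k (g p g⁻¹) = τ g h_k (p) (κ g)*` for `g` in `G` and `p` in `G ^ m`, and
such that no vector is almost annihilated by all `h_k (p)`, except for a small set of `p`. -/
def S_COVF : Prop := ∀ (N : ℕ) (G : Subgroup (UU N)), IsClosed (G : Set (UU N)) →
  ∀ [MeasurableSpace G] [BorelSpace G] (μ : Measure G) [IsProbabilityMeasure μ]
    [μ.IsHaarMeasure] (M M' : ℕ) (κ : G →* Matrix.unitaryGroup (Fin M) ℂ)
    (τ : G →* Matrix.unitaryGroup (Fin M') ℂ), Continuous κ → Continuous τ → 0 < M' →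
    (∀ z : G, (∀ h : G, z * h = h * z) → ∃ c : ℂ,
      (κ z : Matrix (Fin M) (Fin M) ℂ) = c • 1 ∧ (τ z : Matrix (Fin M') (Fin M') ℂ) = c • 1) →
  ∀ (m : ℕ), (∀ᵐ p ∂(Measure.pi fun _ : Fin m => μ), ∀ g : G, (∀ i, g * p i = p i * g) →
    ∀ h : G, g * h = h * g) →
  ∀ ε : ℝ, 0 < ε → ∃ (K : ℕ) (c : ℝ) (h : Fin K → (Fin m → Mt N) → Matrix (Fin M') (Fin M) ℂ),
    0 < c ∧ (∀ k, ContDiff ℝ ∞ (h k)) ∧
    (∀ k (g : G) (p : Fin m → G), h k (fun i => mt (g * p i * g⁻¹)) =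
      (τ g : Matrix (Fin M') (Fin M') ℂ) * h k (fun i => mt (p i)) *
        (κ g : Matrix (Fin M) (Fin M) ℂ)ᴴ) ∧
    ∃ S : Set (Fin m → G), MeasurableSet S ∧ (Measure.pi fun _ : Fin m => μ).real S ≤ ε ∧
      ∀ p, p ∉ S → ∀ v : Fin M → ℂ,
        c * ∑ j, ‖v j‖ ^ 2 ≤ ∑ k, ∑ i, ‖(h k (fun i => mt (p i)) *ᵥ v) i‖ ^ 2

/-- EXTR. A continuous unitary representation of a closed subgroup of `U(N)` is the restriction of a
smooth function of the matrices. -/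
def S_EXTR : Prop := ∀ (N : ℕ) (G : Subgroup (UU N)), IsClosed (G : Set (UU N)) →
  ∀ [MeasurableSpace G] [BorelSpace G] (μ : Measure G) [IsProbabilityMeasure μ]
    [μ.IsHaarMeasure] (M : ℕ) (κ : G →* Matrix.unitaryGroup (Fin M) ℂ), Continuous κ →
  ∃ f : Mt N → Mt M, ContDiff ℝ ∞ f ∧ ∀ g : G, f (mt g) = (κ g : Mt M)

/-- GAUG. The sum over the basis of the squares of the derivatives is gauge covariant. -/
def S_GAUG : Prop := ∀ (N n : ℕ) (G : Subgroup (UU N)) (B : LieBasis G n)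
  (E X : Type) [Fintype E] [DecidableEq E] (s t : E → X) (γ : X → G) (V : Type)
  [NormedAddCommGroup V] [InnerProductSpace ℝ V] (F : (E → G) → V), IsSm F →
  ∀ (e : E) (U : E → G), ∑ a, ‖dd B e a (fun U => F (gt s t γ U)) U‖ ^ 2 =
      ∑ a, ‖dd B e a F (gt s t γ U)‖ ^ 2

/-- SUBG. A subadditive function on `G` which tends to `0` at `1` is controlled by its values on the
one-parameter subgroups. -/
def S_SUBG : Prop := ∀ (N n : ℕ) (G : Subgroup (UU N)), IsClosed (G : Set (UU N)) →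
  ∀ (B : LieBasis G n), ∃ C ε : ℝ, 0 < C ∧ 0 < ε ∧ ∀ (ν : G → ℝ) (k : ℝ), (∀ z, 0 ≤ ν z) →
    (∀ z w, ν (z * w) ≤ ν z + ν w) → Tendsto ν (𝓝 1) (𝓝 0) →
    (∀ a t, ν (B.ex a t) ≤ |t| * k) → ∀ z : G, ‖mt z - 1‖ ≤ ε → ν z ≤ C * ‖mt z - 1‖ * k

/-- TRAN. Translation of one link by an element close to `1`. -/
def S_TRAN : Prop := ∀ (N n : ℕ) (G : Subgroup (UU N)), IsClosed (G : Set (UU N)) →
  ∀ [MeasurableSpace G] [BorelSpace G] (μ : Measure G) [IsProbabilityMeasure μ]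
    [μ.IsHaarMeasure] (B : LieBasis G n), ∃ C ε : ℝ, 0 < C ∧ 0 < ε ∧
  ∀ (E : Type) [Fintype E] [DecidableEq E] (e : E) (F : (E → G) → ℂ), IsSm F →
    ∀ z : G, ‖mt z - 1‖ ≤ ε →
    ∫ U, ‖F (Function.update U e (z * U e)) - F U‖ ^ 2 ∂(Measure.pi fun _ : E => μ) ≤
      (C * ‖mt z - 1‖) ^ 2 * kin μ B e F

/-- NONC. A function of bounded electric energy in the links `e i` is not concentrated on the
configurations, whose loop variables `p i = α i * U (e i) * β i` belong to a small set. -/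
def S_NONC : Prop := ∀ (N n : ℕ) (G : Subgroup (UU N)), IsClosed (G : Set (UU N)) →
  ∀ [MeasurableSpace G] [BorelSpace G] (μ : Measure G) [IsProbabilityMeasure μ]
    [μ.IsHaarMeasure] (B : LieBasis G n) (m : ℕ) (K : ℝ), ∃ η : ℝ, 0 < η ∧
  ∀ (E : Type) [Fintype E] [DecidableEq E] (e : Fin m → E), Function.Injective e →
    ∀ (p α β : (E → G) → Fin m → G), Continuous α → Continuous β →
    (∀ U i, p U i = α U i * U (e i) * β U i) →
    (∀ U U' : E → G, (∀ e', (∀ i, e' ≠ e i) → U e' = U' e') → α U = α U' ∧ β U = β U') →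
    ∀ S : Set (Fin m → G), MeasurableSet S → (Measure.pi fun _ : Fin m => μ).real S ≤ η →
    ∀ (ι : Type) [Fintype ι] (F : ι → (E → G) → ℂ), (∀ j, IsSm (F j)) →
      (∀ i, ∑ j, kin μ B (e i) (F j) ≤ K * ∑ j, nsq μ (F j)) →
      ∑ j, ∫ U, S.indicator (fun _ => (1 : ℝ)) (p U) * ‖F j U‖ ^ 2
        ∂(Measure.pi fun _ : E => μ) ≤ 1 / 2 * ∑ j, nsq μ (F j)

/-- E0AL. The bottom of the spectrum on gauge invariant functions is the bottom of the spectrum on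
all functions. -/
def S_E0AL : Prop := ∀ (N n : ℕ) (G : Subgroup (UU N)), IsClosed (G : Set (UU N)) →
  ∀ [MeasurableSpace G] [BorelSpace G] (μ : Measure G) [IsProbabilityMeasure μ]
    [μ.IsHaarMeasure] (B : LieBasis G n) (E X : Type) [Fintype E] [DecidableEq E]
    [Fintype X] (s t : E → X) (g : ℝ), 0 < g → ∀ (W : (E → G) → ℝ), Continuous W →
    (∀ γ U, W (gt s t γ U) = W U) → ∀ (E0 : ℝ),
    (∀ f : (E → G) → ℝ, IsSm f → (∀ γ U, f (gt s t γ U) = f U) →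
      E0 * nsq μ f ≤ enr μ B g W f) →
    ∀ F : (E → G) → ℂ, IsSm F → E0 * nsq μ F ≤ enr μ B g W F

/-- BOXE. The electric energy in a set `S` of links. -/
def S_BOXE : Prop := ∀ (N n : ℕ) (G : Subgroup (UU N)), IsClosed (G : Set (UU N)) →
  ∀ [MeasurableSpace G] [BorelSpace G] (μ : Measure G) [IsProbabilityMeasure μ]
    [μ.IsHaarMeasure] (B : LieBasis G n) (E : Type) [Fintype E] [DecidableEq E]
    (g : ℝ), 0 < g → ∀ (W : (E → G) → ℝ), Continuous W → ∀ (S : Finset E) (c : ℝ),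
    (∀ U U' : E → G, (∀ e, e ∉ S → U e = U' e) → |W U - W U'| ≤ c) → ∀ (E0 : ℝ),
    (∀ F : (E → G) → ℂ, IsSm F → E0 * nsq μ F ≤ enr μ B g W F) →
    ∀ F : (E → G) → ℂ, IsSm F → g ^ 2 / 2 * (∑ e ∈ S, kin μ B e F) + E0 * nsq μ F ≤
      enr μ B g W F + 1 / g ^ 2 * c * nsq μ F

/-- EXCE. The energy of the states `h_k Ψ`. -/
def S_EXCE : Prop := ∀ (N n : ℕ) (G : Subgroup (UU N)), IsClosed (G : Set (UU N)) →
  ∀ [MeasurableSpace G] [BorelSpace G] (μ : Measure G) [IsProbabilityMeasure μ]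
    [μ.IsHaarMeasure] (B : LieBasis G n) (E : Type) [Fintype E] [DecidableEq E]
    (V V' : Type) [NormedAddCommGroup V] [InnerProductSpace ℝ V] [FiniteDimensional ℝ V]
    [NormedAddCommGroup V'] [InnerProductSpace ℝ V'] [FiniteDimensional ℝ V']
    (g : ℝ), 0 < g → ∀ (W : (E → G) → ℝ), Continuous W →
    ∀ (P : ((E → G) → V) → Prop) (P' : ((E → G) → V') → Prop),
    (∀ Ψ Φ, P Ψ → P Φ → P fun U => Ψ U + Φ U) → (∀ (c : ℝ) Ψ, P Ψ → P fun U => c • Ψ U) →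
    ∀ (E1 E2 : ℝ), (∀ Ψ, IsSm Ψ → P Ψ → E1 * nsq μ Ψ ≤ enr μ B g W Ψ) →
    (∀ Φ, IsSm Φ → P' Φ → E2 * nsq μ Φ ≤ enr μ B g W Φ) →
    ∀ (K : ℕ) (h : Fin K → (E → G) → V →L[ℝ] V') (hs : Fin K → (E → G) → V' →L[ℝ] V),
    (∀ k, IsSm (h k)) → (∀ k, IsSm (hs k)) →
    (∀ k U v w, inner ℝ (h k U v) w = inner ℝ v (hs k U w)) →
    (∀ k Ψ, P Ψ → P' fun U => h k U (Ψ U)) → (∀ k Ψ, P Ψ → P fun U => hs k U (h k U (Ψ U))) →
    ∀ (H : ℝ) (c : E → ℝ), (∀ k U, ‖h k U‖ ≤ H) → (∀ e, 0 ≤ c e) →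
    (∀ k e a U, ‖dd B e a (h k) U‖ ≤ H * c e) →
    ∀ (S0 T0 : ℝ), 0 < S0 →
    (∀ ε : ℝ, 0 < ε → ∃ Ψ, IsSm Ψ ∧ P Ψ ∧ nsq μ Ψ = 1 ∧ enr μ B g W Ψ ≤ E1 + ε ∧
      S0 ≤ ∑ k, nsq μ (fun U => h k U (Ψ U)) ∧
      ∑ e, c e * ∑ a, Real.sqrt (∫ U, ‖dd B e a Ψ U‖ ^ 2 ∂(Measure.pi fun _ : E => μ)) ≤ T0) →
    E2 ≤ E1 + g ^ 2 / 2 * (K * H ^ 2 * (n * ∑ e, c e ^ 2 + 2 * T0)) / S0

/-- TRIA. The energy of the product of a real function and of a unitary matrix function. -/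
def S_TRIA : Prop := ∀ (N n : ℕ) (G : Subgroup (UU N)), IsClosed (G : Set (UU N)) →
  ∀ [MeasurableSpace G] [BorelSpace G] (μ : Measure G) [IsProbabilityMeasure μ]
    [μ.IsHaarMeasure] (B : LieBasis G n) (E : Type) [Fintype E] [DecidableEq E]
    (g : ℝ), 0 < g → ∀ (W : (E → G) → ℝ), Continuous W →
    ∀ (M : ℕ) (T : (E → G) → Mt M), IsSm T → (∀ U, (T U)ᴴ * T U = 1) →
    ∀ c : E → ℝ, (∀ e a U, ‖dd B e a T U‖ ≤ c e) → ∀ f : (E → G) → ℝ, IsSm f →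
    ∑ i, ∑ j, nsq μ (fun U => (f U : ℂ) * T U i j) = M * nsq μ f ∧
    ∑ i, ∑ j, enr μ B g W (fun U => (f U : ℂ) * T U i j) ≤
      M * enr μ B g W f + g ^ 2 / 2 * (n * ∑ e, c e ^ 2) * nsq μ f

end

end Pool.Agent.H189.KS
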