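import Mathlib
import Pool.Agent.H189.KS.Stm

/-!
# Covariant functions (COVF)
-/

open MeasureTheory Matrix Filter
open scoped ContDiff Matrix.Norms.Frobenius Topology

namespace Pool.Agent.H189.KS.COVF

set_option linter.unusedSectionVars false
set_option linter.unusedVariables false

noncomputable section

lemma sc_Mt (N : ℕ) : SecondCountableTopology (Mt N) :=
  inferInstanceAs (SecondCountableTopology (Fin N → Fin N → ℂ))

lemma sc_UU (N : ℕ) : SecondCountableTopology (UU N) := by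
  have := sc_Mt N
  exact TopologicalSpace.Subtype.secondCountableTopology _

lemma compact_UU (N : ℕ) : CompactSpace (UU N) := by
  apply isCompact_iff_compactSpace.1
  have h1 : IsCompact (Set.pi Set.univ fun _ : Fin N => Set.pi Set.univ fun _ : Fin N =>
      Metric.closedBall (0 : ℂ) 1) :=
    isCompact_univ_pi fun _ => isCompact_univ_pi fun _ => isCompact_closedBall _ _
  refine IsCompact.of_isClosed_subset h1 ?_ ?_
  · have h2 : (UU N : Set (Mt N)) = {A | A * star A = 1} := by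
      ext A
      exact Matrix.mem_unitaryGroup_iff
    rw [h2]
    exact isClosed_eq (continuous_id.mul continuous_star) continuous_const
  · intro A hA i _ j _
    rw [mem_closedBall_zero_iff]
    exact entry_norm_bound_of_unitary hA i j

/-! ### two general lemmas (copied from Pool.Agent.H906R3.YM.Moll) -/

lemma soft_gen {X : Type*} [TopologicalSpace X] [CompactSpace X] {F W : X → ℝ}
    (hF : Continuous F) (hW : Continuous W) (hW0 : ∀ x, 0 ≤ W x) (h : ∀ x, W x = 0 → F x ≤ 0)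
    {τ : ℝ} (hτ : 0 < τ) : ∃ C : ℝ, 0 ≤ C ∧ ∀ x, F x ≤ τ + C * W x := by
  by_cases hne : ∃ x, τ ≤ F x
  · have hcl : IsCompact {x | τ ≤ F x} := (isClosed_le continuous_const hF).isCompact
    obtain ⟨x1, hx1, hmin⟩ := hcl.exists_isMinOn hne hW.continuousOn
    obtain ⟨x2, -, hmax⟩ := isCompact_univ.exists_isMaxOn ⟨x1, trivial⟩ hF.continuousOn
    have hpos : 0 < W x1 := by
      rcases (hW0 x1).lt_or_eq with h1 | h1
      · exact h1
      · have h2 := h x1 h1.symm
        have h3 : τ ≤ F x1 := hx1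
        linarith
    have hF2 : 0 ≤ F x2 := by
      have h3 : τ ≤ F x1 := hx1
      have h4 : F x1 ≤ F x2 := hmax (Set.mem_univ x1)
      linarith
    refine ⟨F x2 / W x1, div_nonneg hF2 hpos.le, fun x => ?_⟩
    by_cases hx : τ ≤ F x
    · have h3 : W x1 ≤ W x := hmin hx
      have h4 : F x ≤ F x2 := hmax (Set.mem_univ x)
      have h5 : F x2 ≤ F x2 / W x1 * W x := by
        rw [div_mul_eq_mul_div, le_div_iff₀ hpos]
        exact mul_le_mul_of_nonneg_left h3 hF2
      linarith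
    · rw [not_le] at hx
      have : 0 ≤ F x2 / W x1 * W x := mul_nonneg (div_nonneg hF2 hpos.le) (hW0 x)
      linarith
  · refine ⟨0, le_rfl, fun x => ?_⟩
    by_contra hc
    exact hne ⟨x, by
      simp only [zero_mul, add_zero, not_le] at hc
      exact hc.le⟩

lemma conc {X : Type*} [TopologicalSpace X] [CompactSpace X] [MeasurableSpace X]
    [OpensMeasurableSpace X] (ν : Measure X) [IsProbabilityMeasure ν] [ν.IsOpenPosMeasure]
    {ξ : X → ℝ} (hξ : Continuous ξ) (h0 : ∀ x, 0 ≤ ξ x) (h1 : ∀ x, ξ x ≤ 1) {x0 : X}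
    (hx0 : ξ x0 = 1) {τ : ℝ} (hτ : 0 < τ) :
    ∃ k : ℕ, 0 < ∫ x, ξ x ^ k ∂ν ∧
      ∫ x, (1 - ξ x) * ξ x ^ k ∂ν ≤ τ * ∫ x, ξ x ^ k ∂ν := by
  have hint : ∀ f : X → ℝ, Continuous f → Integrable f ν := fun f hf =>
    hf.integrable_of_hasCompactSupport (HasCompactSupport.of_compactSpace _)
  wlog hτ1 : τ < 1 generalizing τ
  · obtain ⟨k, hk0, hk⟩ := this (τ := 1 / 2) (by norm_num) (by norm_num)
    refine ⟨k, hk0, hk.trans (mul_le_mul_of_nonneg_right (by linarith) ?_)⟩
    exact integral_nonneg fun x => pow_nonneg (h0 x) _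
  set a : ℕ → ℝ := fun k => ∫ x, ξ x ^ k ∂ν with ha
  set O : Set X := {x | 1 - τ / 2 < ξ x} with hO
  have hOo : IsOpen O := isOpen_lt continuous_const hξ
  have hp : 0 < ν.real O := by
    rw [Measure.real, ENNReal.toReal_pos_iff]
    refine ⟨hOo.measure_pos ν ⟨x0, ?_⟩, measure_lt_top ν O⟩
    show 1 - τ / 2 < ξ x0
    rw [hx0]; linarith
  have ha3 : ∀ k, ν.real O * (1 - τ / 2) ^ k ≤ a k := by
    intro k
    have h4 : ∫ x, O.indicator (fun _ => (1 - τ / 2) ^ k) x ∂ν = ν.real O * (1 - τ / 2) ^ k := by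
      rw [integral_indicator hOo.measurableSet]
      simp [Measure.real]
    rw [← h4]
    refine integral_mono ((integrable_const _).indicator hOo.measurableSet)
      (hint _ (hξ.pow _)) fun x => ?_
    by_cases hx : x ∈ O
    · rw [Set.indicator_of_mem hx]
      have h5 : 1 - τ / 2 < ξ x := hx
      exact pow_le_pow_left₀ (by linarith) h5.le k
    · rw [Set.indicator_of_notMem hx]
      exact pow_nonneg (h0 x) _
  have hapos : ∀ k, 0 < a k := fun k =>
    lt_of_lt_of_le (mul_pos hp (pow_pos (by linarith) k)) (ha3 k)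
  by_contra hc
  push Not at hc
  have hc' : ∀ k, τ * a k < ∫ x, (1 - ξ x) * ξ x ^ k ∂ν := fun k => hc k (hapos k)
  have ha1 : ∀ k, a (k + 1) ≤ (1 - τ) * a k := by
    intro k
    have h2 := hc' k
    have h3 : ∫ x, (1 - ξ x) * ξ x ^ k ∂ν = a k - a (k + 1) := by
      have e := integral_sub (hint (fun x => ξ x ^ k) (hξ.pow k))
        (hint (fun x => ξ x ^ (k + 1)) (hξ.pow (k + 1)))
      rw [ha]
      dsimp only
      rw [← e]
      refine integral_congr_ae (Filter.Eventually.of_forall fun x => ?_)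
      dsimp only
      ring
    rw [h3] at h2
    linarith
  have ha0 : a 0 = 1 := by
    rw [ha]; simp
  have ha2 : ∀ k, a k ≤ (1 - τ) ^ k := by
    intro k
    induction k with
    | zero => rw [ha0, pow_zero]
    | succ k ih =>
      refine (ha1 k).trans ?_
      rw [pow_succ, mul_comm]
      exact mul_le_mul_of_nonneg_right ih (by linarith)
  have h5 : ∀ k : ℕ, ν.real O ≤ ((1 - τ) / (1 - τ / 2)) ^ k := by
    intro k
    rw [div_pow, le_div_iff₀ (pow_pos (by linarith) k)]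
    exact (ha3 k).trans (ha2 k)
  have h6 : Filter.Tendsto (fun k : ℕ => ((1 - τ) / (1 - τ / 2)) ^ k) Filter.atTop (nhds 0) := by
    refine tendsto_pow_atTop_nhds_zero_of_lt_one (div_nonneg (by linarith) (by linarith)) ?_
    rw [div_lt_one (by linarith)]; linarith
  have h7 := ge_of_tendsto' h6 h5
  linarith

/-! ### averaged functions -/

section av

variable {N m M M' : ℕ} {G : Subgroup (UU N)}

/-- conjugation by `x` as a linear map -/
def cj (m : ℕ) (x : G) : (Fin m → Mt N) →L[ℝ] (Fin m → Mt N) :=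
  LinearMap.toContinuousLinearMap
    { toFun := fun P i => (mt x)ᴴ * P i * mt x
      map_add' := fun P P' => by
        funext i
        simp only [Pi.add_apply, mul_add, add_mul]
      map_smul' := fun c P => by
        funext i
        simp only [Pi.smul_apply, mul_smul_comm, smul_mul_assoc, RingHom.id_apply] }

lemma cj_apply (x : G) (P : Fin m → Mt N) (i : Fin m) : cj m x P i = (mt x)ᴴ * P i * mt x := rfl

lemma cj_mt (x : G) (p : Fin m → G) :
    cj m x (fun i => mt (p i)) = fun i => mt (x⁻¹ * p i * x) := by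
  funext i
  rw [cj_apply, mt_mul, mt_mul, mt_inv]

lemma cj_cont : Continuous (cj (G := G) m) := by
  refine continuous_clm_apply.2 fun P => continuous_pi fun i => ?_
  have h1 : Continuous fun x : G => (mt x)ᴴ * P i * mt x :=
    (mt_cont.matrix_conjTranspose.mul continuous_const).mul mt_cont
  exact h1

variable (κ : G →* Matrix.unitaryGroup (Fin M) ℂ) (τ : G →* Matrix.unitaryGroup (Fin M') ℂ)

/-- `τ x X κ(x)*` -/
def tx (X : Matrix (Fin M') (Fin M) ℂ) (x : G) : Matrix (Fin M') (Fin M) ℂ :=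
  (τ x : Matrix (Fin M') (Fin M') ℂ) * X * (κ x : Matrix (Fin M) (Fin M) ℂ)ᴴ

lemma tx_cont (hκ : Continuous κ) (hτ : Continuous τ) (X : Matrix (Fin M') (Fin M) ℂ) :
    Continuous (tx κ τ X) := by
  unfold tx
  exact ((continuous_subtype_val.comp hτ).matrix_mul continuous_const).matrix_mul
    (continuous_subtype_val.comp hκ).matrix_conjTranspose

lemma tx_mul (X : Matrix (Fin M') (Fin M) ℂ) (g x : G) :
    tx κ τ X (g * x) = (τ g : Matrix (Fin M') (Fin M') ℂ) * tx κ τ X x *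
      (κ g : Matrix (Fin M) (Fin M) ℂ)ᴴ := by
  unfold tx
  rw [map_mul, map_mul]
  show ((τ g : Matrix (Fin M') (Fin M') ℂ) * (τ x : Matrix (Fin M') (Fin M') ℂ)) * X *
    ((κ g : Matrix (Fin M) (Fin M) ℂ) * (κ x : Matrix (Fin M) (Fin M) ℂ))ᴴ = _
  rw [Matrix.conjTranspose_mul]
  simp only [Matrix.mul_assoc]

/-- the linear map `r ↦ r τ x X κ(x)*` -/
def aL (X : Matrix (Fin M') (Fin M) ℂ) (x : G) : ℝ →L[ℝ] Matrix (Fin M') (Fin M) ℂ :=
  ContinuousLinearMap.smulRight (1 : ℝ →L[ℝ] ℝ) (tx κ τ X x)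

lemma aL_apply (X : Matrix (Fin M') (Fin M) ℂ) (x : G) (r : ℝ) :
    aL κ τ X x r = r • tx κ τ X x := by
  simp [aL]

lemma aL_cont (hκ : Continuous κ) (hτ : Continuous τ) (X : Matrix (Fin M') (Fin M) ℂ) :
    Continuous (aL κ τ X) := by
  refine continuous_clm_apply.2 fun r => ?_
  exact ((tx_cont κ τ hκ hτ X).const_smul r).congr fun x => (aL_apply κ τ X x r).symm

variable [MeasurableSpace G] (μ : Measure G)

/-- the averaged function -/
def hh (X : Matrix (Fin M') (Fin M) ℂ) (f : (Fin m → Mt N) → ℝ) (P : Fin m → Mt N) :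
    Matrix (Fin M') (Fin M) ℂ :=
  ∫ x, aL κ τ X x (f (cj m x P)) ∂μ

lemma gen_cov [BorelSpace G] [CompactSpace G] [SecondCountableTopology G]
    [IsProbabilityMeasure μ] [μ.IsHaarMeasure] {W : Type} [NormedAddCommGroup W] [NormedSpace ℝ W]
    [CompleteSpace W] (L : W →L[ℝ] W) (Φ Ψ : G → W) (hΨ : Continuous Ψ) (g : G)
    (h : ∀ x, Φ (g * x) = L (Ψ x)) : ∫ x, Φ x ∂μ = L (∫ x, Ψ x ∂μ) := by
  rw [← integral_mul_left_eq_self _ g,
    ← ContinuousLinearMap.integral_comp_comm L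
      (hΨ.integrable_of_hasCompactSupport (HasCompactSupport.of_compactSpace _))]
  exact integral_congr_ae (Filter.Eventually.of_forall h)

lemma aLf_cont (hκ : Continuous κ) (hτ : Continuous τ)
    (X : Matrix (Fin M') (Fin M) ℂ) {f : (Fin m → Mt N) → ℝ} (hf : Continuous f)
    (P : Fin m → Mt N) : Continuous fun x : G => aL κ τ X x (f (cj m x P)) := by
  have h1 : Continuous fun x : G => f (cj m x P) := hf.comp (continuous_clm_apply.1 cj_cont P)
  exact (h1.smul (tx_cont κ τ hκ hτ X)).congr fun x => (aL_apply κ τ X x _).symm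

lemma hh_cov [BorelSpace G] [CompactSpace G] [SecondCountableTopology G] [IsProbabilityMeasure μ]
    [μ.IsHaarMeasure]
    (hκ : Continuous κ) (hτ : Continuous τ)
    (X : Matrix (Fin M') (Fin M) ℂ) {f : (Fin m → Mt N) → ℝ} (hf : Continuous f)
    (g : G) (p : Fin m → G) :
    hh κ τ μ X f (fun i => mt (g * p i * g⁻¹)) =
      (τ g : Matrix (Fin M') (Fin M') ℂ) * hh κ τ μ X f (fun i => mt (p i)) *
        (κ g : Matrix (Fin M) (Fin M) ℂ)ᴴ := by
  let L : Matrix (Fin M') (Fin M) ℂ →L[ℝ] Matrix (Fin M') (Fin M) ℂ :=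
    LinearMap.toContinuousLinearMap
      { toFun := fun Y => (τ g : Matrix (Fin M') (Fin M') ℂ) * Y *
          (κ g : Matrix (Fin M) (Fin M) ℂ)ᴴ
        map_add' := fun Y Y' => by rw [Matrix.mul_add, Matrix.add_mul]
        map_smul' := fun c Y => by
          rw [Matrix.mul_smul, Matrix.smul_mul, RingHom.id_apply] }
  refine gen_cov μ L _ _ (aLf_cont κ τ hκ hτ X hf _) g fun x => ?_
  show aL κ τ X (g * x) (f (cj m (g * x) fun i => mt (g * p i * g⁻¹))) =
    (τ g : Matrix (Fin M') (Fin M') ℂ) * (aL κ τ X x (f (cj m x fun i => mt (p i)))) *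
          (κ g : Matrix (Fin M) (Fin M) ℂ)ᴴ
  rw [aL_apply, aL_apply, tx_mul, cj_mt, cj_mt]
  have h1 : (fun i => mt ((g * x)⁻¹ * (g * p i * g⁻¹) * (g * x))) =
      fun i => mt (x⁻¹ * p i * x) := by
    funext i
    congr 1
    group
  rw [h1, Matrix.mul_smul, Matrix.smul_mul]

lemma hh_smooth (hP : S_PARI) [BorelSpace G] [CompactSpace G] [SecondCountableTopology G]
    [IsProbabilityMeasure μ] (hκ : Continuous κ) (hτ : Continuous τ)
    (X : Matrix (Fin M') (Fin M) ℂ) {f : (Fin m → Mt N) → ℝ} (hf : ContDiff ℝ ∞ f) :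
    ContDiff ℝ ∞ (hh κ τ μ X f) :=
  hP G μ (Fin m → Mt N) (Fin m → Mt N) ℝ (Matrix (Fin M') (Fin M) ℂ) f hf (cj m) cj_cont
    (aL κ τ X) (aL_cont κ τ hκ hτ X)

end av

/-! ### the distance -/

section dist

variable {N m : ℕ}

/-- square of the distance -/
def dist2 (Q P : Fin m → Mt N) : ℝ := ∑ i, ∑ a, ∑ b, ‖P i a b - Q i a b‖ ^ 2

lemma dist2_smooth (Q : Fin m → Mt N) : ContDiff ℝ ∞ (dist2 Q) := by
  unfold dist2
  refine ContDiff.sum fun i _ => ContDiff.sum fun a _ => ContDiff.sum fun b _ => ?_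
  let l : (Fin m → Mt N) →ₗ[ℝ] ℂ :=
    { toFun := fun P => P i a b
      map_add' := fun _ _ => rfl
      map_smul' := fun _ _ => rfl }
  have h1 : ContDiff ℝ ∞ (fun P : Fin m → Mt N => P i a b) :=
    (LinearMap.toContinuousLinearMap l).contDiff
  exact (contDiff_norm_sq ℝ).comp (h1.sub contDiff_const)

lemma dist2_nonneg (Q P : Fin m → Mt N) : 0 ≤ dist2 Q P := by
  unfold dist2
  positivity

lemma dist2_zero {Q P : Fin m → Mt N} (h : dist2 Q P = 0) : P = Q := by
  unfold dist2 at h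
  funext i
  ext a b
  have h1 := (Finset.sum_eq_zero_iff_of_nonneg (fun i _ => by positivity)).1 h i (Finset.mem_univ i)
  have h2 := (Finset.sum_eq_zero_iff_of_nonneg (fun a _ => by positivity)).1 h1 a (Finset.mem_univ a)
  have h3 := (Finset.sum_eq_zero_iff_of_nonneg (fun b _ => by positivity)).1 h2 b (Finset.mem_univ b)
  have h4 : ‖P i a b - Q i a b‖ = 0 := by
    exact pow_eq_zero_iff (two_ne_zero) |>.1 h3
  exact sub_eq_zero.1 (norm_eq_zero.1 h4)

lemma dist2_bound {G : Subgroup (UU N)} (p q : Fin m → G) :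
    dist2 (fun i => mt (q i)) (fun i => mt (p i)) ≤ m * (N * (N * 4)) := by
  unfold dist2
  have h1 : ∀ i a b, ‖mt (p i) a b - mt (q i) a b‖ ^ 2 ≤ 4 := by
    intro i a b
    have e1 : ‖mt (p i) a b‖ ≤ 1 := entry_norm_bound_of_unitary (p i : UU N).2 a b
    have e2 : ‖mt (q i) a b‖ ≤ 1 := entry_norm_bound_of_unitary (q i : UU N).2 a b
    have e3 : ‖mt (p i) a b - mt (q i) a b‖ ≤ 2 := (norm_sub_le _ _).trans (by linarith)
    nlinarith [norm_nonneg (mt (p i) a b - mt (q i) a b)]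
  have h2 : ∀ i, ∑ a, ∑ b, ‖mt (p i) a b - mt (q i) a b‖ ^ 2 ≤ (N : ℝ) * (N * 4) := by
    intro i
    have h3 : ∀ a, ∑ b, ‖mt (p i) a b - mt (q i) a b‖ ^ 2 ≤ (N : ℝ) * 4 := by
      intro a
      refine (Finset.sum_le_card_nsmul _ _ 4 fun b _ => h1 i a b).trans ?_
      rw [Finset.card_univ, Fintype.card_fin, nsmul_eq_mul]
    refine (Finset.sum_le_card_nsmul _ _ _ fun a _ => h3 a).trans ?_
    rw [Finset.card_univ, Fintype.card_fin, nsmul_eq_mul]
  refine (Finset.sum_le_card_nsmul _ _ _ fun i _ => h2 i).trans ?_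
  rw [Finset.card_univ, Fintype.card_fin, nsmul_eq_mul]

end dist

section pointA

variable {N m M M' : ℕ} {G : Subgroup (UU N)}
  (κ : G →* Matrix.unitaryGroup (Fin M) ℂ) (τ : G →* Matrix.unitaryGroup (Fin M') ℂ)
  [MeasurableSpace G] (μ : Measure G)

lemma gen_vec [BorelSpace G] [CompactSpace G] [SecondCountableTopology G]
    [IsProbabilityMeasure μ] {W W' : Type} [NormedAddCommGroup W] [NormedSpace ℝ W]
    [CompleteSpace W] [NormedAddCommGroup W'] [NormedSpace ℝ W'] [CompleteSpace W']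
    (L : W →L[ℝ] W') (Ψ : G → W) (hΨ : Continuous Ψ) :
    L (∫ x, Ψ x ∂μ) = ∫ x, L (Ψ x) ∂μ :=
  (ContinuousLinearMap.integral_comp_comm L
      (hΨ.integrable_of_hasCompactSupport (HasCompactSupport.of_compactSpace _))).symm

lemma tx_central (X : Matrix (Fin M') (Fin M) ℂ) (x : G) (c : ℂ) (hM : 0 < M)
    (h1 : (κ x : Matrix (Fin M) (Fin M) ℂ) = c • 1)
    (h2 : (τ x : Matrix (Fin M') (Fin M') ℂ) = c • 1) : tx κ τ X x = X := by
  have hc : c * star c = 1 := by
    have h3 : (κ x : Matrix (Fin M) (Fin M) ℂ) * star (κ x : Matrix (Fin M) (Fin M) ℂ) = 1 :=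
      Matrix.mem_unitaryGroup_iff.1 (κ x).2
    rw [h1, star_smul, star_one, smul_mul_smul_comm, mul_one] at h3
    have h4 := congrFun (congrFun h3 ⟨0, hM⟩) ⟨0, hM⟩
    simpa using h4
  unfold tx
  rw [h1, h2, Matrix.conjTranspose_smul, Matrix.conjTranspose_one, Matrix.smul_mul,
    Matrix.one_mul, Matrix.mul_smul, Matrix.mul_one, smul_smul, mul_comm, hc, one_smul]

lemma num_aux {nX a C I : ℝ} (hn : 0 < nX) (ha : 0 < a) (hC : 0 ≤ C)
    (hI : I ≤ nX / (4 * (C + 1)) * a) : C * I ≤ nX / 4 * a := by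
  have h6 := mul_le_mul_of_nonneg_left hI hC
  refine h6.trans ?_
  have h7 : C * (nX / (4 * (C + 1)) * a) = (C / (C + 1)) * (nX / 4 * a) := by
    field_simp
  rw [h7]
  have h8 : C / (C + 1) ≤ 1 := by
    rw [div_le_one (by linarith)]
    linarith
  exact mul_le_of_le_one_left (by positivity) h8

lemma num_aux2 {nX a : ℝ} (hn : 0 < nX) (ha : 0 < a) (h : a * nX ≤ nX / 2 * a) : False := by
  have : 0 < nX * a := by positivity
  nlinarith

open scoped ComplexOrder in
lemma dot_zero {v : Fin M → ℂ} (h : star v ⬝ᵥ v = 0) : v = 0 :=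
  dotProduct_star_self_eq_zero.1 h

theorem pointA [BorelSpace G] [CompactSpace G] [SecondCountableTopology G]
    [IsProbabilityMeasure μ] [μ.IsHaarMeasure] (hκ : Continuous κ) (hτ : Continuous τ)
    (hM' : 0 < M')
    (hcen : ∀ z : G, (∀ h : G, z * h = h * z) → ∃ c : ℂ,
      (κ z : Matrix (Fin M) (Fin M) ℂ) = c • 1 ∧ (τ z : Matrix (Fin M') (Fin M') ℂ) = c • 1)
    (p0 : Fin m → G) (hgood : ∀ g : G, (∀ i, g * p0 i = p0 i * g) → ∀ h : G, g * h = h * g)
    (v0 : Fin M → ℂ) (hv0 : v0 ≠ 0) :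
    ∃ (X : Matrix (Fin M') (Fin M) ℂ) (f : (Fin m → Mt N) → ℝ), ContDiff ℝ ∞ f ∧
      hh κ τ μ X f (fun i => mt (p0 i)) *ᵥ v0 ≠ 0 := by
  have hM : 0 < M := by
    rcases Nat.eq_zero_or_pos M with h0 | h0
    · subst h0
      exact absurd (Subsingleton.elim v0 0) hv0
    · exact h0
  -- the matrix
  let u : Fin M' → ℂ := Pi.single ⟨0, hM'⟩ 1
  let X : Matrix (Fin M') (Fin M) ℂ := Matrix.vecMulVec u (star v0)
  have hX : X *ᵥ v0 = (star v0 ⬝ᵥ v0) • u := by
    show Matrix.vecMulVec u (star v0) *ᵥ v0 = _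
    rw [Matrix.vecMulVec_mulVec]
    simp
  have hXne : X *ᵥ v0 ≠ 0 := by
    rw [hX]
    intro h
    have h1 := congrFun h ⟨0, hM'⟩
    simp only [Pi.smul_apply, u, Pi.single_eq_same, smul_eq_mul, mul_one, Pi.zero_apply] at h1
    exact hv0 (dot_zero h1)
  -- the function
  set Q : Fin m → Mt N := fun i => mt (p0 i) with hQ
  set R : ℝ := m * (N * (N * 4)) + 1 with hR
  have hR0 : 0 < R := by positivity
  let xi : G → ℝ := fun x => 1 - dist2 Q (cj m x Q) / R
  have hcjQ : ∀ x : G, cj m x Q = fun i => mt (x⁻¹ * p0 i * x) := fun x => cj_mt x p0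
  have hxi_cont : Continuous xi := by
    have h1 : Continuous fun x : G => dist2 Q (cj m x Q) :=
      (dist2_smooth Q).continuous.comp (continuous_clm_apply.1 cj_cont Q)
    exact continuous_const.sub (h1.div_const R)
  have hxi0 : ∀ x, 0 ≤ xi x := by
    intro x
    have h1 : dist2 Q (cj m x Q) ≤ m * (N * (N * 4)) := by
      rw [hcjQ]
      exact dist2_bound _ _
    have h2 : dist2 Q (cj m x Q) / R ≤ 1 := by
      rw [div_le_one hR0]
      linarith
    show 0 ≤ 1 - dist2 Q (cj m x Q) / R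
    linarith
  have hxi1 : ∀ x, xi x ≤ 1 := by
    intro x
    have h1 : 0 ≤ dist2 Q (cj m x Q) / R := div_nonneg (dist2_nonneg _ _) hR0.le
    show 1 - dist2 Q (cj m x Q) / R ≤ 1
    linarith
  have hxione : xi 1 = 1 := by
    have h1 : cj m (1 : G) Q = Q := by
      rw [hcjQ]
      funext i
      rw [inv_one, one_mul, mul_one]
    show 1 - dist2 Q (cj m (1 : G) Q) / R = 1
    rw [h1]
    have h2 : dist2 Q Q = 0 := by
      unfold dist2
      simp
    rw [h2]
    simp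
  have hxieq : ∀ x, 1 - xi x = 0 → tx κ τ X x = X := by
    intro x hx
    have h1 : dist2 Q (cj m x Q) = 0 := by
      have h2 : dist2 Q (cj m x Q) / R = 0 := by
        have : 1 - (1 - dist2 Q (cj m x Q) / R) = 0 := hx
        linarith
      rcases div_eq_zero_iff.1 h2 with h3 | h3
      · exact h3
      · exact absurd h3 hR0.ne'
    have h2 := dist2_zero h1
    rw [hcjQ] at h2
    have h3 : ∀ i, x⁻¹ * p0 i * x = p0 i := fun i => mt_inj (congrFun h2 i)
    have h4 : ∀ i, x * p0 i = p0 i * x := by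
      intro i
      have := h3 i
      rw [mul_assoc, inv_mul_eq_iff_eq_mul] at this
      exact this.symm
    obtain ⟨c, hc1, hc2⟩ := hcen x (hgood x h4)
    exact tx_central κ τ X x c hM hc1 hc2
  -- the error
  let Φ : G → (Fin M' → ℂ) := fun x => tx κ τ X x *ᵥ v0 - X *ᵥ v0
  have htxv : Continuous fun x : G => tx κ τ X x *ᵥ v0 :=
    (tx_cont κ τ hκ hτ X).matrix_mulVec continuous_const
  have hΦ_cont : Continuous Φ := htxv.sub continuous_const
  have hnX : 0 < ‖X *ᵥ v0‖ := norm_pos_iff.2 hXne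
  obtain ⟨C, hC0, hC⟩ := soft_gen (F := fun x => ‖Φ x‖) (W := fun x => 1 - xi x) hΦ_cont.norm
    (continuous_const.sub hxi_cont) (fun x => by linarith [hxi1 x]) (fun x hx => by
      show ‖tx κ τ X x *ᵥ v0 - X *ᵥ v0‖ ≤ 0
      rw [hxieq x hx, sub_self, norm_zero]) (show 0 < ‖X *ᵥ v0‖ / 4 by positivity)
  obtain ⟨k, hk0, hk⟩ := conc μ hxi_cont hxi0 hxi1 hxione
    (show 0 < ‖X *ᵥ v0‖ / (4 * (C + 1)) by positivity)
  set a := ∫ x, xi x ^ k ∂μ with ha
  let f : (Fin m → Mt N) → ℝ := fun P => (1 - dist2 Q P / R) ^ k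
  have hf : ContDiff ℝ ∞ f :=
    (contDiff_const.sub ((dist2_smooth Q).div_const R)).pow k
  refine ⟨X, f, hf, ?_⟩
  let L : Matrix (Fin M') (Fin M) ℂ →L[ℝ] (Fin M' → ℂ) :=
    LinearMap.toContinuousLinearMap
      { toFun := fun Y => Y *ᵥ v0
        map_add' := fun Y Y' => Matrix.add_mulVec _ _ _
        map_smul' := fun c Y => by rw [Matrix.smul_mulVec, RingHom.id_apply] }
  have hL : hh κ τ μ X f Q *ᵥ v0 = ∫ x, xi x ^ k • (tx κ τ X x *ᵥ v0) ∂μ := by
    have h1 := gen_vec μ L _ (aLf_cont κ τ hκ hτ X hf.continuous Q)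
    refine Eq.trans h1 (integral_congr_ae (Filter.Eventually.of_forall fun x => ?_))
    show (aL κ τ X x (f (cj m x Q))) *ᵥ v0 = xi x ^ k • (tx κ τ X x *ᵥ v0)
    rw [aL_apply, Matrix.smul_mulVec]
  have hint : ∀ {W : Type} [NormedAddCommGroup W] (φ : G → W), Continuous φ → Integrable φ μ :=
    fun φ hφ => hφ.integrable_of_hasCompactSupport (HasCompactSupport.of_compactSpace _)
  intro hzero
  rw [hL] at hzero
  have h1 : ∫ x, xi x ^ k • Φ x ∂μ = -(a • (X *ᵥ v0)) := by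
    have h2 : ∫ x, xi x ^ k • Φ x ∂μ =
        ∫ x, xi x ^ k • (tx κ τ X x *ᵥ v0) ∂μ - ∫ x, xi x ^ k • (X *ᵥ v0) ∂μ := by
      have e := integral_sub (hint (fun x => xi x ^ k • (tx κ τ X x *ᵥ v0))
          ((hxi_cont.pow k).smul htxv))
        (hint (fun x => xi x ^ k • (X *ᵥ v0)) ((hxi_cont.pow k).smul continuous_const))
      rw [← e]
      refine integral_congr_ae (Filter.Eventually.of_forall fun x => ?_)
      exact smul_sub _ _ _
    rw [h2, hzero, integral_smul_const, zero_sub]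
  have h2 : ‖∫ x, xi x ^ k • Φ x ∂μ‖ ≤ (‖X *ᵥ v0‖ / 2) * a := by
    refine (norm_integral_le_integral_norm _).trans ?_
    have h3 : ∀ x, ‖xi x ^ k • Φ x‖ ≤
        ‖X *ᵥ v0‖ / 4 * xi x ^ k + C * ((1 - xi x) * xi x ^ k) := by
      intro x
      rw [norm_smul, Real.norm_eq_abs, abs_of_nonneg (pow_nonneg (hxi0 x) k)]
      have h4 := mul_le_mul_of_nonneg_left (hC x) (pow_nonneg (hxi0 x) k)
      calc xi x ^ k * ‖Φ x‖ ≤ xi x ^ k * (‖X *ᵥ v0‖ / 4 + C * (1 - xi x)) := h4
        _ = _ := by ring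
    have h4 : ∫ x, ‖xi x ^ k • Φ x‖ ∂μ ≤
        ∫ x, (‖X *ᵥ v0‖ / 4 * xi x ^ k + C * ((1 - xi x) * xi x ^ k)) ∂μ := by
      refine integral_mono (hint _ ((hxi_cont.pow k).smul hΦ_cont).norm) (hint _ ?_) h3
      exact (continuous_const.mul (hxi_cont.pow k)).add
        (continuous_const.mul ((continuous_const.sub hxi_cont).mul (hxi_cont.pow k)))
    refine h4.trans ?_
    have e := integral_add (hint (fun x => ‖X *ᵥ v0‖ / 4 * xi x ^ k)
        (continuous_const.mul (hxi_cont.pow k)))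
      (hint (fun x => C * ((1 - xi x) * xi x ^ k))
        (continuous_const.mul ((continuous_const.sub hxi_cont).mul (hxi_cont.pow k))))
    rw [e, integral_const_mul, integral_const_mul]
    have h5 : C * ∫ x, (1 - xi x) * xi x ^ k ∂μ ≤ ‖X *ᵥ v0‖ / 4 * a :=
      num_aux hnX hk0 hC0 hk
    linarith
  rw [h1, norm_neg, norm_smul, Real.norm_eq_abs, abs_of_pos hk0] at h2
  exact num_aux2 hnX hk0 h2

end pointA

section main

variable {N m M M' : ℕ} {G : Subgroup (UU N)}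

lemma sphere_compact (M : ℕ) : IsCompact {v : Fin M → ℂ | ∑ j, ‖v j‖ ^ 2 = 1} := by
  refine Metric.isCompact_of_isClosed_isBounded ?_ ?_
  · refine isClosed_eq ?_ continuous_const
    exact continuous_finsetSum _ fun j _ => (continuous_apply j).norm.pow 2
  · refine (Metric.isBounded_closedBall (x := (0 : Fin M → ℂ)) (r := 1)).subset fun v hv => ?_
    rw [mem_closedBall_zero_iff]
    refine (pi_norm_le_iff_of_nonneg zero_le_one).2 fun j => ?_
    have h1 : ‖v j‖ ^ 2 ≤ 1 := by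
      have hv' : ∑ j, ‖v j‖ ^ 2 = 1 := hv
      rw [← hv']
      exact Finset.single_le_sum (f := fun j => ‖v j‖ ^ 2) (fun j _ => by positivity)
        (Finset.mem_univ j)
    nlinarith [norm_nonneg (v j)]

lemma ev_cont {h : (Fin m → Mt N) → Matrix (Fin M') (Fin M) ℂ} (hh : Continuous h) :
    Continuous fun x : (Fin m → G) × (Fin M → ℂ) => h (fun i => mt (x.1 i)) *ᵥ x.2 := by
  have h1 : Continuous fun x : (Fin m → G) × (Fin M → ℂ) => h (fun i => mt (x.1 i)) := by
    refine hh.comp (continuous_pi fun i => ?_)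
    exact mt_cont.comp ((continuous_apply i).comp continuous_fst)
  exact Continuous.matrix_mulVec h1 continuous_snd

end main

end

end Pool.Agent.H189.KS.COVF

namespace Pool.Agent.H189.KS

open COVF

theorem t_COVF (hP : S_PARI) : S_COVF := by
  intro N G hG _ _ μ _ _ M M' κ τ hκ hτ hM' hcen m hgood ε hε
  have hcU := compact_UU N
  have hsU := sc_UU N
  have hcG : CompactSpace G := isCompact_iff_compactSpace.1 hG.isCompact
  have hsc : SecondCountableTopology G := TopologicalSpace.Subtype.secondCountableTopology _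
  -- covariant functions
  let Fam : Set ((Fin m → Mt N) → Matrix (Fin M') (Fin M) ℂ) :=
    {h | ContDiff ℝ ∞ h ∧ ∀ (g : G) (p : Fin m → G), h (fun i => mt (g * p i * g⁻¹)) =
      (τ g : Matrix (Fin M') (Fin M') ℂ) * h (fun i => mt (p i)) *
        (κ g : Matrix (Fin M) (Fin M) ℂ)ᴴ}
  let Sph : Set (Fin M → ℂ) := {v | ∑ j, ‖v j‖ ^ 2 = 1}
  have hSph : IsCompact Sph := sphere_compact M
  have hev : ∀ h ∈ Fam, Continuous fun x : (Fin m → G) × (Fin M → ℂ) =>
      h (fun i => mt (x.1 i)) *ᵥ x.2 := fun h hh => ev_cont hh.1.continuous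
  let Z : Set ((Fin m → G) × (Fin M → ℂ)) :=
    {x | x.2 ∈ Sph ∧ ∀ h ∈ Fam, h (fun i => mt (x.1 i)) *ᵥ x.2 = 0}
  have hZ : IsCompact Z := by
    refine IsCompact.of_isClosed_subset (isCompact_univ.prod hSph) ?_ fun x hx => ⟨trivial, hx.1⟩
    have h1 : Z = (Prod.snd ⁻¹' Sph) ∩ ⋂ h ∈ Fam, {x : (Fin m → G) × (Fin M → ℂ) |
        h (fun i => mt (x.1 i)) *ᵥ x.2 = 0} := by
      ext x
      simp only [Z, Set.mem_inter_iff, Set.mem_preimage, Set.mem_iInter]
      rfl
    rw [h1]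
    refine (hSph.isClosed.preimage continuous_snd).inter ?_
    exact isClosed_biInter fun h hh => isClosed_eq (hev h hh) continuous_const
  let Bad : Set (Fin m → G) := Prod.fst '' Z
  have hnull : (Measure.pi fun _ : Fin m => μ) Bad = 0 := by
    refine measure_mono_null ?_ hgood
    rintro _ ⟨⟨p, v⟩, hx, rfl⟩
    intro hg
    have hv0 : v ≠ 0 := by
      rintro rfl
      have h1 : ∑ j, ‖(0 : Fin M → ℂ) j‖ ^ 2 = 1 := hx.1
      simp at h1
    obtain ⟨X, f, hf, hne⟩ := pointA κ τ μ hκ hτ hM' hcen p hg v hv0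
    exact hne (hx.2 (hh κ τ μ X f) ⟨hh_smooth κ τ μ hP hκ hτ X hf,
      fun g p => hh_cov κ τ μ hκ hτ X hf.continuous g p⟩)
  obtain ⟨U, hBU, hUo, hUε⟩ := Set.exists_isOpen_lt_of_lt (μ := Measure.pi fun _ : Fin m => μ)
    Bad (ENNReal.ofReal ε) (by rw [hnull]; exact ENNReal.ofReal_pos.2 hε)
  -- finitely many functions suffice on the complement
  have hK0 : IsCompact (Uᶜ ×ˢ Sph) := hUo.isClosed_compl.isCompact.prod hSph
  have hcov : Uᶜ ×ˢ Sph ⊆ ⋃ h : Fam, {x : (Fin m → G) × (Fin M → ℂ) |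
      h.1 (fun i => mt (x.1 i)) *ᵥ x.2 ≠ 0} := by
    rintro ⟨p, v⟩ ⟨hp, hv⟩
    by_contra hcon
    simp only [Set.mem_iUnion, not_exists] at hcon
    refine hp (hBU ⟨(p, v), ⟨hv, fun h hh => ?_⟩, rfl⟩)
    have h1 := hcon ⟨h, hh⟩
    by_contra h2
    exact h1 h2
  obtain ⟨t, ht⟩ := hK0.elim_finite_subcover
    (fun h : Fam => {x : (Fin m → G) × (Fin M → ℂ) | h.1 (fun i => mt (x.1 i)) *ᵥ x.2 ≠ 0})
    (fun h => isOpen_ne_fun (hev h.1 h.2) continuous_const) hcov
  let hk : Fin t.card → (Fin m → Mt N) → Matrix (Fin M') (Fin M) ℂ :=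
    fun k => (t.equivFin.symm k).1.1
  have hkF : ∀ k, hk k ∈ Fam := fun k => (t.equivFin.symm k).1.2
  let Φ : (Fin m → G) × (Fin M → ℂ) → ℝ := fun x =>
    ∑ k, ∑ i, ‖(hk k (fun i => mt (x.1 i)) *ᵥ x.2) i‖ ^ 2
  have hΦ : Continuous Φ :=
    continuous_finsetSum _ fun k _ => continuous_finsetSum _ fun i _ =>
      (((continuous_apply i).comp (hev _ (hkF k))).norm.pow 2)
  have hΦnn : ∀ x, 0 ≤ Φ x := fun x =>
    Finset.sum_nonneg fun k _ => Finset.sum_nonneg fun i _ => by positivity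
  have hΦpos : ∀ x ∈ Uᶜ ×ˢ Sph, 0 < Φ x := by
    intro x hx
    have h1 := ht hx
    simp only [Set.mem_iUnion] at h1
    obtain ⟨h, hht, hne⟩ := h1
    refine lt_of_le_of_ne (hΦnn x) fun h0 => hne ?_
    have h2 := (Finset.sum_eq_zero_iff_of_nonneg
      (fun k _ => Finset.sum_nonneg fun i _ => by positivity)).1 h0.symm (t.equivFin ⟨h, hht⟩)
      (Finset.mem_univ _)
    funext i
    have h3 := (Finset.sum_eq_zero_iff_of_nonneg (fun i _ => by positivity)).1 h2 i
      (Finset.mem_univ i)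
    have h4 : hk (t.equivFin ⟨h, hht⟩) = h.1 := by
      simp only [hk, Equiv.symm_apply_apply]
    rw [h4] at h3
    exact norm_eq_zero.1 (pow_eq_zero_iff two_ne_zero |>.1 h3)
  obtain ⟨c, hc0, hc⟩ : ∃ c : ℝ, 0 < c ∧ ∀ x ∈ Uᶜ ×ˢ Sph, c ≤ Φ x := by
    rcases (Uᶜ ×ˢ Sph).eq_empty_or_nonempty with he | hne
    · exact ⟨1, one_pos, fun x hx => by rw [he] at hx; exact absurd hx (Set.notMem_empty x)⟩
    · obtain ⟨x0, hx0, hmin⟩ := hK0.exists_isMinOn hne hΦ.continuousOn
      exact ⟨Φ x0, hΦpos x0 hx0, fun x hx => hmin hx⟩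
  refine ⟨t.card, c, hk, hc0, fun k => (hkF k).1, fun k => (hkF k).2, U, hUo.measurableSet, ?_, ?_⟩
  · have h1 : (Measure.pi fun _ : Fin m => μ) U ≤ ENNReal.ofReal ε := hUε.le
    exact ENNReal.toReal_le_of_le_ofReal hε.le h1
  · intro p hp v
    show c * ∑ j, ‖v j‖ ^ 2 ≤ Φ (p, v)
    have hr0 : 0 ≤ ∑ j, ‖v j‖ ^ 2 := Finset.sum_nonneg fun j _ => by positivity
    rcases hr0.eq_or_lt with hr | hr
    · rw [← hr, mul_zero]
      exact hΦnn _
    · set r := ∑ j, ‖v j‖ ^ 2 with hrd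
      have hs : 0 < Real.sqrt r := Real.sqrt_pos.2 hr
      let w : Fin M → ℂ := ((Real.sqrt r)⁻¹ : ℝ) • v
      have hw : w ∈ Sph := by
        show ∑ j, ‖w j‖ ^ 2 = 1
        have h1 : ∀ j, ‖w j‖ ^ 2 = r⁻¹ * ‖v j‖ ^ 2 := by
          intro j
          show ‖((Real.sqrt r)⁻¹ : ℝ) • v j‖ ^ 2 = _
          rw [norm_smul, mul_pow, Real.norm_eq_abs, abs_of_pos (inv_pos.2 hs), inv_pow,
            Real.sq_sqrt hr.le]
        simp only [h1]
        rw [← Finset.mul_sum, ← hrd]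
        exact inv_mul_cancel₀ hr.ne'
      have h1 := hc (p, w) ⟨hp, hw⟩
      have h2 : Φ (p, w) = r⁻¹ * Φ (p, v) := by
        show ∑ k, ∑ i, ‖(hk k (fun i => mt (p i)) *ᵥ w) i‖ ^ 2 =
          r⁻¹ * ∑ k, ∑ i, ‖(hk k (fun i => mt (p i)) *ᵥ v) i‖ ^ 2
        rw [Finset.mul_sum]
        refine Finset.sum_congr rfl fun k _ => ?_
        rw [Finset.mul_sum]
        refine Finset.sum_congr rfl fun i _ => ?_
        show ‖(hk k (fun i => mt (p i)) *ᵥ (((Real.sqrt r)⁻¹ : ℝ) • v)) i‖ ^ 2 = _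
        rw [Matrix.mulVec_smul, Pi.smul_apply, norm_smul, mul_pow, Real.norm_eq_abs,
          abs_of_pos (inv_pos.2 hs), inv_pow, Real.sq_sqrt hr.le]
      rw [h2, inv_mul_eq_div, le_div_iff₀ hr] at h1
      exact h1

end Pool.Agent.H189.KS
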