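import Mathlib
import Pool.Agent.H189.KS.Stm

open MeasureTheory Matrix Filter
open scoped ContDiff Matrix.Norms.Frobenius Topology

namespace Pool.Agent.H189.KS.E0AL

noncomputable section

set_option linter.unusedSectionVars false

variable {N n : ℕ} {G : Subgroup (UU N)} {E X : Type} [Fintype E] [DecidableEq E] [Fintype X]

theorem rinv [CompactSpace G] [MeasurableSpace G] [BorelSpace G] (μ : Measure G)
    [IsProbabilityMeasure μ] [μ.IsHaarMeasure] : μ.IsMulRightInvariant := by
  refine ⟨fun g => ?_⟩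
  have : IsProbabilityMeasure (Measure.map (fun x : G => x * g) μ) :=
    Measure.isProbabilityMeasure_map (measurable_mul_const g).aemeasurable
  exact Measure.isHaarMeasure_eq_of_isProbabilityMeasure _ _

theorem cUU (N : ℕ) : CompactSpace (UU N) := by
  have h1 : IsCompact (Set.pi Set.univ fun _ : Fin N => Set.pi Set.univ fun _ : Fin N => Metric.closedBall (0 : ℂ) 1) :=
    isCompact_univ_pi fun _ => isCompact_univ_pi fun _ => isCompact_closedBall _ _
  have h2 : IsCompact ({M : Mt N | ∀ i j, M i j ∈ Metric.closedBall (0 : ℂ) 1} : Set (Mt N)) := by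
    have : ({M : Mt N | ∀ i j, M i j ∈ Metric.closedBall (0 : ℂ) 1} : Set (Mt N)) = (Set.pi Set.univ fun _ : Fin N => Set.pi Set.univ fun _ : Fin N => Metric.closedBall (0 : ℂ) 1) := by
      ext M
      exact ⟨fun h i _ j _ => h i j, fun h i j => h i trivial j trivial⟩
    rw [this]; exact h1
  have h3 : IsClosed ((UU N : Submonoid (Mt N)) : Set (Mt N)) := by
    have : ((UU N : Submonoid (Mt N)) : Set (Mt N)) = {M | star M * M = 1} := by
      ext M; exact Matrix.mem_unitaryGroup_iff'
    rw [this]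
    exact isClosed_eq ((continuous_id.matrix_conjTranspose).mul continuous_id) continuous_const
  have h4 : IsCompact ((UU N : Submonoid (Mt N)) : Set (Mt N)) := by
    refine h2.of_isClosed_subset h3 ?_
    intro M hM i j
    rw [mem_closedBall_zero_iff]
    exact entry_norm_bound_of_unitary hM i j
  exact isCompact_iff_compactSpace.1 h4
theorem sUU (N : ℕ) : SecondCountableTopology (UU N) := by
  have : SecondCountableTopology (Mt N) := inferInstanceAs (SecondCountableTopology (Fin N → Fin N → ℂ))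
  exact TopologicalSpace.Subtype.secondCountableTopology _

theorem slice {V : Type} [TopologicalSpace V] {h : (X → G) × (E → G) → V} (hh : Continuous h)
    (U : E → G) : Continuous fun γ => h (γ, U) :=
  hh.comp (continuous_id.prodMk continuous_const)

theorem cint {Z V : Type} [TopologicalSpace Z] [CompactSpace Z] [MeasurableSpace Z]
    [OpensMeasurableSpace Z] [NormedAddCommGroup V] (μ : Measure Z) [IsFiniteMeasure μ]
    {f : Z → V} (hf : Continuous f) : Integrable f μ :=
  hf.integrable_of_hasCompactSupport (HasCompactSupport.of_compactSpace f)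

/-- Cauchy–Schwarz for square integrable real functions -/
theorem cs {Z : Type} [MeasurableSpace Z] (μ : Measure Z) {a b : Z → ℝ}
    (ha : Integrable (fun z => a z ^ 2) μ) (hb : Integrable (fun z => b z ^ 2) μ)
    (hab : Integrable (fun z => a z * b z) μ) :
    (∫ z, a z * b z ∂μ) ^ 2 ≤ (∫ z, a z ^ 2 ∂μ) * ∫ z, b z ^ 2 ∂μ := by
  have h := discrim_le_zero (a := ∫ z, b z ^ 2 ∂μ) (b := -2 * ∫ z, a z * b z ∂μ)
    (c := ∫ z, a z ^ 2 ∂μ) (fun x => ?_)
  · unfold discrim at h
    nlinarith
  · have h1 : 0 ≤ ∫ z, (a z - x * b z) ^ 2 ∂μ := integral_nonneg fun z => sq_nonneg _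
    have h2 : ∫ z, (a z - x * b z) ^ 2 ∂μ =
        (∫ z, b z ^ 2 ∂μ) * (x * x) + (-2 * ∫ z, a z * b z ∂μ) * x + ∫ z, a z ^ 2 ∂μ := by
      have e1 : (fun z => (a z - x * b z) ^ 2) =
          fun z => ((x * x) * b z ^ 2 + (-2 * x) * (a z * b z)) + a z ^ 2 := by
        funext z; ring
      rw [e1, integral_add, integral_add, integral_const_mul, integral_const_mul]
      · ring
      · exact hb.const_mul _
      · exact hab.const_mul _
      · exact (hb.const_mul _).add (hab.const_mul _)
      · exact ha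
    linarith

theorem gt_cont (s t : E → X) :
    Continuous fun p : (X → G) × (E → G) => gt s t p.1 p.2 := by
  refine continuous_pi fun e => ?_
  unfold gt
  exact (((continuous_apply (s e)).comp continuous_fst).mul
    ((continuous_apply e).comp continuous_snd)).mul
      (((continuous_apply (t e)).comp continuous_fst).inv)

theorem gt_gt (s t : E → X) (γ γ' : X → G) (U : E → G) :
    gt s t γ (gt s t γ' U) = gt s t (γ * γ') U := by
  funext e
  unfold gt
  rw [Pi.mul_apply, Pi.mul_apply, _root_.mul_inv_rev]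
  simp only [mul_assoc]

theorem gtC_apply (s t : E → X) (γ : X → G) (M : E → Mt N) (e : E) :
    gtC s t γ M e = mt (γ (s e)) * M e * (mt (γ (t e)))ᴴ := rfl

theorem gtC_cont (s t : E → X) :
    Continuous fun p : (X → G) × (E → Mt N) => gtC s t p.1 p.2 := by
  refine continuous_pi fun e => ?_
  simp only [gtC_apply]
  refine (((mt_cont.comp ((continuous_apply (s e)).comp continuous_fst)).mul
    ((continuous_apply e).comp continuous_snd))).mul ?_
  exact (mt_cont.comp ((continuous_apply (t e)).comp continuous_fst)).matrix_conjTranspose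

theorem abs_cont {P H : Type} [NormedAddCommGroup P] [NormedSpace ℝ P] [FiniteDimensional ℝ P]
    [NormedAddCommGroup H] [NormedSpace ℝ H] {Z : Type} [TopologicalSpace Z] (T : Z → P →ₗ[ℝ] H)
    (hT : ∀ p, Continuous fun z => T z p) :
    Continuous fun z => LinearMap.toContinuousLinearMap (T z) :=
  continuous_clm_apply.2 hT

theorem abs_fderiv {P Z : Type} [NormedAddCommGroup P] [NormedSpace ℝ P] [TopologicalSpace Z]
    {f : P → ℂ} (hf : ContDiff ℝ ∞ f) {u v : Z → P} (hu : Continuous u) (hv : Continuous v) :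
    Continuous fun z => fderiv ℝ f (u z) (v z) :=
  ((hf.continuous_fderiv (by simp)).comp hu).clm_apply hv

theorem dd_gt {f : (E → Mt N) → ℂ} (hf : ContDiff ℝ ∞ f) {F : (E → G) → ℂ}
    (h : ∀ U, F U = f (fun e => mt (U e))) (B : LieBasis G n) (s t : E → X) (γ : X → G) (e : E)
    (a : Fin n) (U : E → G) : dd B e a (fun U => F (gt s t γ U)) U =
      fderiv ℝ f (gtC s t γ fun e' => mt (U e')) (gtC s t γ (vf B e a fun e' => mt (U e'))) := by
  have h1 : ContDiff ℝ ∞ (fun M => f (gtC s t γ M)) := hf.comp (gtC s t γ).contDiff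
  have h2 : ∀ U, F (gt s t γ U) = f (gtC s t γ fun e => mt (U e)) := fun U => by
    rw [h, mat_gt]; rfl
  rw [dd_ext h1 h2 B e a U]
  have h3 : HasFDerivAt (fun M => f (gtC s t γ M))
      ((fderiv ℝ f (gtC s t γ fun e' => mt (U e'))).comp (gtC s t γ))
      (fun e' => mt (U e')) :=
    ((hf.differentiable (by simp)).differentiableAt.hasFDerivAt).comp _
      (gtC s t γ).hasFDerivAt
  rw [h3.fderiv]
  rfl

theorem t2 : Continuous fun p : (X → G) × (E → G) => (fun e' => mt (p.2 e') : E → Mt N) :=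
  mat_cont.comp continuous_snd

theorem t3 (s t : E → X) :
    Continuous fun p : (X → G) × (E → G) => gtC s t p.1 fun e' => mt (p.2 e') :=
  Continuous.comp (g := fun p : (X → G) × (E → Mt N) => gtC s t p.1 p.2)
    (f := fun p : (X → G) × (E → G) => ((p.1, fun e' => mt (p.2 e')) : (X → G) × (E → Mt N)))
    (gtC_cont s t) (continuous_fst.prodMk t2)

theorem t4a (B : LieBasis G n) (e : E) (a : Fin n) :
    Continuous fun M : E → Mt N => vf B e a M := (contDiff_vf B e a).continuous

theorem t4 (s t : E → X) (B : LieBasis G n) (e : E) (a : Fin n) :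
    Continuous fun p : (X → G) × (E → G) => gtC s t p.1 (vf B e a fun e' => mt (p.2 e')) :=
  Continuous.comp (g := fun p : (X → G) × (E → Mt N) => gtC s t p.1 p.2)
    (f := fun p : (X → G) × (E → G) => ((p.1, vf B e a fun e' => mt (p.2 e')) :
      (X → G) × (E → Mt N)))
    (gtC_cont s t) (continuous_fst.prodMk ((t4a B e a).comp t2))

theorem dd_gt_cont {F : (E → G) → ℂ} (hF : IsSm F) (B : LieBasis G n) (s t : E → X) (e : E)
    (a : Fin n) :
    Continuous fun p : (X → G) × (E → G) => dd B e a (fun U => F (gt s t p.1 U)) p.2 := by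
  obtain ⟨f, hf, h⟩ := hF
  have key : (fun p : (X → G) × (E → G) => dd B e a (fun U => F (gt s t p.1 U)) p.2) =
      fun p => fderiv ℝ f (gtC s t p.1 fun e' => mt (p.2 e'))
        (gtC s t p.1 (vf B e a fun e' => mt (p.2 e'))) :=
    funext fun p => dd_gt hf h B s t p.1 e a p.2
  rw [key]
  exact abs_fderiv hf (t3 s t) (t4 s t B e a)

theorem fgt_cont {F : (E → G) → ℂ} (hF : IsSm F) (s t : E → X) :
    Continuous fun p : (X → G) × (E → G) => F (gt s t p.1 p.2) :=
  hF.cont.comp (gt_cont s t)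

theorem mp_gt [CompactSpace G] [MeasurableSpace G] [BorelSpace G] (μ : Measure G)
    [IsProbabilityMeasure μ] [μ.IsHaarMeasure] (s t : E → X) (γ : X → G) :
    MeasurePreserving (fun U : E → G => gt s t γ U) (Measure.pi fun _ : E => μ)
      (Measure.pi fun _ : E => μ) := by
  have := rinv μ
  have h : ∀ e : E, MeasurePreserving (fun u : G => γ (s e) * u * (γ (t e))⁻¹) μ μ := fun e =>
    (measurePreserving_mul_right μ (γ (t e))⁻¹).comp (measurePreserving_mul_left μ (γ (s e)))
  exact measurePreserving_pi (fun _ : E => μ) (fun _ : E => μ) h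


/-- the average of the square of the norm over the gauge group -/
def Q [MeasurableSpace G] (ν : Measure (X → G)) (s t : E → X) (F : (E → G) → ℂ) (U : E → G) : ℝ :=
  ∫ γ, ‖F (gt s t γ U)‖ ^ 2 ∂ν

theorem Q_nonneg [MeasurableSpace G] (ν : Measure (X → G)) (s t : E → X) (F : (E → G) → ℂ)
    (U : E → G) : 0 ≤ Q ν s t F U := integral_nonneg fun _ => by positivity

theorem Q_sm (hP : S_PARI) [CompactSpace G] [SecondCountableTopology G] [MeasurableSpace G]
    [BorelSpace G] (ν : Measure (X → G)) [IsFiniteMeasure ν] (s t : E → X) {F : (E → G) → ℂ}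
    (hF : IsSm F) : ∃ q : (E → Mt N) → ℝ, ContDiff ℝ ∞ q ∧ (∀ M, 0 ≤ q M) ∧
      ∀ U, Q ν s t F U = q (fun e => mt (U e)) := by
  obtain ⟨f, hf, h⟩ := hF
  have c1 : ContDiff ℝ ∞ fun M => ‖f M‖ ^ 2 := hf.norm_sq ℝ
  have c2 : Continuous fun γ : X → G => LinearMap.toContinuousLinearMap
      (gtM s t γ : (E → Mt N) →ₗ[ℝ] (E → Mt N)) := by
    refine abs_cont (P := E → Mt N) (H := E → Mt N) (fun γ : X → G => gtM s t γ) fun M => ?_
    exact Continuous.comp (g := fun p : (X → G) × (E → Mt N) => gtC s t p.1 p.2)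
      (f := fun γ : X → G => ((γ, M) : (X → G) × (E → Mt N)))
      (gtC_cont s t) (continuous_id.prodMk continuous_const)
  have c3 := hP (X → G) ν (E → Mt N) (E → Mt N) ℝ ℝ (fun M => ‖f M‖ ^ 2) c1 _ c2
    (fun _ => ContinuousLinearMap.id ℝ ℝ) continuous_const
  refine ⟨_, c3, fun M => integral_nonneg fun _ => ?_, fun U => ?_⟩
  · simp only [ContinuousLinearMap.id_apply, Pi.zero_apply]
    positivity
  · unfold Q
    refine integral_congr_ae (Eventually.of_forall fun γ => ?_)
    simp only [ContinuousLinearMap.id_apply]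
    rw [h, mat_gt]
    rfl

theorem Q_deriv [CompactSpace G] [SecondCountableTopology G] [MeasurableSpace G]
    [BorelSpace G] (ν : Measure (X → G)) [IsFiniteMeasure ν] (s t : E → X) {F : (E → G) → ℂ}
    (hF : IsSm F) (B : LieBasis G n) (e : E) (a : Fin n) (U : E → G) :
    HasDerivAt (fun τ => Q ν s t F (sh B e a τ U))
      (∫ γ, 2 * inner ℝ (F (gt s t γ U)) (dd B e a (fun U => F (gt s t γ U)) U) ∂ν) 0 := by
  have hψ : Continuous fun p : (X → G) × (E → G) =>
      2 * inner ℝ (F (gt s t p.1 p.2)) (dd B e a (fun U => F (gt s t p.1 U)) p.2) :=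
    continuous_const.mul ((fgt_cont hF s t).inner (dd_gt_cont hF B s t e a))
  obtain ⟨C, hC⟩ := isCompact_univ.exists_bound_of_continuousOn hψ.continuousOn
  have h1 := hasDerivAt_integral_of_dominated_loc_of_deriv_le (μ := ν) (𝕜 := ℝ)
    (bound := fun _ => C) (F := fun τ γ => ‖F (gt s t γ (sh B e a τ U))‖ ^ 2) (x₀ := 0)
    (s := Set.univ) Filter.univ_mem
    (F' := fun τ γ => 2 * inner ℝ (F (gt s t γ (sh B e a τ U)))
      (dd B e a (fun U => F (gt s t γ U)) (sh B e a τ U)))
    (Eventually.of_forall fun τ => ?_) ?_ ?_ ?_ (integrable_const C) ?_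
  · have h2 := h1.2
    simp only [sh_zero] at h2
    exact h2
  · exact ((slice (h := fun p : (X → G) × (E → G) => F (gt s t p.1 p.2)) (fgt_cont hF s t)
      (sh B e a τ U)).norm.pow 2).aestronglyMeasurable
  · exact cint ν ((slice (h := fun p : (X → G) × (E → G) => F (gt s t p.1 p.2)) (fgt_cont hF s t)
      (sh B e a 0 U)).norm.pow 2)
  · exact (slice (h := fun p : (X → G) × (E → G) =>
      2 * inner ℝ (F (gt s t p.1 p.2)) (dd B e a (fun U => F (gt s t p.1 U)) p.2)) hψ
      (sh B e a 0 U)).aestronglyMeasurable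
  · exact Eventually.of_forall fun γ τ _ => hC (γ, sh B e a τ U) (Set.mem_univ _)
  · exact Eventually.of_forall fun γ τ _ =>
      ((hF.gt s t γ).hasDerivAt B e a U τ).norm_sq

theorem dd_bound [CompactSpace G] [SecondCountableTopology G] [MeasurableSpace G]
    [BorelSpace G] (ν : Measure (X → G)) [IsFiniteMeasure ν] (s t : E → X) {F : (E → G) → ℂ}
    (hF : IsSm F) (B : LieBasis G n) (e : E) (a : Fin n) {δ : ℝ} (hδ : 0 < δ) (U : E → G) :
    ‖dd B e a (fun U => √(Q ν s t F U + δ)) U‖ ^ 2 ≤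
      ∫ γ, ‖dd B e a (fun U => F (gt s t γ U)) U‖ ^ 2 ∂ν := by
  have hQ0 := Q_nonneg ν s t F U
  have hpos : 0 < Q ν s t F U + δ := by linarith
  have h1 := Q_deriv ν s t hF B e a U
  set D : ℝ := ∫ γ, 2 * inner ℝ (F (gt s t γ U)) (dd B e a (fun U => F (gt s t γ U)) U) ∂ν with hD
  have h2 : HasDerivAt (fun τ => √(Q ν s t F (sh B e a τ U) + δ))
      (D / (2 * √(Q ν s t F (sh B e a 0 U) + δ))) 0 := by
    refine HasDerivAt.sqrt (h1.add_const δ) ?_
    rw [sh_zero]
    exact hpos.ne'
  have h3 : dd B e a (fun U => √(Q ν s t F U + δ)) U = D / (2 * √(Q ν s t F U + δ)) := by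
    unfold dd
    rw [h2.deriv, sh_zero]
  rw [h3, Real.norm_eq_abs, sq_abs, div_pow, mul_pow, Real.sq_sqrt hpos.le]
  set R : ℝ := ∫ γ, ‖dd B e a (fun U => F (gt s t γ U)) U‖ ^ 2 ∂ν with hR
  have ca : Continuous fun γ : X → G => F (gt s t γ U) :=
    slice (h := fun p : (X → G) × (E → G) => F (gt s t p.1 p.2)) (fgt_cont hF s t) U
  have cb : Continuous fun γ : X → G => dd B e a (fun U => F (gt s t γ U)) U :=
    slice (h := fun p : (X → G) × (E → G) => dd B e a (fun U => F (gt s t p.1 U)) p.2)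
      (dd_gt_cont hF B s t e a) U
  have h4 : (∫ γ, ‖F (gt s t γ U)‖ * ‖dd B e a (fun U => F (gt s t γ U)) U‖ ∂ν) ^ 2 ≤
      Q ν s t F U * R :=
    cs ν (cint ν (ca.norm.pow 2)) (cint ν (cb.norm.pow 2)) (cint ν (ca.norm.mul cb.norm))
  have h5 : |D| ≤ 2 * ∫ γ, ‖F (gt s t γ U)‖ * ‖dd B e a (fun U => F (gt s t γ U)) U‖ ∂ν := by
    rw [hD, ← integral_const_mul, ← Real.norm_eq_abs]
    refine norm_integral_le_of_norm_le (cint ν (continuous_const.mul (ca.norm.mul cb.norm))) ?_
    refine Eventually.of_forall fun γ => ?_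
    rw [norm_mul, Real.norm_eq_abs, abs_of_pos (by norm_num : (0:ℝ) < 2)]
    exact mul_le_mul_of_nonneg_left (norm_inner_le_norm _ _) (by norm_num)
  have h6 : D ^ 2 ≤ 4 * (Q ν s t F U * R) := by
    have h7 : D ^ 2 ≤ (2 * ∫ γ, ‖F (gt s t γ U)‖ *
        ‖dd B e a (fun U => F (gt s t γ U)) U‖ ∂ν) ^ 2 := by
      rw [← sq_abs D]
      exact pow_le_pow_left₀ (abs_nonneg _) h5 2
    rw [mul_pow] at h7
    linarith
  have hR0 : 0 ≤ R := integral_nonneg fun _ => by positivity
  rw [div_le_iff₀ (by positivity)]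
  nlinarith [mul_nonneg hδ.le hR0]

theorem avg [CompactSpace G] [SecondCountableTopology G] [MeasurableSpace G]
    [BorelSpace G] (μ : Measure G) [IsProbabilityMeasure μ] [μ.IsHaarMeasure] (s t : E → X)
    {H : (E → G) → ℝ} (hH : Continuous H) :
    ∫ U, (∫ γ, H (gt s t γ U) ∂(Measure.pi fun _ : X => μ)) ∂(Measure.pi fun _ : E => μ) =
      ∫ U, H U ∂(Measure.pi fun _ : E => μ) := by
  have h0 : Continuous fun p : (X → G) × (E → G) => H (gt s t p.1 p.2) :=
    hH.comp (gt_cont s t)
  have hsw : Continuous fun p : (E → G) × (X → G) => ((p.2, p.1) : (X → G) × (E → G)) :=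
    continuous_snd.prodMk continuous_fst
  have h0' : Continuous fun p : (E → G) × (X → G) => H (gt s t p.2 p.1) :=
    Continuous.comp (g := fun p : (X → G) × (E → G) => H (gt s t p.1 p.2))
      (f := fun p : (E → G) × (X → G) => ((p.2, p.1) : (X → G) × (E → G))) h0 hsw
  have h1 : Integrable (fun p : (E → G) × (X → G) => H (gt s t p.2 p.1))
      ((Measure.pi fun _ : E => μ).prod (Measure.pi fun _ : X => μ)) :=
    cint _ h0'
  rw [integral_integral_swap h1]
  have h2 : ∀ γ : X → G, ∫ U, H (gt s t γ U) ∂(Measure.pi fun _ : E => μ) =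
      ∫ U, H U ∂(Measure.pi fun _ : E => μ) := fun γ => by
    have h3 := mp_gt (E := E) μ s t γ
    have h4 := integral_map (μ := Measure.pi fun _ : E => μ) h3.measurable.aemeasurable
      (f := H) hH.aestronglyMeasurable
    rw [h3.map_eq] at h4
    exact h4.symm
  simp only [h2]
  rw [integral_const]
  simp

theorem Q_int [CompactSpace G] [SecondCountableTopology G] [MeasurableSpace G]
    [BorelSpace G] (μ : Measure (E → G)) [IsFiniteMeasure μ] (ν : Measure (X → G))
    [IsFiniteMeasure ν] {V : Type} [NormedAddCommGroup V] [NormedSpace ℝ V]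
    {h : (X → G) × (E → G) → V} (hh : Continuous h) :
    Integrable (fun U => ∫ γ, h (γ, U) ∂ν) μ := by
  have h1 : Integrable (fun p : (E → G) × (X → G) => h (p.2, p.1)) (μ.prod ν) :=
    cint _ (hh.comp (continuous_snd.prodMk continuous_fst))
  exact h1.integral_prod_left

end

end Pool.Agent.H189.KS.E0AL

namespace Pool.Agent.H189.KS

open E0AL

theorem t_E0AL (hP : S_PARI) (hG : S_GAUG) : S_E0AL := by
  intro N n G hGc _ _ μ _ _ B E X _ _ _ s t g hg W hW hWi E0 hE0 F hF
  have hcU : CompactSpace (UU N) := cUU N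
  have hsU : SecondCountableTopology (UU N) := sUU N
  have hc : CompactSpace G := isCompact_iff_compactSpace.1 hGc.isCompact
  have hsc : SecondCountableTopology G := TopologicalSpace.Subtype.secondCountableTopology _
  have : μ.IsMulRightInvariant := rinv μ
  set ν : Measure (X → G) := Measure.pi fun _ : X => μ with hν
  set π : Measure (E → G) := Measure.pi fun _ : E => μ with hπ
  obtain ⟨q, hq, hq0, hQq⟩ := Q_sm hP ν s t hF
  have hQc : Continuous (Q ν s t F) := by
    have : Q ν s t F = fun U => q (fun e => mt (U e)) := funext hQq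
    rw [this]
    exact hq.continuous.comp mat_cont
  have hQi : ∀ γ U, Q ν s t F (gt s t γ U) = Q ν s t F U := by
    intro γ U
    unfold Q
    simp only [gt_gt]
    exact integral_mul_right_eq_self (μ := ν) (fun γ' => ‖F (gt s t γ' U)‖ ^ 2) γ
  -- averages
  have a1 : ∫ U, Q ν s t F U ∂π = nsq μ F := avg μ s t (hF.cont.norm.pow 2)
  have a2 : ∫ U, W U * Q ν s t F U ∂π = pot μ W F := by
    have := avg μ s t (H := fun U => W U * ‖F U‖ ^ 2) (hW.mul (hF.cont.norm.pow 2))
    unfold pot
    rw [← this]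
    refine integral_congr_ae (Eventually.of_forall fun U => ?_)
    simp only [hWi]
    rw [integral_const_mul]
    rfl
  -- kinetic energy
  have a3 : ∀ δ : ℝ, 0 < δ → ∀ e, kin μ B e (fun U => √(Q ν s t F U + δ)) ≤ kin μ B e F := by
    intro δ hδ e
    have hsm : IsSm fun U => √(Q ν s t F U + δ) := by
      refine ⟨fun M => √(q M + δ), ContDiff.sqrt (hq.add contDiff_const) fun M => ?_,
        fun U => by
          show √(Q ν s t F U + δ) = _
          rw [hQq]⟩
      have := hq0 M
      linarith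
    have b1 : ∀ a, ∫ U, ‖dd B e a (fun U => √(Q ν s t F U + δ)) U‖ ^ 2 ∂π ≤
        ∫ U, (∫ γ, ‖dd B e a (fun U => F (gt s t γ U)) U‖ ^ 2 ∂ν) ∂π := fun a =>
      integral_mono (cint π ((hsm.dd B e a).cont.norm.pow 2))
        (Q_int π ν (h := fun p => ‖dd B e a (fun U => F (gt s t p.1 U)) p.2‖ ^ 2)
          ((dd_gt_cont hF B s t e a).norm.pow 2))
        fun U => dd_bound ν s t hF B e a hδ U
    have b2 : ∑ a, ∫ U, (∫ γ, ‖dd B e a (fun U => F (gt s t γ U)) U‖ ^ 2 ∂ν) ∂π =
        ∫ U, (∫ γ, ∑ a, ‖dd B e a (fun U => F (gt s t γ U)) U‖ ^ 2 ∂ν) ∂π := by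
      have w1 := integral_finsetSum (μ := π) (Finset.univ : Finset (Fin n))
        (f := fun a U => ∫ γ, ‖dd B e a (fun U => F (gt s t γ U)) U‖ ^ 2 ∂ν) fun a _ =>
        (Q_int π ν (h := fun p => ‖dd B e a (fun U => F (gt s t p.1 U)) p.2‖ ^ 2)
          ((dd_gt_cont hF B s t e a).norm.pow 2))
      rw [← w1]
      refine integral_congr_ae (Eventually.of_forall fun U => ?_)
      have w2 := integral_finsetSum (μ := ν) (Finset.univ : Finset (Fin n))
        (f := fun a γ => ‖dd B e a (fun U => F (gt s t γ U)) U‖ ^ 2) fun a _ => cint ν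
        ((slice (h := fun p : (X → G) × (E → G) => dd B e a (fun U => F (gt s t p.1 U)) p.2)
          (dd_gt_cont hF B s t e a) U).norm.pow 2)
      exact w2.symm
    have b3 : ∫ U, (∫ γ, ∑ a, ‖dd B e a (fun U => F (gt s t γ U)) U‖ ^ 2 ∂ν) ∂π =
        ∫ U, (∫ γ, ∑ a, ‖dd B e a F (gt s t γ U)‖ ^ 2 ∂ν) ∂π := by
      refine integral_congr_ae (Eventually.of_forall fun U => ?_)
      refine integral_congr_ae (Eventually.of_forall fun γ => ?_)
      exact hG N n G B E X s t γ ℂ F hF e U
    have b4 : ∫ U, (∫ γ, ∑ a, ‖dd B e a F (gt s t γ U)‖ ^ 2 ∂ν) ∂π =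
        ∫ U, ∑ a, ‖dd B e a F U‖ ^ 2 ∂π :=
      avg μ s t (H := fun U => ∑ a, ‖dd B e a F U‖ ^ 2)
        (continuous_finsetSum _ fun a _ => (hF.dd B e a).cont.norm.pow 2)
    have b5 : ∫ U, ∑ a, ‖dd B e a F U‖ ^ 2 ∂π = kin μ B e F := by
      exact integral_finsetSum (μ := π) (Finset.univ : Finset (Fin n))
        (f := fun a U => ‖dd B e a F U‖ ^ 2) fun a _ => cint π ((hF.dd B e a).cont.norm.pow 2)
    calc kin μ B e (fun U => √(Q ν s t F U + δ))
        ≤ ∑ a, ∫ U, (∫ γ, ‖dd B e a (fun U => F (gt s t γ U)) U‖ ^ 2 ∂ν) ∂π :=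
          Finset.sum_le_sum fun a _ => b1 a
      _ = kin μ B e F := by rw [b2, b3, b4, b5]
  -- the inequality for every δ
  have a4 : ∀ δ : ℝ, 0 < δ → E0 * nsq μ F - enr μ B g W F ≤
      δ * (1 / g ^ 2 * (∫ U, W U ∂π) - E0) := by
    intro δ hδ
    have hsm : IsSm fun U => √(Q ν s t F U + δ) := by
      refine ⟨fun M => √(q M + δ), ContDiff.sqrt (hq.add contDiff_const) fun M => ?_,
        fun U => by
          show √(Q ν s t F U + δ) = _
          rw [hQq]⟩
      have := hq0 M
      linarith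
    have h1 := hE0 _ hsm (fun γ U => by rw [hQi])
    have hsq : ∀ U, ‖√(Q ν s t F U + δ)‖ ^ 2 = Q ν s t F U + δ := fun U => by
      rw [Real.norm_eq_abs, sq_abs, Real.sq_sqrt (by linarith [Q_nonneg ν s t F U])]
    have h2 : nsq μ (fun U => √(Q ν s t F U + δ)) = nsq μ F + δ := by
      unfold nsq
      simp only [hsq]
      rw [integral_add (cint π hQc) (integrable_const _), integral_const]
      rw [a1]
      simp [nsq]
    have h3 : pot μ W (fun U => √(Q ν s t F U + δ)) = pot μ W F + δ * ∫ U, W U ∂π := by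
      rw [← a2]
      unfold pot
      simp only [hsq]
      have e1 : (fun U => W U * (Q ν s t F U + δ)) = fun U => W U * Q ν s t F U + δ * W U := by
        funext U; ring
      have w1 : Integrable (fun U => W U * Q ν s t F U) π := cint π (hW.mul hQc)
      have w2 : Integrable (fun U => δ * W U) π := cint π (continuous_const.mul hW)
      rw [e1]
      have w3 := integral_add w1 w2
      rw [integral_const_mul] at w3
      exact w3
    have h4 : enr μ B g W (fun U => √(Q ν s t F U + δ)) ≤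
        enr μ B g W F + 1 / g ^ 2 * (δ * ∫ U, W U ∂π) := by
      unfold enr
      rw [h3]
      have h5 : ∑ e, kin μ B e (fun U => √(Q ν s t F U + δ)) ≤ ∑ e, kin μ B e F :=
        Finset.sum_le_sum fun e _ => a3 δ hδ e
      have h6 : g ^ 2 / 2 * ∑ e, kin μ B e (fun U => √(Q ν s t F U + δ)) ≤
          g ^ 2 / 2 * ∑ e, kin μ B e F := mul_le_mul_of_nonneg_left h5 (by positivity)
      linarith
    rw [h2] at h1
    linarith
  by_contra hlt
  push Not at hlt
  set c : ℝ := 1 / g ^ 2 * (∫ U, W U ∂π) - E0 with hcdef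
  have hx : 0 < E0 * nsq μ F - enr μ B g W F := by linarith
  have h7 := a4 ((E0 * nsq μ F - enr μ B g W F) / (2 * (|c| + 1))) (by positivity)
  have h8 : (E0 * nsq μ F - enr μ B g W F) / (2 * (|c| + 1)) * c ≤
      (E0 * nsq μ F - enr μ B g W F) / 2 := by
    have h9 : (E0 * nsq μ F - enr μ B g W F) / (2 * (|c| + 1)) * c ≤
        (E0 * nsq μ F - enr μ B g W F) / (2 * (|c| + 1)) * (|c| + 1) := by
      refine mul_le_mul_of_nonneg_left ?_ (by positivity)
      linarith [le_abs_self c]
    have h10 : (E0 * nsq μ F - enr μ B g W F) / (2 * (|c| + 1)) * (|c| + 1) =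
        (E0 * nsq μ F - enr μ B g W F) / 2 := by
      field_simp
    linarith
  linarith

end Pool.Agent.H189.KS
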