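import Mathlib
import Pool.Agent.H189.KS.Base

/-!
# Transports along paths
-/

open MeasureTheory Matrix
open scoped ContDiff Matrix.Norms.Frobenius

namespace Pool.Agent.H189.KS

set_option linter.unusedSectionVars false

noncomputable section

variable {N n : ℕ} {G : Subgroup (UU N)} {E X : Type} [Fintype E] [DecidableEq E]

/-- the transport along a list of oriented links -/
def hol : List (E × Bool) → (E → G) → G
  | [], _ => 1
  | (e, true) :: l, U => U e * hol l U
  | (e, false) :: l, U => (U e)⁻¹ * hol l U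

/-- the list is a path from `x` to `y` -/
def isPath (s t : E → X) : X → List (E × Bool) → X → Prop
  | x, [], y => x = y
  | x, (e, true) :: l, y => s e = x ∧ isPath s t (t e) l y
  | x, (e, false) :: l, y => t e = x ∧ isPath s t (s e) l y

/-- the reversed path -/
def rev (l : List (E × Bool)) : List (E × Bool) := (l.map fun p => (p.1, !p.2)).reverse

/-- the number of occurrences of the link `e` -/
def cnt (e : E) (l : List (E × Bool)) : ℕ := (l.map Prod.fst).count e

omit [Fintype E] [DecidableEq E] in
lemma hol_append (l l' : List (E × Bool)) (U : E → G) :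
    hol (l ++ l') U = hol l U * hol l' U := by
  induction l with
  | nil => rw [List.nil_append]; exact (one_mul _).symm
  | cons p l ih =>
    obtain ⟨e, b⟩ := p
    cases b
    · show (U e)⁻¹ * hol (l ++ l') U = (U e)⁻¹ * hol l U * hol l' U
      rw [ih, mul_assoc]
    · show U e * hol (l ++ l') U = U e * hol l U * hol l' U
      rw [ih, mul_assoc]

omit [Fintype E] [DecidableEq E] in
lemma hol_rev (l : List (E × Bool)) (U : E → G) : hol (rev l) U = (hol l U)⁻¹ := by
  induction l with
  | nil => show (1 : G) = 1⁻¹; rw [inv_one]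
  | cons p l ih =>
    obtain ⟨e, b⟩ := p
    have h1 : rev ((e, b) :: l) = rev l ++ [(e, !b)] := by
      unfold rev
      rw [List.map_cons, List.reverse_cons]
    rw [h1, hol_append, ih]
    cases b
    · show (hol l U)⁻¹ * (U e * 1) = ((U e)⁻¹ * hol l U)⁻¹
      rw [mul_one, _root_.mul_inv_rev, inv_inv]
    · show (hol l U)⁻¹ * ((U e)⁻¹ * 1) = (U e * hol l U)⁻¹
      rw [mul_one, _root_.mul_inv_rev]

omit [Fintype E] [DecidableEq E] in
lemma isPath_append {s t : E → X} {l l' : List (E × Bool)} {x y z : X} (h : isPath s t x l y)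
    (h' : isPath s t y l' z) : isPath s t x (l ++ l') z := by
  induction l generalizing x with
  | nil =>
    have h1 : x = y := h
    rw [h1]; exact h'
  | cons p l ih =>
    obtain ⟨e, b⟩ := p
    cases b
    · exact ⟨h.1, ih h.2⟩
    · exact ⟨h.1, ih h.2⟩

omit [Fintype E] [DecidableEq E] in
lemma isPath_rev {s t : E → X} {l : List (E × Bool)} {x y : X} (h : isPath s t x l y) :
    isPath s t y (rev l) x := by
  induction l generalizing x with
  | nil => exact (show x = y from h).symm
  | cons p l ih =>
    obtain ⟨e, b⟩ := p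
    have h1 : rev ((e, b) :: l) = rev l ++ [(e, !b)] := by
      unfold rev
      rw [List.map_cons, List.reverse_cons]
    rw [h1]
    cases b
    · exact isPath_append (ih h.2) ⟨rfl, h.1⟩
    · exact isPath_append (ih h.2) ⟨rfl, h.1⟩

omit [Fintype E] [DecidableEq E] in
/-- gauge covariance -/
lemma hol_gt {s t : E → X} {l : List (E × Bool)} {x y : X} (h : isPath s t x l y) (γ : X → G)
    (U : E → G) : hol l (gt s t γ U) = γ x * hol l U * (γ y)⁻¹ := by
  induction l generalizing x with
  | nil =>
    have h1 : x = y := h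
    rw [h1]
    show (1 : G) = γ y * 1 * (γ y)⁻¹
    rw [mul_one, mul_inv_cancel]
  | cons p l ih =>
    obtain ⟨e, b⟩ := p
    cases b
    · show (γ (s e) * U e * (γ (t e))⁻¹)⁻¹ * hol l (gt s t γ U) =
        γ x * ((U e)⁻¹ * hol l U) * (γ y)⁻¹
      rw [ih h.2, ← h.1]
      group
    · show (γ (s e) * U e * (γ (t e))⁻¹) * hol l (gt s t γ U) =
        γ x * (U e * hol l U) * (γ y)⁻¹
      rw [ih h.2, ← h.1]
      group

omit [Fintype E] [DecidableEq E] in
lemma hol_congr {l : List (E × Bool)} {U U' : E → G} (h : ∀ p ∈ l, U p.1 = U' p.1) :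
    hol l U = hol l U' := by
  induction l with
  | nil => rfl
  | cons p l ih =>
    obtain ⟨e, b⟩ := p
    have h1 : U e = U' e := h (e, b) List.mem_cons_self
    have h2 := ih fun p hp => h p (List.mem_cons_of_mem _ hp)
    cases b
    · show (U e)⁻¹ * hol l U = (U' e)⁻¹ * hol l U'
      rw [h1, h2]
    · show U e * hol l U = U' e * hol l U'
      rw [h1, h2]

omit [Fintype E] in
lemma cnt_cons (e e' : E) (b : Bool) (l : List (E × Bool)) :
    cnt e ((e', b) :: l) = cnt e l + if e' = e then 1 else 0 := by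
  unfold cnt
  rw [List.map_cons, List.count_cons]
  simp

omit [Fintype E] in
lemma cnt_append (e : E) (l l' : List (E × Bool)) : cnt e (l ++ l') = cnt e l + cnt e l' := by
  unfold cnt
  rw [List.map_append, List.count_append]

omit [Fintype E] in
lemma cnt_rev (e : E) (l : List (E × Bool)) : cnt e (rev l) = cnt e l := by
  unfold cnt rev
  rw [List.map_reverse, List.count_reverse, List.map_map]
  rfl

lemma sum_cnt (l : List (E × Bool)) : ∑ e, cnt e l = l.length := by
  induction l with
  | nil => simp [cnt]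
  | cons p l ih =>
    obtain ⟨e', b⟩ := p
    simp only [cnt_cons, Finset.sum_add_distrib, ih, List.length_cons]
    simp

omit [Fintype E] in
lemma cnt_zero {e : E} {l : List (E × Bool)} (h : ∀ p ∈ l, p.1 ≠ e) : cnt e l = 0 := by
  unfold cnt
  rw [List.count_eq_zero]
  intro he
  obtain ⟨p, hp, hpe⟩ := List.mem_map.1 he
  exact h p hp hpe

/-! ### smoothness -/

lemma norm_unit_mul (g : G) (A : Mt N) : ‖mt g * A‖ = ‖A‖ := by
  have hU : (mt g)ᴴ * mt g = 1 := by
    have := (Matrix.mem_unitaryGroup_iff').1 (g : UU N).2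
    exact this
  have h1 : ∀ M : Mt N, ‖M‖ ^ 2 = (trace (Mᴴ * M)).re := by
    intro M
    rw [Matrix.frobenius_norm_def]
    rw [← Real.rpow_natCast, ← Real.rpow_mul (Finset.sum_nonneg fun _ _ =>
      Finset.sum_nonneg fun _ _ => by positivity)]
    norm_num
    rw [Matrix.trace]
    simp only [Matrix.diag_apply, Matrix.mul_apply, Matrix.conjTranspose_apply, Complex.re_sum]
    rw [Finset.sum_comm]
    refine Finset.sum_congr rfl fun i _ => Finset.sum_congr rfl fun j _ => ?_
    rw [← Complex.normSq_eq_norm_sq, Complex.star_def, Complex.normSq_apply]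
    simp
  have h2 : ‖mt g * A‖ ^ 2 = ‖A‖ ^ 2 := by
    rw [h1, h1, conjTranspose_mul, Matrix.mul_assoc, ← Matrix.mul_assoc (mt g)ᴴ, hU,
      Matrix.one_mul]
  have h3 := norm_nonneg (mt g * A)
  have h4 := norm_nonneg A
  nlinarith

lemma norm_mul_unit (g : G) (A : Mt N) : ‖A * mt g‖ = ‖A‖ := by
  rw [← Matrix.frobenius_norm_conjTranspose, conjTranspose_mul, ← mt_inv, norm_unit_mul,
    Matrix.frobenius_norm_conjTranspose]

lemma norm_X (B : LieBasis G n) (a : Fin n) : ‖B.X a‖ = 1 := by
  have h1 : ∀ M : Mt N, ‖M‖ ^ 2 = (trace (Mᴴ * M)).re := by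
    intro M
    rw [Matrix.frobenius_norm_def]
    rw [← Real.rpow_natCast, ← Real.rpow_mul (Finset.sum_nonneg fun _ _ =>
      Finset.sum_nonneg fun _ _ => by positivity)]
    norm_num
    rw [Matrix.trace]
    simp only [Matrix.diag_apply, Matrix.mul_apply, Matrix.conjTranspose_apply, Complex.re_sum]
    rw [Finset.sum_comm]
    refine Finset.sum_congr rfl fun i _ => Finset.sum_congr rfl fun j _ => ?_
    rw [← Complex.normSq_eq_norm_sq, Complex.star_def, Complex.normSq_apply]
    simp
  have h2 := h1 (B.X a)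
  rw [B.orth, if_pos rfl] at h2
  have h3 := norm_nonneg (B.X a)
  nlinarith

lemma isSm_link (e : E) : IsSm fun U : E → G => mt (U e) :=
  ⟨fun M => M e, contDiff_apply ℝ (Mt N) e, fun _ => rfl⟩

lemma isSm_link_inv (e : E) : IsSm fun U : E → G => mt (U e)⁻¹ := by
  have hc : ContDiff ℝ ∞ (fun M : Mt N => Mᴴ) :=
    (LinearMap.toContinuousLinearMap
      ({ toFun := fun M => Mᴴ, map_add' := fun A B => conjTranspose_add A B,
         map_smul' := fun c A => by
          rw [conjTranspose_smul]; simp } : Mt N →ₗ[ℝ] Mt N)).contDiff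
  exact (isSm_link e).comp hc

lemma isSm_mul {F H : (E → G) → Mt N} (hF : IsSm F) (hH : IsSm H) :
    IsSm fun U => F U * H U := by
  obtain ⟨f, hf, h⟩ := hF
  obtain ⟨f', hf', h'⟩ := hH
  exact ⟨fun M => f M * f' M, hf.mul hf', fun U => by dsimp only; rw [h, h']⟩

lemma dd_mul (B : LieBasis G n) (e : E) (a : Fin n) {F H : (E → G) → Mt N} (hF : IsSm F)
    (hH : IsSm H) (U : E → G) : dd B e a (fun U => F U * H U) U =
      dd B e a F U * H U + F U * dd B e a H U := by
  have h1 := (hF.hasDerivAt B e a U 0).mul (hH.hasDerivAt B e a U 0)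
  simp only [sh_zero] at h1
  exact h1.deriv

lemma dd_link (B : LieBasis G n) (e e' : E) (a : Fin n) (U : E → G) :
    dd B e a (fun U : E → G => mt (U e')) U = if e' = e then B.X a * mt (U e) else 0 := by
  have h1 := dd_ext (f := fun M : E → Mt N => M e') (contDiff_apply ℝ (Mt N) e')
    (F := fun U : E → G => mt (U e')) (fun _ => rfl) B e a U
  rw [h1]
  have h2 := (ContinuousLinearMap.proj (R := ℝ) (φ := fun _ : E => Mt N) e').hasFDerivAt
    (x := fun e' => mt (U e'))
  have h3 : fderiv ℝ (fun M : E → Mt N => M e') (fun e' => mt (U e')) = _ := h2.fderiv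
  refine (congrArg (fun T => T (vf B e a fun e' => mt (U e'))) h3).trans ?_
  show vf B e a (fun e' => mt (U e')) e' = _
  unfold vf
  split_ifs with h
  · subst h; rw [Pi.single_eq_same]
  · rw [Pi.single_eq_of_ne h]

lemma norm_dd_link (B : LieBasis G n) (e e' : E) (a : Fin n) (U : E → G) :
    ‖dd B e a (fun U : E → G => mt (U e')) U‖ = if e' = e then 1 else 0 := by
  rw [dd_link]
  split_ifs with h
  · rw [norm_mul_unit, norm_X]
  · exact norm_zero

lemma norm_dd_link_inv (B : LieBasis G n) (e e' : E) (a : Fin n) (U : E → G) :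
    ‖dd B e a (fun U : E → G => mt (U e')⁻¹) U‖ = if e' = e then 1 else 0 := by
  have h1 : dd B e a (fun U : E → G => mt (U e')⁻¹) U =
      (dd B e a (fun U : E → G => mt (U e')) U)ᴴ :=
    dd_clm B e a (LinearMap.toContinuousLinearMap
      ({ toFun := fun M => Mᴴ, map_add' := fun A B => conjTranspose_add A B,
         map_smul' := fun c A => by
          rw [conjTranspose_smul]; simp } : Mt N →ₗ[ℝ] Mt N)) (isSm_link e') U
  rw [h1, Matrix.frobenius_norm_conjTranspose, norm_dd_link]

lemma isSm_hol (l : List (E × Bool)) : IsSm fun U : E → G => mt (hol l U) := by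
  induction l with
  | nil => exact IsSm.const _
  | cons p l ih =>
    obtain ⟨e, b⟩ := p
    cases b
    · exact isSm_mul (isSm_link_inv e) ih
    · exact isSm_mul (isSm_link e) ih

lemma norm_dd_hol (B : LieBasis G n) (e : E) (a : Fin n) (l : List (E × Bool)) (U : E → G) :
    ‖dd B e a (fun U : E → G => mt (hol l U)) U‖ ≤ cnt e l := by
  induction l with
  | nil =>
    have h1 : dd B e a (fun U : E → G => mt (hol [] U)) U = 0 := dd_const B e a _ U
    rw [h1, norm_zero]
    exact Nat.cast_nonneg _
  | cons p l ih =>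
    obtain ⟨e', b⟩ := p
    rw [cnt_cons]
    have key : ∀ {F : (E → G) → G}, IsSm (fun U => mt (F U)) →
        ‖dd B e a (fun U => mt (F U)) U‖ = (if e' = e then 1 else 0 : ℝ) →
        ‖dd B e a (fun U => mt (F U) * mt (hol l U)) U‖ ≤
          ((cnt e l + if e' = e then 1 else 0 : ℕ) : ℝ) := by
      intro F hF hn
      rw [dd_mul B e a hF (isSm_hol l)]
      refine (norm_add_le _ _).trans ?_
      rw [norm_mul_unit, norm_unit_mul, hn]
      push_cast
      linarith
    cases b
    · exact key (isSm_link_inv e') (norm_dd_link_inv B e e' a U)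
    · exact key (isSm_link e') (norm_dd_link B e e' a U)

end

end Pool.Agent.H189.KS
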