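import Mathlib
import Pool.Agent.H189.KS.Path

/-!
# Loops in the periodic lattice
-/

open MeasureTheory Matrix
open scoped ContDiff Matrix.Norms.Frobenius

namespace Pool.Agent.H189.KS

set_option linter.unusedSectionVars false

noncomputable section

/-- Links of the periodic lattice `(ℤ/l)^D`: base point and direction. -/
abbrev Link (D l : ℕ) := (Fin D → ZMod l) × Fin D

/-- Unit vector of the lattice in direction `i`. -/
def unitv {D l : ℕ} (i : Fin D) : Fin D → ZMod l := Pi.single i 1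

/-- start of a link -/
def src {D l : ℕ} (e : Link D l) : Fin D → ZMod l := e.1

/-- end of a link -/
def tgt {D l : ℕ} (e : Link D l) : Fin D → ZMod l := e.1 + unitv e.2

/-- straight path -/
def sp {D l : ℕ} (i : Fin D) (x : Fin D → ZMod l) (k : ℕ) : List (Link D l × Bool) :=
  (List.range k).map fun j => ((x + j • unitv i, i), true)

variable {D l : ℕ}

lemma sp_succ (i : Fin D) (x : Fin D → ZMod l) (k : ℕ) :
    sp i x (k + 1) = sp i x k ++ [((x + k • unitv i, i), true)] := by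
  unfold sp
  rw [List.range_succ, List.map_append]
  rfl

lemma sp_length (i : Fin D) (x : Fin D → ZMod l) (k : ℕ) : (sp i x k).length = k := by
  unfold sp
  rw [List.length_map, List.length_range]

lemma isPath_sp (i : Fin D) (x : Fin D → ZMod l) (k : ℕ) :
    isPath src tgt x (sp i x k) (x + k • unitv i) := by
  induction k with
  | zero =>
    show x = x + 0 • unitv i
    rw [zero_smul, add_zero]
  | succ k ih =>
    rw [sp_succ]
    refine isPath_append ih ⟨rfl, ?_⟩
    show x + k • unitv i + unitv i = x + (k + 1) • unitv i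
    rw [succ_nsmul, add_assoc]

lemma nsmul_unitv_same (i : Fin D) (k : ℕ) : (k • unitv i : Fin D → ZMod l) i = k := by
  rw [Pi.smul_apply]
  unfold unitv
  rw [Pi.single_eq_same, nsmul_eq_mul, mul_one]

lemma nsmul_unitv_ne {i j : Fin D} (h : j ≠ i) (k : ℕ) : (k • unitv i : Fin D → ZMod l) j = 0 := by
  rw [Pi.smul_apply]
  unfold unitv
  rw [Pi.single_eq_of_ne h, smul_zero]

lemma cast_inj {a b : ℕ} (ha : a < l) (hb : b < l) (h : (a : ZMod l) = b) : a = b := by
  rw [ZMod.natCast_eq_natCast_iff'] at h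
  rwa [Nat.mod_eq_of_lt ha, Nat.mod_eq_of_lt hb] at h

lemma cnt_le_one {E : Type} [DecidableEq E] {p : List (E × Bool)} (h : (p.map Prod.fst).Nodup)
    (e : E) : cnt e p ≤ 1 := List.nodup_iff_count_le_one.1 h e

lemma cnt_sp (i : Fin D) (x : Fin D → ZMod l) {k : ℕ} (hk : k ≤ l) (e : Link D l) :
    cnt e (sp i x k) ≤ 1 := by
  refine cnt_le_one ?_ e
  unfold sp
  rw [List.map_map]
  refine List.Nodup.map_on ?_ List.nodup_range
  intro a ha b hb hab
  have ha' := List.mem_range.1 ha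
  have hb' := List.mem_range.1 hb
  have h1 : x + a • unitv i = x + b • unitv i := (Prod.ext_iff.1 hab).1
  have h2 := congrFun (add_left_cancel h1) i
  rw [nsmul_unitv_same, nsmul_unitv_same] at h2
  exact cast_inj (by omega) (by omega) h2

section lasso

variable (i0 i1 : Fin D) (x : Fin D → ZMod l)

/-- first leg -/
def legA (w : ℕ × ℕ) : List (Link D l × Bool) :=
  sp i1 x w.2 ++ sp i0 (x + w.2 • unitv i1) (w.1 + 1)

/-- the special link -/
def spl (w : ℕ × ℕ) : Link D l := (x + w.2 • unitv i1 + (w.1 + 1) • unitv i0, i1)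

/-- the loop -/
def lasso (w : ℕ × ℕ) : List (Link D l × Bool) :=
  legA i0 i1 x w ++ (spl i0 i1 x w, true) :: rev (legA i0 i1 x (w.1, w.2 + 1))

lemma isPath_legA (w : ℕ × ℕ) :
    isPath src tgt x (legA i0 i1 x w) (x + w.2 • unitv i1 + (w.1 + 1) • unitv i0) :=
  isPath_append (isPath_sp i1 x w.2) (isPath_sp i0 _ (w.1 + 1))

lemma isPath_lasso (w : ℕ × ℕ) : isPath src tgt x (lasso i0 i1 x w) x := by
  refine isPath_append (isPath_legA i0 i1 x w) ⟨rfl, ?_⟩
  have h1 : tgt (spl i0 i1 x w) = x + (w.1, w.2 + 1).2 • unitv i1 +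
      ((w.1, w.2 + 1).1 + 1) • unitv i0 := by
    show x + w.2 • unitv i1 + (w.1 + 1) • unitv i0 + unitv i1 =
      x + (w.2 + 1) • unitv i1 + (w.1 + 1) • unitv i0
    rw [succ_nsmul (unitv i1) w.2]
    abel
  rw [h1]
  exact isPath_rev (isPath_legA i0 i1 x (w.1, w.2 + 1))

lemma hol_lasso {N : ℕ} {G : Subgroup (UU N)} (w : ℕ × ℕ) (U : Link D l → G) :
    hol (lasso i0 i1 x w) U = hol (legA i0 i1 x w) U * U (spl i0 i1 x w) *
      (hol (legA i0 i1 x (w.1, w.2 + 1)) U)⁻¹ := by
  unfold lasso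
  rw [hol_append, mul_assoc, ← hol_rev]
  rfl

variable {i0 i1}

/-- the special links do not belong to the legs -/
lemma spl_notMem (h01 : i0 ≠ i1) {w w' : ℕ × ℕ} (hw : w.1 + 1 < l) :
    ∀ p ∈ legA i0 i1 x w', p.1 ≠ spl i0 i1 x w := by
  intro p hp he
  unfold legA at hp
  rcases List.mem_append.1 hp with h | h
  · unfold sp at h
    obtain ⟨j, -, hj⟩ := List.mem_map.1 h
    rw [← hj] at he
    have h1 : x + j • unitv i1 = x + w.2 • unitv i1 + (w.1 + 1) • unitv i0 :=
      (Prod.ext_iff.1 he).1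
    have h2 := congrFun h1 i0
    simp only [Pi.add_apply] at h2
    rw [nsmul_unitv_ne h01, nsmul_unitv_ne h01, nsmul_unitv_same, add_zero] at h2
    have h3 : ((w.1 + 1 : ℕ) : ZMod l) = ((0 : ℕ) : ZMod l) := by
      rw [Nat.cast_zero]
      exact left_eq_add.1 h2
    have := cast_inj hw (by omega) h3
    omega
  · unfold sp at h
    obtain ⟨j, -, hj⟩ := List.mem_map.1 h
    rw [← hj] at he
    exact h01 (Prod.ext_iff.1 he).2

lemma spl_inj (h01 : i0 ≠ i1) {w w' : ℕ × ℕ} (hw : w.1 + 1 < l) (hw' : w'.1 + 1 < l)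
    (hw2 : w.2 < l) (hw2' : w'.2 < l) (h : spl i0 i1 x w = spl i0 i1 x w') : w = w' := by
  have h1 : x + w.2 • unitv i1 + (w.1 + 1) • unitv i0 =
    x + w'.2 • unitv i1 + (w'.1 + 1) • unitv i0 := (Prod.ext_iff.1 h).1
  have h2 := congrFun h1 i0
  have h3 := congrFun h1 i1
  simp only [Pi.add_apply] at h2 h3
  rw [nsmul_unitv_ne h01, nsmul_unitv_ne h01, nsmul_unitv_same, nsmul_unitv_same] at h2
  rw [nsmul_unitv_ne h01.symm, nsmul_unitv_ne h01.symm, nsmul_unitv_same, nsmul_unitv_same,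
    add_zero, add_zero] at h3
  have h4 := cast_inj hw hw' (add_left_cancel h2)
  have h5 := cast_inj hw2 hw2' (add_left_cancel h3)
  exact Prod.ext (by omega) h5

lemma cnt_lasso {w : ℕ × ℕ} (hw : w.1 + 1 ≤ l) (hw2 : w.2 + 1 ≤ l) (e : Link D l) :
    cnt e (lasso i0 i1 x w) ≤ 5 := by
  unfold lasso
  rw [cnt_append, cnt_cons, cnt_rev]
  have hleg : ∀ w' : ℕ × ℕ, w'.1 + 1 ≤ l → w'.2 ≤ l → cnt e (legA i0 i1 x w') ≤ 2 := by
    intro w' h1 h2
    unfold legA
    rw [cnt_append]
    have a1 := cnt_sp i1 x h2 e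
    have a2 := cnt_sp i0 (x + w'.2 • unitv i1) h1 e
    omega
  have h1 := hleg w hw (by omega)
  have h2 := hleg (w.1, w.2 + 1) hw hw2
  split_ifs <;> omega

lemma length_lasso (w : ℕ × ℕ) :
    (lasso i0 i1 x w).length = 2 * w.1 + 2 * w.2 + 4 := by
  unfold lasso legA rev
  simp only [List.length_append, List.length_cons, List.length_reverse, List.length_map,
    sp_length]
  ring

variable (i0 i1)

/-- the box -/
def box (k : ℕ) : Finset (Link D l) :=
  Finset.image (fun q : (Fin (k + 1) × Fin (k + 1)) × Bool =>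
    ((x + (q.1.2 : ℕ) • unitv i1 + (q.1.1 : ℕ) • unitv i0, if q.2 then i1 else i0) :
      Link D l)) Finset.univ

lemma card_box (k : ℕ) : (box i0 i1 x k).card ≤ 2 * (k + 1) ^ 2 := by
  unfold box
  refine Finset.card_image_le.trans ?_
  rw [Finset.card_univ, Fintype.card_prod, Fintype.card_prod, Fintype.card_fin, Fintype.card_bool]
  exact le_of_eq (by ring)

lemma mem_box {k a b : ℕ} (ha : a ≤ k) (hb : b ≤ k) (c : Bool) :
    ((x + b • unitv i1 + a • unitv i0, if c then i1 else i0) : Link D l) ∈ box i0 i1 x k := by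
  unfold box
  refine Finset.mem_image.2 ⟨((⟨a, by omega⟩, ⟨b, by omega⟩), c), Finset.mem_univ _, rfl⟩

lemma legA_mem_box {k : ℕ} {w : ℕ × ℕ} (ha : w.1 ≤ k) (hb : w.2 ≤ k) :
    ∀ p ∈ legA i0 i1 x w, p.1 ∈ box i0 i1 x k := by
  intro p hp
  unfold legA at hp
  rcases List.mem_append.1 hp with h | h
  · unfold sp at h
    obtain ⟨j, hj', hj⟩ := List.mem_map.1 h
    have hj2 := List.mem_range.1 hj'
    rw [← hj]
    have := mem_box i0 i1 x (k := k) (a := 0) (b := j) (Nat.zero_le _) (by omega) true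
    rwa [zero_smul, add_zero, if_pos rfl] at this
  · unfold sp at h
    obtain ⟨j, hj', hj⟩ := List.mem_map.1 h
    have hj2 := List.mem_range.1 hj'
    rw [← hj]
    exact mem_box i0 i1 x (k := k) (a := j) (b := w.2) (by omega) hb false

lemma spl_mem_box {k : ℕ} {w : ℕ × ℕ} (ha : w.1 + 1 ≤ k) (hb : w.2 ≤ k) :
    spl i0 i1 x w ∈ box i0 i1 x k := mem_box i0 i1 x ha hb true

lemma lasso_mem_box {k : ℕ} {w : ℕ × ℕ} (ha : w.1 + 1 ≤ k) (hb : w.2 + 1 ≤ k) :
    ∀ p ∈ lasso i0 i1 x w, p.1 ∈ box i0 i1 x k := by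
  intro p hp
  unfold lasso at hp
  rcases List.mem_append.1 hp with h | h
  · exact legA_mem_box i0 i1 x (by omega) (by omega) p h
  · rcases List.mem_cons.1 h with h | h
    · rw [h]; exact spl_mem_box i0 i1 x ha (by omega)
    · unfold rev at h
      rw [List.mem_reverse] at h
      obtain ⟨q, hq, hqp⟩ := List.mem_map.1 h
      rw [← hqp]
      exact legA_mem_box i0 i1 x (w := (w.1, w.2 + 1)) (by simp; omega) (by simpa using hb) q hq

end lasso

end

end Pool.Agent.H189.KS
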