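import Mathlib
import Pool.Agent.H189.KS.Lasso

/-!
# The magnetic energy of the periodic lattice
-/

open MeasureTheory Matrix
open scoped ContDiff Matrix.Norms.Frobenius

namespace Pool.Agent.H189.KS

set_option linter.unusedSectionVars false

noncomputable section

variable {N D l : ℕ} {G : Subgroup (UU N)}

/-- The product of the link variables around the plaquette at `x` in the directions `i`, `j`. -/
def plaq (U : Link D l → G) (x : Fin D → ZMod l) (i j : Fin D) : G :=
  U (x, i) * U (x + unitv i, j) * (U (x + unitv j, i))⁻¹ * (U (x, j))⁻¹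

/-- The magnetic energy `∑_p Re tr (1 - U_p)`, the sum over the plaquettes. -/
def magnetic [NeZero l] (U : Link D l → G) : ℝ :=
  ∑ x : Fin D → ZMod l, ∑ i : Fin D, ∑ j : Fin D,
    if i < j then (trace (1 - mt (plaq U x i j))).re else 0

lemma plaq_cont (x : Fin D → ZMod l) (i j : Fin D) :
    Continuous fun U : Link D l → G => plaq U x i j := by
  have h : ∀ e : Link D l, Continuous fun U : Link D l → G => U e := fun e => continuous_apply e
  have h1 := ((h (x, i)).mul (h (x + unitv i, j))).mul (h (x + unitv j, i)).inv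
  exact h1.mul (h (x, j)).inv

lemma tr_cont : Continuous fun g : G => (trace (1 - mt g)).re :=
  Complex.continuous_re.comp ((continuous_const.sub mt_cont).matrix_trace)

lemma magnetic_cont [NeZero l] : Continuous (magnetic : (Link D l → G) → ℝ) := by
  unfold magnetic
  refine continuous_finsetSum _ fun x _ => continuous_finsetSum _ fun i _ =>
    continuous_finsetSum _ fun j _ => ?_
  split_ifs
  · exact tr_cont.comp (plaq_cont x i j)
  · exact continuous_const

lemma plaq_gt (γ : (Fin D → ZMod l) → G) (U : Link D l → G) (x : Fin D → ZMod l)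
    (i j : Fin D) : plaq (gt src tgt γ U) x i j = γ x * plaq U x i j * (γ x)⁻¹ := by
  unfold plaq gt src tgt
  dsimp only
  rw [add_right_comm x (unitv j) (unitv i)]
  group

lemma trace_conj (g h : G) : trace (1 - mt (g * h * g⁻¹)) = trace (1 - mt h) := by
  have hU : (mt g)ᴴ * mt g = 1 := (Matrix.mem_unitaryGroup_iff').1 (g : UU N).2
  rw [trace_sub, trace_sub, mt_mul, mt_mul, mt_inv, trace_mul_comm, ← Matrix.mul_assoc, hU,
    Matrix.one_mul]

lemma magnetic_gt [NeZero l] (γ : (Fin D → ZMod l) → G) (U : Link D l → G) :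
    magnetic (gt src tgt γ U) = magnetic U := by
  unfold magnetic
  refine Finset.sum_congr rfl fun x _ => Finset.sum_congr rfl fun i _ =>
    Finset.sum_congr rfl fun j _ => ?_
  rw [plaq_gt, trace_conj]

lemma abs_trace_le (g h : G) :
    |(trace (1 - mt g)).re - (trace (1 - mt h)).re| ≤ (2 * N : ℝ) := by
  have h1 : ∀ k : G, |(trace (mt k)).re| ≤ N := by
    intro k
    rw [Matrix.trace, Complex.re_sum]
    refine (Finset.abs_sum_le_sum_abs _ _).trans ?_
    have h2 : ∀ i : Fin N, |(diag (mt k) i).re| ≤ 1 := by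
      intro i
      refine (Complex.abs_re_le_norm _).trans ?_
      exact entry_norm_bound_of_unitary (k : UU N).2 i i
    calc ∑ i, |(diag (mt k) i).re| ≤ ∑ _i : Fin N, (1 : ℝ) := Finset.sum_le_sum fun i _ => h2 i
      _ = N := by simp
  have h3 : (trace (1 - mt g)).re - (trace (1 - mt h)).re =
      (trace (mt h)).re - (trace (mt g)).re := by
    rw [trace_sub, trace_sub, Complex.sub_re, Complex.sub_re]; ring
  rw [h3]
  refine (abs_sub _ _).trans ?_
  have := h1 g
  have := h1 h
  linarith

/-- change of the magnetic energy when the links of `S` are changed -/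
lemma magnetic_var [NeZero l] (S : Finset (Link D l)) (U U' : Link D l → G)
    (h : ∀ e, e ∉ S → U e = U' e) :
    |magnetic U - magnetic U'| ≤ 8 * N * D * S.card := by
  classical
  obtain ⟨χ, hχ⟩ : ∃ χ : Link D l → ℝ, χ = fun e => if e ∈ S then 1 else 0 := ⟨_, rfl⟩
  have hχ0 : ∀ e, 0 ≤ χ e := fun e => by rw [hχ]; dsimp only; split_ifs <;> norm_num
  have hterm : ∀ (x : Fin D → ZMod l) (i j : Fin D),
      |(if i < j then (trace (1 - mt (plaq U x i j))).re else 0) -
        (if i < j then (trace (1 - mt (plaq U' x i j))).re else 0)| ≤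
      2 * N * (χ (x, i) + χ (x + unitv i, j) + χ (x + unitv j, i) + χ (x, j)) := by
    intro x i j
    have hN : (0 : ℝ) ≤ N := Nat.cast_nonneg N
    have hs : 0 ≤ χ (x, i) + χ (x + unitv i, j) + χ (x + unitv j, i) + χ (x, j) := by
      have := hχ0 (x, i)
      have := hχ0 (x + unitv i, j)
      have := hχ0 (x + unitv j, i)
      have := hχ0 (x, j)
      linarith
    by_cases hij : i < j
    · rw [if_pos hij, if_pos hij]
      by_cases hall : (x, i) ∉ S ∧ (x + unitv i, j) ∉ S ∧ (x + unitv j, i) ∉ S ∧ (x, j) ∉ S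
      · have e1 : plaq U x i j = plaq U' x i j := by
          unfold plaq
          rw [h _ hall.1, h _ hall.2.1, h _ hall.2.2.1, h _ hall.2.2.2]
        rw [e1, sub_self, abs_zero]
        positivity
      · have h1 : 1 ≤ χ (x, i) + χ (x + unitv i, j) + χ (x + unitv j, i) + χ (x, j) := by
          have a1 := hχ0 (x, i)
          have a2 := hχ0 (x + unitv i, j)
          have a3 := hχ0 (x + unitv j, i)
          have a4 := hχ0 (x, j)
          have hm : ∀ e, e ∈ S → χ e = 1 := fun e he => by rw [hχ]; exact if_pos he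
          by_contra hc
          apply hall
          refine ⟨fun he => ?_, fun he => ?_, fun he => ?_, fun he => ?_⟩ <;>
          · have := hm _ he
            linarith
        refine (abs_trace_le _ _).trans ?_
        nlinarith
    · rw [if_neg hij, if_neg hij, sub_self, abs_zero]
      positivity
  have hsum : |magnetic U - magnetic U'| ≤ ∑ x : Fin D → ZMod l, ∑ i : Fin D, ∑ j : Fin D,
      2 * N * (χ (x, i) + χ (x + unitv i, j) + χ (x + unitv j, i) + χ (x, j)) := by
    unfold magnetic
    rw [← Finset.sum_sub_distrib]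
    refine (Finset.abs_sum_le_sum_abs _ _).trans (Finset.sum_le_sum fun x _ => ?_)
    rw [← Finset.sum_sub_distrib]
    refine (Finset.abs_sum_le_sum_abs _ _).trans (Finset.sum_le_sum fun i _ => ?_)
    rw [← Finset.sum_sub_distrib]
    exact (Finset.abs_sum_le_sum_abs _ _).trans (Finset.sum_le_sum fun j _ => hterm x i j)
  refine hsum.trans (le_of_eq ?_)
  obtain ⟨T, hT⟩ : ∃ T : ℝ, T = ∑ e, χ e := ⟨_, rfl⟩
  have hTc : T = S.card := by
    rw [hT, hχ]
    simp
  have hT' : T = ∑ x : Fin D → ZMod l, ∑ i : Fin D, χ (x, i) := by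
    rw [hT, Fintype.sum_prod_type]
  have hTs : T = ∑ i : Fin D, ∑ x : Fin D → ZMod l, χ (x, i) := by
    rw [hT', Finset.sum_comm]
  have sh' : ∀ (v : Fin D → ZMod l) (j : Fin D),
      ∑ x : Fin D → ZMod l, χ (x + v, j) = ∑ x : Fin D → ZMod l, χ (x, j) :=
    fun v j => Fintype.sum_equiv (Equiv.addRight v) _ _ fun x => rfl
  have c1 : ∑ x : Fin D → ZMod l, ∑ i : Fin D, ∑ _j : Fin D, χ (x, i) = D * T := by
    simp only [Finset.sum_const, Finset.card_univ, Fintype.card_fin, nsmul_eq_mul]
    rw [hT', Finset.mul_sum]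
    exact Finset.sum_congr rfl fun x _ => by rw [Finset.mul_sum]
  have c4 : ∑ x : Fin D → ZMod l, ∑ _i : Fin D, ∑ j : Fin D, χ (x, j) = D * T := by
    simp only [Finset.sum_const, Finset.card_univ, Fintype.card_fin, nsmul_eq_mul]
    rw [hT', Finset.mul_sum]
  have c2 : ∑ x : Fin D → ZMod l, ∑ i : Fin D, ∑ j : Fin D, χ (x + unitv i, j) = D * T := by
    rw [Finset.sum_comm]
    have : ∀ i : Fin D, ∑ x : Fin D → ZMod l, ∑ j : Fin D, χ (x + unitv i, j) = T := by
      intro i
      rw [Finset.sum_comm, hTs]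
      exact Finset.sum_congr rfl fun j _ => sh' _ _
    rw [Finset.sum_congr rfl fun i _ => this i]
    simp
  have c3 : ∑ x : Fin D → ZMod l, ∑ i : Fin D, ∑ j : Fin D, χ (x + unitv j, i) = D * T := by
    have h5 : ∀ x : Fin D → ZMod l, ∑ i : Fin D, ∑ j : Fin D, χ (x + unitv j, i) =
        ∑ j : Fin D, ∑ i : Fin D, χ (x + unitv j, i) := fun x => Finset.sum_comm
    rw [Finset.sum_congr rfl fun x _ => h5 x]
    exact c2
  simp only [← Finset.mul_sum, Finset.sum_add_distrib]
  rw [c1, c2, c3, c4, hTc]
  ring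

end

end Pool.Agent.H189.KS
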