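import Mathlib
import Pool.Agent.H189.KS.Base

/-!
# Matrix valued wave functions as vectors
-/

open MeasureTheory Matrix
open scoped ContDiff Matrix.Norms.Frobenius

namespace Pool.Agent.H189.KS

set_option linter.unusedSectionVars false

noncomputable section

/-- the space of complex matrices as a real Euclidean space -/
abbrev HV (M M' : ℕ) := PiLp 2 (fun _ : Fin M × Fin M' => ℂ)

/-- the matrix of a vector -/
def toM {M M' : ℕ} (v : HV M M') : Matrix (Fin M) (Fin M') ℂ := fun i j => v (i, j)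

/-- the vector of a matrix -/
def ofM {M M' : ℕ} (A : Matrix (Fin M) (Fin M') ℂ) : HV M M' := WithLp.toLp 2 fun q => A q.1 q.2

variable {M M' M'' : ℕ}

lemma toM_ofM (A : Matrix (Fin M) (Fin M') ℂ) : toM (ofM A) = A := rfl

lemma ofM_toM (v : HV M M') : ofM (toM v) = v := rfl

lemma toM_add (v w : HV M M') : toM (v + w) = toM v + toM w := rfl

lemma toM_smul (c : ℝ) (v : HV M M') : toM (c • v) = c • toM v := rfl

lemma ofM_add (A B : Matrix (Fin M) (Fin M') ℂ) : ofM (A + B) = ofM A + ofM B := rfl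

lemma ofM_smul (c : ℝ) (A : Matrix (Fin M) (Fin M') ℂ) : ofM (c • A) = c • ofM A := rfl

lemma toM_inj {v w : HV M M'} (h : toM v = toM w) : v = w := by
  rw [← ofM_toM v, h, ofM_toM]

lemma normsq (v : HV M M') : ‖v‖ ^ 2 = ∑ i, ∑ j, ‖toM v i j‖ ^ 2 := by
  rw [PiLp.norm_sq_eq_of_L2, Fintype.sum_prod_type]
  rfl

lemma normsq' (v : HV M M') : ‖v‖ ^ 2 = ∑ q, ‖v q‖ ^ 2 := PiLp.norm_sq_eq_of_L2 _ v

lemma inner_eq (v w : HV M M') :
    inner ℝ v w = ((toM v)ᴴ * toM w).trace.re := by
  rw [PiLp.inner_apply, Fintype.sum_prod_type, Matrix.trace, Complex.re_sum, Finset.sum_comm]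
  refine Finset.sum_congr rfl fun j _ => ?_
  rw [Matrix.diag_apply, Matrix.mul_apply, Complex.re_sum]
  refine Finset.sum_congr rfl fun i _ => ?_
  rw [Complex.inner, Matrix.conjTranspose_apply, mul_comm]
  rfl

/-- left multiplication by a matrix, as a linear map -/
def lm1 (M' : ℕ) (A : Matrix (Fin M'') (Fin M) ℂ) : HV M M' →ₗ[ℝ] HV M'' M' where
  toFun v := ofM (A * toM v)
  map_add' v w := by rw [toM_add, Matrix.mul_add, ofM_add]
  map_smul' c v := by rw [toM_smul, Matrix.mul_smul, ofM_smul, RingHom.id_apply]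

/-- left multiplication, as a linear map in the matrix -/
def lm2 (M' : ℕ) : Matrix (Fin M'') (Fin M) ℂ →ₗ[ℝ] (HV M M' →L[ℝ] HV M'' M') where
  toFun A := LinearMap.toContinuousLinearMap (lm1 M' A)
  map_add' A B := by
    ext1 v
    show ofM ((A + B) * toM v) = ofM (A * toM v) + ofM (B * toM v)
    rw [Matrix.add_mul, ofM_add]
  map_smul' c A := by
    ext1 v
    show ofM ((c • A) * toM v) = c • ofM (A * toM v)
    rw [Matrix.smul_mul, ofM_smul]

/-- left multiplication -/
def lm (M' : ℕ) : Matrix (Fin M'') (Fin M) ℂ →L[ℝ] (HV M M' →L[ℝ] HV M'' M') :=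
  LinearMap.toContinuousLinearMap (lm2 M')

lemma lm_apply (A : Matrix (Fin M'') (Fin M) ℂ) (v : HV M M') :
    lm M' A v = ofM (A * toM v) := rfl

lemma toM_lm (A : Matrix (Fin M'') (Fin M) ℂ) (v : HV M M') :
    toM (lm M' A v) = A * toM v := rfl

lemma lm_adj (A : Matrix (Fin M'') (Fin M) ℂ) (v : HV M M') (w : HV M'' M') :
    inner ℝ (lm M' A v) w = inner ℝ v (lm M' Aᴴ w) := by
  rw [inner_eq, inner_eq, toM_lm, toM_lm, conjTranspose_mul, Matrix.mul_assoc]

/-- conjugate transpose as a linear map -/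
def ctL : Matrix (Fin M'') (Fin M) ℂ →L[ℝ] Matrix (Fin M) (Fin M'') ℂ :=
  LinearMap.toContinuousLinearMap
    { toFun := fun A => Aᴴ
      map_add' := fun A B => conjTranspose_add A B
      map_smul' := fun c A => by rw [conjTranspose_smul]; simp }

lemma ctL_apply (A : Matrix (Fin M'') (Fin M) ℂ) : ctL A = Aᴴ := rfl

/-- a column of the vector -/
lemma normsq_lm (A : Matrix (Fin M'') (Fin M) ℂ) (v : HV M M') :
    ‖lm M' A v‖ ^ 2 = ∑ j, ∑ i, ‖(A *ᵥ fun k => toM v k j) i‖ ^ 2 := by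
  rw [normsq, Finset.sum_comm]
  rfl

lemma normsq_col (v : HV M M') : ‖v‖ ^ 2 = ∑ j, ∑ i, ‖(fun k => toM v k j) i‖ ^ 2 := by
  rw [normsq, Finset.sum_comm]

section smooth

variable {N n : ℕ} {G : Subgroup (UU N)} {E : Type} [Fintype E] [DecidableEq E]

/-- an entry, as a linear map -/
def entL (q : Fin M × Fin M') : HV M M' →L[ℝ] ℂ := PiLp.proj 2 (fun _ : Fin M × Fin M' => ℂ) q

lemma entL_apply (q : Fin M × Fin M') (v : HV M M') : entL q v = v q := rfl

lemma IsSm.entry {F : (E → G) → HV M M'} (hF : IsSm F) (q : Fin M × Fin M') :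
    IsSm fun U => F U q := hF.comp (entL q).contDiff

lemma isSm_of_entry {F : (E → G) → HV M M'} (hF : ∀ q, IsSm fun U => F U q) : IsSm F := by
  have h1 : IsSm fun U => (WithLp.ofLp (F U) : Fin M × Fin M' → ℂ) := IsSm.pi hF
  exact h1.comp ((PiLp.continuousLinearEquiv 2 ℝ
    (fun _ : Fin M × Fin M' => ℂ)).symm.contDiff)

lemma dd_entry (B : LieBasis G n) (e : E) (a : Fin n) {F : (E → G) → HV M M'} (hF : IsSm F)
    (q : Fin M × Fin M') (U : E → G) : dd B e a (fun U => F U q) U = (dd B e a F U) q :=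
  dd_clm B e a (entL q) hF U

variable [CompactSpace G] [SecondCountableTopology G] [MeasurableSpace G] [BorelSpace G]
  (μ : Measure G) [IsProbabilityMeasure μ]

lemma integ {H : (E → G) → ℝ} (hH : Continuous H) : Integrable H (Measure.pi fun _ : E => μ) :=
  hH.integrable_of_hasCompactSupport (HasCompactSupport.of_compactSpace _)

lemma int_sum {ι : Type} [Fintype ι] {f : ι → (E → G) → ℝ} (hf : ∀ i, Continuous (f i)) :
    ∫ U, ∑ i, f i U ∂(Measure.pi fun _ : E => μ) =
      ∑ i, ∫ U, f i U ∂(Measure.pi fun _ : E => μ) :=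
  integral_finsetSum _ fun i _ => integ μ (hf i)

lemma nsq_entry {F : (E → G) → HV M M'} (hF : IsSm F) :
    nsq μ F = ∑ q, nsq μ fun U => F U q := by
  unfold nsq
  rw [← int_sum μ (f := fun q U => ‖F U q‖ ^ 2) fun q => ((hF.entry q).cont.norm).pow 2]
  refine integral_congr_ae (Filter.Eventually.of_forall fun U => ?_)
  exact normsq' _

lemma kin_entry (B : LieBasis G n) (e : E) {F : (E → G) → HV M M'} (hF : IsSm F) :
    kin μ B e F = ∑ q, kin μ B e fun U => F U q := by
  unfold kin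
  rw [Finset.sum_comm]
  refine Finset.sum_congr rfl fun a _ => ?_
  rw [← int_sum μ (f := fun q U => ‖dd B e a (fun U => F U q) U‖ ^ 2)
    fun q => (((hF.entry q).dd B e a).cont.norm).pow 2]
  refine integral_congr_ae (Filter.Eventually.of_forall fun U => ?_)
  dsimp only
  rw [normsq']
  exact Finset.sum_congr rfl fun q _ => by rw [dd_entry B e a hF]

lemma pot_entry {W : (E → G) → ℝ} (hW : Continuous W) {F : (E → G) → HV M M'} (hF : IsSm F) :
    pot μ W F = ∑ q, pot μ W fun U => F U q := by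
  unfold pot
  rw [← int_sum μ (f := fun q U => W U * ‖F U q‖ ^ 2)
    fun q => hW.mul (((hF.entry q).cont.norm).pow 2)]
  refine integral_congr_ae (Filter.Eventually.of_forall fun U => ?_)
  dsimp only
  rw [normsq', Finset.mul_sum]

lemma enr_entry (B : LieBasis G n) (g : ℝ) {W : (E → G) → ℝ} (hW : Continuous W)
    {F : (E → G) → HV M M'} (hF : IsSm F) :
    enr μ B g W F = ∑ q, enr μ B g W fun U => F U q := by
  unfold enr
  rw [Finset.sum_add_distrib, pot_entry μ hW hF, ← Finset.mul_sum, ← Finset.mul_sum,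
    Finset.sum_comm]
  congr 2
  exact Finset.sum_congr rfl fun e _ => kin_entry μ B e hF

end smooth

end

end Pool.Agent.H189.KS
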