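import Mathlib
import Pool.Agent.H189.KS.Stm
import Pool.Agent.H189.KS.Vec
import Pool.Agent.H189.KS.Tor

/-!
# Replacement of one source
-/

open MeasureTheory Matrix
open scoped ContDiff Matrix.Norms.Frobenius

namespace Pool.Agent.H189.KS

set_option linter.unusedSectionVars false

noncomputable section

variable {N n : ℕ} {G : Subgroup (UU N)} {E : Type} [Fintype E] [DecidableEq E]
  {V V' : Type} [NormedAddCommGroup V] [NormedSpace ℝ V] [NormedAddCommGroup V'] [NormedSpace ℝ V']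

lemma dd_comp (B : LieBasis G n) (e : E) (a : Fin n) {φ : V → V'} (hφ : ContDiff ℝ ∞ φ)
    {F : (E → G) → V} (hF : IsSm F) (U : E → G) :
    dd B e a (fun U => φ (F U)) U = fderiv ℝ φ (F U) (dd B e a F U) := by
  have h1 := hF.hasDerivAt B e a U 0
  have h2 : HasFDerivAt φ (fderiv ℝ φ (F (sh B e a 0 U))) (F (sh B e a 0 U)) :=
    (hφ.differentiable (by simp)).differentiableAt.hasFDerivAt
  have h3 := h2.comp_hasDerivAt (0 : ℝ) h1
  simp only [sh_zero] at h3
  exact h3.deriv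

lemma dd_pi (B : LieBasis G n) (e : E) (a : Fin n) {m : ℕ} {F : (E → G) → Fin m → Mt N}
    (hF : ∀ i, IsSm fun U => F U i) (U : E → G) (i : Fin m) :
    dd B e a F U i = dd B e a (fun U => F U i) U := by
  have h := dd_clm B e a (ContinuousLinearMap.proj (R := ℝ) (φ := fun _ : Fin m => Mt N) i)
    (IsSm.pi hF) U
  exact h.symm

/-- a continuous function on a compact space is bounded -/
lemma exists_bd {X Y : Type} [TopologicalSpace X] [CompactSpace X] [SeminormedAddCommGroup Y]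
    {f : X → Y} (hf : Continuous f) : ∃ C : ℝ, 0 ≤ C ∧ ∀ x, ‖f x‖ ≤ C := by
  obtain ⟨C, hC⟩ := (isCompact_univ.image hf.norm).bddAbove
  exact ⟨|C|, abs_nonneg _, fun x => (hC ⟨x, trivial, rfl⟩).trans (le_abs_self C)⟩

/-- finite pigeonhole -/
lemma pigeon {W : Type} [Finite W] {Q : W → ℝ → Prop}
    (hmono : ∀ w ε ε', ε ≤ ε' → Q w ε → Q w ε') (h : ∀ ε : ℝ, 0 < ε → ∃ w, Q w ε) :
    ∃ w, ∀ ε : ℝ, 0 < ε → Q w ε := by
  classical
  have := Fintype.ofFinite W
  by_contra hc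
  push Not at hc
  choose ε hε hQ using hc
  obtain ⟨w0, -⟩ := h 1 one_pos
  have hne : (Finset.univ : Finset W).Nonempty := ⟨w0, Finset.mem_univ _⟩
  obtain ⟨w1, -, hw1⟩ := Finset.exists_min_image Finset.univ ε hne
  obtain ⟨w2, hw2⟩ := h (ε w1) (hε w1)
  exact hQ w2 (hmono w2 _ _ (hw1 w2 (Finset.mem_univ _)) hw2)

/-- many good indices -/
lemma exists_good {ι : Type} [DecidableEq ι] (T : Finset ι) (f : ι → ℝ) (hf : ∀ i, 0 ≤ f i)
    {K : ℝ} (hK : 0 < K) (hsum : ∑ i ∈ T, f i ≤ K * T.card) {m : ℕ} (hm : 2 * m ≤ T.card) :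
    ∃ w : Fin m → ι, Function.Injective w ∧ (∀ i, w i ∈ T) ∧ ∀ i, f (w i) ≤ 2 * K := by
  classical
  obtain ⟨Gd, hGd⟩ : ∃ Gd, Gd = T.filter fun i => f i ≤ 2 * K := ⟨_, rfl⟩
  obtain ⟨Bd, hBd⟩ : ∃ Bd, Bd = T.filter fun i => ¬ f i ≤ 2 * K := ⟨_, rfl⟩
  have hcard : Gd.card + Bd.card = T.card := by
    rw [hGd, hBd]; exact Finset.card_filter_add_card_filter_not _
  have h1 : (Bd.card : ℝ) * (2 * K) ≤ K * T.card := by
    refine le_trans ?_ hsum
    calc (Bd.card : ℝ) * (2 * K) = ∑ _i ∈ Bd, 2 * K := by rw [Finset.sum_const, nsmul_eq_mul]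
      _ ≤ ∑ i ∈ Bd, f i := Finset.sum_le_sum fun i hi => by
          rw [hBd, Finset.mem_filter, not_le] at hi
          exact hi.2.le
      _ ≤ ∑ i ∈ T, f i := Finset.sum_le_sum_of_subset_of_nonneg
          (by rw [hBd]; exact Finset.filter_subset _ _) fun i _ _ => hf i
  have h2 : (2 * Bd.card : ℝ) ≤ T.card := by
    have h3 : K * (2 * Bd.card) ≤ K * T.card := by linarith
    exact le_of_mul_le_mul_left h3 hK
  have h3 : 2 * Bd.card ≤ T.card := by exact_mod_cast h2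
  have h4 : m ≤ Gd.card := by omega
  obtain ⟨S, hS, hSc⟩ := Finset.exists_subset_card_eq h4
  have e := (Finset.equivFinOfCardEq hSc).symm
  refine ⟨fun i => (e i : ι), fun i j hij => e.injective (Subtype.ext hij), fun i => ?_,
    fun i => ?_⟩
  · have := hS (e i).2
    rw [hGd, Finset.mem_filter] at this
    exact this.1
  · have := hS (e i).2
    rw [hGd, Finset.mem_filter] at this
    exact this.2

section form

variable {M M' M'' D l : ℕ}

/-- wave functions with a charge in the representation `κ` at `x` and in the conjugate of `κ'` at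
`y` -/
def PP (κ : G →* UU M) (κ' : G →* UU M') (x y : Fin D → ZMod l)
    (Ψ : (Link D l → G) → HV M M') : Prop :=
  ∀ γ U, toM (Ψ (gt src tgt γ U)) = (κ (γ x) : Mt M) * toM (Ψ U) * (κ' (γ y) : Mt M')ᴴ

variable {κ : G →* UU M} {κ' : G →* UU M'} {τ : G →* UU M''} {x y : Fin D → ZMod l}

lemma PP.add {Ψ Φ : (Link D l → G) → HV M M'} (h : PP κ κ' x y Ψ) (h' : PP κ κ' x y Φ) :
    PP κ κ' x y fun U => Ψ U + Φ U := by
  intro γ U
  rw [toM_add, toM_add, h, h', Matrix.mul_add, Matrix.add_mul]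

lemma PP.smul (c : ℝ) {Ψ : (Link D l → G) → HV M M'} (h : PP κ κ' x y Ψ) :
    PP κ κ' x y fun U => c • Ψ U := by
  intro γ U
  rw [toM_smul, toM_smul, h, Matrix.mul_smul, Matrix.smul_mul]

lemma unit_mul (g : UU M) : (g : Mt M)ᴴ * (g : Mt M) = 1 := (Matrix.mem_unitaryGroup_iff').1 g.2

lemma PP.lm {A : (Link D l → G) → Matrix (Fin M'') (Fin M) ℂ}
    (hA : ∀ γ U, A (gt src tgt γ U) = (τ (γ x) : Mt M'') * A U * (κ (γ x) : Mt M)ᴴ)
    {Ψ : (Link D l → G) → HV M M'} (h : PP κ κ' x y Ψ) :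
    PP τ κ' x y fun U => lm M' (A U) (Ψ U) := by
  intro γ U
  rw [toM_lm, toM_lm, h, hA]
  have h1 := unit_mul (κ (γ x))
  calc (τ (γ x) : Mt M'') * A U * (κ (γ x) : Mt M)ᴴ *
        ((κ (γ x) : Mt M) * toM (Ψ U) * (κ' (γ y) : Mt M')ᴴ)
      = (τ (γ x) : Mt M'') * A U * ((κ (γ x) : Mt M)ᴴ * (κ (γ x) : Mt M)) * toM (Ψ U) *
        (κ' (γ y) : Mt M')ᴴ := by simp only [Matrix.mul_assoc]
    _ = _ := by rw [h1, Matrix.mul_one]; simp only [Matrix.mul_assoc]

end form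

end

end Pool.Agent.H189.KS
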