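import Mathlib
import Pool.Agent.H189.KS.One

/-!
# Replacement of one source: the estimates
-/

open MeasureTheory Matrix
open scoped ContDiff Matrix.Norms.Frobenius

namespace Pool.Agent.H189.KS

set_option linter.unusedSectionVars false

noncomputable section

variable {N n D M M' M'' m : ℕ} {G : Subgroup (UU N)}

/-- the loop variables -/
def lv {l : ℕ} (i0 i1 : Fin D) (x : Fin D → ZMod l) (w : Fin m → ℕ × ℕ) (U : Link D l → G) :
    Fin m → G := fun i => hol (lasso i0 i1 x (w i)) U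

/-- the covariant matrix -/
def Am {l : ℕ} (i0 i1 : Fin D) (x : Fin D → ZMod l) (w : Fin m → ℕ × ℕ)
    (h : (Fin m → Mt N) → Matrix (Fin M'') (Fin M) ℂ) (U : Link D l → G) :
    Matrix (Fin M'') (Fin M) ℂ := h fun i => mt (lv i0 i1 x w U i)

/-- number of occurrences of a link in the loops -/
def cw {l : ℕ} (i0 i1 : Fin D) (x : Fin D → ZMod l) (w : Fin m → ℕ × ℕ) (e : Link D l) : ℝ :=
  ∑ i, (cnt e (lasso i0 i1 x (w i)) : ℝ)

variable {l : ℕ} {i0 i1 : Fin D} {x y : Fin D → ZMod l} {w : Fin m → ℕ × ℕ}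

lemma cw_nonneg (e : Link D l) : 0 ≤ cw i0 i1 x w e :=
  Finset.sum_nonneg fun _ _ => Nat.cast_nonneg _

variable [NeZero l]

lemma isSm_lv (i : Fin m) : IsSm fun U : Link D l → G => mt (lv i0 i1 x w U i) := isSm_hol _

lemma isSm_Am {h : (Fin m → Mt N) → Matrix (Fin M'') (Fin M) ℂ} (hh : ContDiff ℝ ∞ h) :
    IsSm fun U : Link D l → G => Am i0 i1 x w h U :=
  (IsSm.pi (F := fun (U : Link D l → G) (i : Fin m) => mt (lv i0 i1 x w U i)) isSm_lv).comp hh

lemma norm_dd_lv (B : LieBasis G n) (e : Link D l) (a : Fin n) (U : Link D l → G) :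
    ‖dd B e a (fun (U : Link D l → G) (i : Fin m) => mt (lv i0 i1 x w U i)) U‖ ≤
      cw i0 i1 x w e := by
  rw [pi_norm_le_iff_of_nonneg (cw_nonneg e)]
  intro i
  rw [dd_pi B e a isSm_lv U i]
  refine (norm_dd_hol B e a (lasso i0 i1 x (w i)) U).trans ?_
  exact Finset.single_le_sum (f := fun i => (cnt e (lasso i0 i1 x (w i)) : ℝ))
    (fun _ _ => Nat.cast_nonneg _) (Finset.mem_univ i)

lemma Am_cov {h : (Fin m → Mt N) → Matrix (Fin M'') (Fin M) ℂ} {κ : G →* UU M} {τ : G →* UU M''}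
    (hcov : ∀ (g : G) (p : Fin m → G), h (fun i => mt (g * p i * g⁻¹)) =
      (τ g : Mt M'') * h (fun i => mt (p i)) * (κ g : Mt M)ᴴ)
    (γ : (Fin D → ZMod l) → G) (U : Link D l → G) :
    Am i0 i1 x w h (gt src tgt γ U) =
      (τ (γ x) : Mt M'') * Am i0 i1 x w h U * (κ (γ x) : Mt M)ᴴ := by
  unfold Am
  rw [← hcov]
  congr 1
  funext i
  unfold lv
  rw [hol_gt (isPath_lasso i0 i1 x (w i))]

lemma lv_cont : Continuous fun U : Link D l → G => lv i0 i1 x w U := by
  refine continuous_pi fun i => ?_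
  have h : ∀ p : List (Link D l × Bool), Continuous fun U : Link D l → G => hol p U := by
    intro p
    induction p with
    | nil => exact continuous_const
    | cons q p ih =>
      obtain ⟨e, b⟩ := q
      have h1 : Continuous fun U : Link D l → G => U e := continuous_apply e
      cases b
      · exact h1.inv.mul ih
      · exact h1.mul ih
  exact h _

lemma hol_cont (p : List (Link D l × Bool)) : Continuous fun U : Link D l → G => hol p U := by
  induction p with
  | nil => exact continuous_const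
  | cons q p ih =>
    obtain ⟨e, b⟩ := q
    have h1 : Continuous fun U : Link D l → G => U e := continuous_apply e
    cases b
    · exact h1.inv.mul ih
    · exact h1.mul ih

/-- sums of the numbers of occurrences -/
lemma sum_cw_sq {k : ℕ} (hkl : k < l) (hw : ∀ i, (w i).1 < k ∧ (w i).2 < k) :
    ∑ e, cw i0 i1 x w e ^ 2 ≤ 20 * m ^ 2 * k := by
  have h1 : ∀ e, cw i0 i1 x w e ≤ 5 * m := by
    intro e
    unfold cw
    calc ∑ i, (cnt e (lasso i0 i1 x (w i)) : ℝ) ≤ ∑ _i : Fin m, (5 : ℝ) := by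
          refine Finset.sum_le_sum fun i _ => ?_
          have := cnt_lasso (i0 := i0) (i1 := i1) x (w := w i) (by have := (hw i).1; omega)
            (by have := (hw i).2; omega) e
          exact_mod_cast this
      _ = 5 * m := by simp; ring
  have h2 : ∑ e, cw i0 i1 x w e ≤ m * (4 * k) := by
    unfold cw
    rw [Finset.sum_comm]
    calc ∑ i : Fin m, ∑ e, (cnt e (lasso i0 i1 x (w i)) : ℝ) ≤ ∑ _i : Fin m, (4 * k : ℝ) := by
          refine Finset.sum_le_sum fun i _ => ?_
          have h3 := sum_cnt (lasso i0 i1 x (w i))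
          rw [length_lasso] at h3
          have h4 : ∑ e, (cnt e (lasso i0 i1 x (w i)) : ℝ) =
            ((2 * (w i).1 + 2 * (w i).2 + 4 : ℕ) : ℝ) := by rw [← h3]; push_cast; rfl
          rw [h4]
          have := hw i
          have h5 : 2 * (w i).1 + 2 * (w i).2 + 4 ≤ 4 * k := by omega
          exact_mod_cast h5
      _ = m * (4 * k) := by simp
  calc ∑ e, cw i0 i1 x w e ^ 2 ≤ ∑ e, 5 * m * cw i0 i1 x w e := by
        refine Finset.sum_le_sum fun e _ => ?_
        rw [pow_two]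
        exact mul_le_mul_of_nonneg_right (h1 e) (cw_nonneg e)
    _ = 5 * m * ∑ e, cw i0 i1 x w e := by rw [Finset.mul_sum]
    _ ≤ 5 * m * (m * (4 * k)) := mul_le_mul_of_nonneg_left h2 (by positivity)
    _ = 20 * m ^ 2 * k := by ring

lemma cw_zero {k : ℕ} (hw : ∀ i, (w i).1 < k ∧ (w i).2 < k) {e : Link D l}
    (he : e ∉ box i0 i1 x k) : cw i0 i1 x w e = 0 := by
  unfold cw
  refine Finset.sum_eq_zero fun i _ => ?_
  have h1 : cnt e (lasso i0 i1 x (w i)) = 0 := by
    refine cnt_zero fun p hp hpe => he ?_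
    rw [← hpe]
    have := hw i
    exact lasso_mem_box i0 i1 x (by omega) (by omega) p hp
  rw [h1, Nat.cast_zero]

section meas

variable [MeasurableSpace G] [BorelSpace G] (μ : Measure G) [IsProbabilityMeasure μ]
  [CompactSpace G] [SecondCountableTopology G]

lemma kin_nonneg {V : Type} [NormedAddCommGroup V] [NormedSpace ℝ V] {E : Type} [Fintype E]
    [DecidableEq E] (B : LieBasis G n) (e : E) (F : (E → G) → V) : 0 ≤ kin μ B e F := by
  unfold kin
  exact Finset.sum_nonneg fun a _ => integral_nonneg fun U => by positivity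

/-- the linear terms -/
lemma cross_bound {V : Type} [NormedAddCommGroup V] [NormedSpace ℝ V] (B : LieBasis G n) {k : ℕ}
    (hkl : k < l) (hw : ∀ i, (w i).1 < k ∧ (w i).2 < k) {s Kb : ℝ} (hs : 0 < s)
    (Ψ : (Link D l → G) → V) (hK : ∑ e ∈ box i0 i1 x k, kin μ B e Ψ ≤ Kb) :
    ∑ e, cw i0 i1 x w e * ∑ a, Real.sqrt (∫ U, ‖dd B e a Ψ U‖ ^ 2
      ∂(Measure.pi fun _ : Link D l => μ)) ≤
      (s * (n * (20 * m ^ 2 * k)) + Kb / s) / 2 := by
  have h1 : ∀ e, cw i0 i1 x w e * ∑ a, Real.sqrt (∫ U, ‖dd B e a Ψ U‖ ^ 2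
      ∂(Measure.pi fun _ : Link D l => μ)) ≤
      s * n * cw i0 i1 x w e ^ 2 / 2 +
        (if e ∈ box i0 i1 x k then kin μ B e Ψ else 0) / s / 2 := by
    intro e
    by_cases he : e ∈ box i0 i1 x k
    · rw [if_pos he, Finset.mul_sum]
      unfold kin
      have h2 : ∀ a, cw i0 i1 x w e * Real.sqrt (∫ U, ‖dd B e a Ψ U‖ ^ 2
          ∂(Measure.pi fun _ : Link D l => μ)) ≤ s * cw i0 i1 x w e ^ 2 / 2 +
          (∫ U, ‖dd B e a Ψ U‖ ^ 2 ∂(Measure.pi fun _ : Link D l => μ)) / s / 2 := by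
        intro a
        obtain ⟨X, hX⟩ : ∃ X, X = ∫ U, ‖dd B e a Ψ U‖ ^ 2
          ∂(Measure.pi fun _ : Link D l => μ) := ⟨_, rfl⟩
        rw [← hX]
        have hX0 : 0 ≤ X := by rw [hX]; exact integral_nonneg fun U => by positivity
        obtain ⟨r, hr⟩ : ∃ r, r = Real.sqrt X := ⟨_, rfl⟩
        have hr2 : X = r ^ 2 := by rw [hr, Real.sq_sqrt hX0]
        rw [← hr, hr2]
        have h3 : s * cw i0 i1 x w e ^ 2 / 2 + r ^ 2 / s / 2 - cw i0 i1 x w e * r =
          (s * cw i0 i1 x w e - r) ^ 2 / (2 * s) := by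
          field_simp
          ring
        have h4 : 0 ≤ (s * cw i0 i1 x w e - r) ^ 2 / (2 * s) := by positivity
        linarith
      refine (Finset.sum_le_sum fun a _ => h2 a).trans (le_of_eq ?_)
      rw [Finset.sum_add_distrib, Finset.sum_const, Finset.card_univ, Fintype.card_fin,
        nsmul_eq_mul, Finset.sum_div, Finset.sum_div]
      ring
    · rw [if_neg he, cw_zero hw he]
      simp
  refine (Finset.sum_le_sum fun e _ => h1 e).trans ?_
  rw [Finset.sum_add_distrib, ← Finset.sum_div, ← Finset.mul_sum, ← Finset.sum_div,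
    ← Finset.sum_div, Finset.sum_ite_mem, Finset.univ_inter]
  have h2 := sum_cw_sq (i0 := i0) (i1 := i1) (x := x) (w := w) hkl hw
  have h3 : s * n * ∑ e, cw i0 i1 x w e ^ 2 ≤ s * n * (20 * m ^ 2 * k) :=
    mul_le_mul_of_nonneg_left h2 (by positivity)
  have h4 : (∑ e ∈ box i0 i1 x k, kin μ B e Ψ) / s ≤ Kb / s :=
    div_le_div_of_nonneg_right hK hs.le
  linarith

end meas

end

end Pool.Agent.H189.KS
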