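import Mathlib
import Pool.Agent.H189.KS.One2

/-!
# Replacement of one source: the theorem
-/

open MeasureTheory Matrix
open scoped ContDiff Matrix.Norms.Frobenius

namespace Pool.Agent.H189.KS

set_option linter.unusedSectionVars false

noncomputable section

variable {N n D M M' M'' m : ℕ} {G : Subgroup (UU N)}

section low

variable {l : ℕ} [NeZero l] {i0 i1 : Fin D} {x y : Fin D → ZMod l} {w : Fin m → ℕ × ℕ}
  [MeasurableSpace G] [BorelSpace G] (μ : Measure G) [IsProbabilityMeasure μ]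
  [CompactSpace G] [SecondCountableTopology G]

/-- lower bound for the norms of the trial states -/
lemma low_bound {Kn : ℕ} {c : ℝ} (hc : 0 < c)
    {h : Fin Kn → (Fin m → Mt N) → Matrix (Fin M'') (Fin M) ℂ} (hsm : ∀ k, ContDiff ℝ ∞ (h k))
    {S : Set (Fin m → G)} (hSm : MeasurableSet S)
    (hS : ∀ p, p ∉ S → ∀ v : Fin M → ℂ,
        c * ∑ j, ‖v j‖ ^ 2 ≤ ∑ k, ∑ i, ‖(h k (fun i => mt (p i)) *ᵥ v) i‖ ^ 2)
    {Ψ : (Link D l → G) → HV M M'} (hΨ : IsSm Ψ) (hn : nsq μ Ψ = 1)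
    (hSΨ : ∑ q, ∫ U, S.indicator (fun _ => (1 : ℝ)) (lv i0 i1 x w U) * ‖Ψ U q‖ ^ 2
        ∂(Measure.pi fun _ : Link D l => μ) ≤ 1 / 2) :
    c / 2 ≤ ∑ k, nsq μ (fun U => lm M' (Am i0 i1 x w (h k) U) (Ψ U)) := by
  have hcont : ∀ k, Continuous fun U : Link D l → G => ‖lm M' (Am i0 i1 x w (h k) U) (Ψ U)‖ ^ 2 := by
    intro k
    have h1 : IsSm fun U : Link D l → G => lm M' (Am i0 i1 x w (h k) U) (Ψ U) :=
      ((isSm_Am (hsm k)).comp (lm M').contDiff).clm_apply hΨ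
    exact h1.cont.norm.pow 2
  have hind : ∀ f : (Link D l → G) → ℝ, Continuous f → Integrable (fun U =>
      S.indicator (fun _ => (1 : ℝ)) (lv i0 i1 x w U) * f U)
      (Measure.pi fun _ : Link D l => μ) := by
    intro f hf
    have hm : MeasurableSet ((fun U : Link D l → G => lv i0 i1 x w U) ⁻¹' S) :=
      (lv_cont (i0 := i0) (i1 := i1) (x := x) (w := w) (G := G)).measurable hSm
    have h1 := (integ μ hf).indicator hm
    refine (integrable_congr (Filter.Eventually.of_forall fun U => ?_)).1 h1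
    by_cases hU : lv i0 i1 x w U ∈ S
    · rw [Set.indicator_of_mem (s := (fun U : Link D l → G => lv i0 i1 x w U) ⁻¹' S) hU,
        Set.indicator_of_mem hU, one_mul]
    · rw [Set.indicator_of_notMem (s := (fun U : Link D l → G => lv i0 i1 x w U) ⁻¹' S) hU,
        Set.indicator_of_notMem hU, zero_mul]
  have hPsi : Continuous fun U => ‖Ψ U‖ ^ 2 := hΨ.cont.norm.pow 2
  have e1 : ∑ k, nsq μ (fun U => lm M' (Am i0 i1 x w (h k) U) (Ψ U)) =
      ∫ U, ∑ k, ‖lm M' (Am i0 i1 x w (h k) U) (Ψ U)‖ ^ 2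
        ∂(Measure.pi fun _ : Link D l => μ) := (int_sum μ hcont).symm
  have e2 : ∫ U, S.indicator (fun _ => (1 : ℝ)) (lv i0 i1 x w U) * ‖Ψ U‖ ^ 2
        ∂(Measure.pi fun _ : Link D l => μ) =
      ∑ q, ∫ U, S.indicator (fun _ => (1 : ℝ)) (lv i0 i1 x w U) * ‖Ψ U q‖ ^ 2
        ∂(Measure.pi fun _ : Link D l => μ) := by
    rw [← integral_finsetSum Finset.univ
      (f := fun q U => S.indicator (fun _ => (1 : ℝ)) (lv i0 i1 x w U) * ‖Ψ U q‖ ^ 2)
      fun q _ => hind _ (((hΨ.entry q).cont.norm).pow 2)]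
    refine integral_congr_ae (Filter.Eventually.of_forall fun U => ?_)
    dsimp only
    rw [normsq', Finset.mul_sum]
  have h3 : ∫ U, (c * ‖Ψ U‖ ^ 2 - c * (S.indicator (fun _ => (1 : ℝ)) (lv i0 i1 x w U) *
      ‖Ψ U‖ ^ 2)) ∂(Measure.pi fun _ : Link D l => μ) ≤
      ∫ U, ∑ k, ‖lm M' (Am i0 i1 x w (h k) U) (Ψ U)‖ ^ 2
        ∂(Measure.pi fun _ : Link D l => μ) := by
    refine integral_mono (((integ μ hPsi).const_mul c).sub ((hind _ hPsi).const_mul c))
      (integ μ (continuous_finsetSum _ fun k _ => hcont k)) fun U => ?_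
    dsimp only
    by_cases hU : lv i0 i1 x w U ∈ S
    · rw [Set.indicator_of_mem hU, one_mul, sub_self]
      exact Finset.sum_nonneg fun k _ => by positivity
    · rw [Set.indicator_of_notMem hU, zero_mul, mul_zero, sub_zero, normsq_col,
        Finset.mul_sum]
      have h4 : ∀ j : Fin M', c * ∑ i, ‖(fun k => toM (Ψ U) k j) i‖ ^ 2 ≤
          ∑ k, ∑ i, ‖(Am i0 i1 x w (h k) U *ᵥ fun k => toM (Ψ U) k j) i‖ ^ 2 := fun j =>
        hS _ hU fun k => toM (Ψ U) k j
      refine (Finset.sum_le_sum fun j _ => h4 j).trans (le_of_eq ?_)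
      rw [Finset.sum_comm]
      exact Finset.sum_congr rfl fun k _ => (normsq_lm _ _).symm
  rw [integral_sub ((integ μ hPsi).const_mul c) ((hind _ hPsi).const_mul c),
    integral_const_mul, integral_const_mul, e2] at h3
  rw [e1]
  have h5 : ∫ U, ‖Ψ U‖ ^ 2 ∂(Measure.pi fun _ : Link D l => μ) = 1 := hn
  rw [h5] at h3
  nlinarith

end low

end

end Pool.Agent.H189.KS
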