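import Mathlib
import Pool.Agent.H189.KS.One3
import Pool.Agent.H189.KS.E0al

/-!
# Replacement of one source: the theorem
-/

open MeasureTheory Matrix
open scoped ContDiff Matrix.Norms.Frobenius

namespace Pool.Agent.H189.KS

set_option linter.unusedSectionVars false

noncomputable section

/-- bounds of the covariant functions -/
lemma exists_H {N M M' M'' m Kn : ℕ} {G : Subgroup (UU N)} [CompactSpace G]
    {h : Fin Kn → (Fin m → Mt N) → Matrix (Fin M'') (Fin M) ℂ} (hsm : ∀ k, ContDiff ℝ ∞ (h k)) :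
    ∃ H : ℝ, 0 ≤ H ∧ (∀ k (p : Fin m → G), ‖lm M' (h k fun i => mt (p i))‖ ≤ H) ∧
      ∀ k (p : Fin m → G) (v : Fin m → Mt N),
        ‖lm M' (fderiv ℝ (h k) (fun i => mt (p i)) v)‖ ≤ H * ‖v‖ := by
  have hmc : Continuous fun (p : Fin m → G) (i : Fin m) => mt (p i) :=
    continuous_pi fun i => mt_cont.comp (continuous_apply i)
  have h1 : ∀ k, ∃ C : ℝ, 0 ≤ C ∧ ∀ p : Fin m → G, ‖lm M' (h k fun i => mt (p i))‖ ≤ C :=
    fun k => exists_bd ((lm M').continuous.comp ((hsm k).continuous.comp hmc))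
  have h2 : ∀ k, ∃ C : ℝ, 0 ≤ C ∧ ∀ (p : Fin m → G) (v : Fin m → Mt N),
      ‖lm M' (fderiv ℝ (h k) (fun i => mt (p i)) v)‖ ≤ C * ‖v‖ := by
    intro k
    have hc1 : Continuous fun q : (Fin m → Mt N) × (Fin m → Mt N) => fderiv ℝ (h k) q.1 q.2 :=
      (hsm k).continuous_fderiv_apply (by simp)
    have hc2 : Continuous fun q : (Fin m → G) × (Metric.closedBall (0 : Fin m → Mt N) 1) =>
        lm M' (fderiv ℝ (h k) (fun i => mt (q.1 i)) q.2) :=
      (lm M').continuous.comp (hc1.comp ((hmc.comp continuous_fst).prodMk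
        (continuous_subtype_val.comp continuous_snd)))
    have hcomp : CompactSpace (Metric.closedBall (0 : Fin m → Mt N) 1) :=
      isCompact_iff_compactSpace.1 (isCompact_closedBall _ _)
    obtain ⟨C, hC0, hC⟩ := exists_bd hc2
    refine ⟨C, hC0, fun p v => ?_⟩
    by_cases hv : v = 0
    · subst hv
      rw [map_zero, map_zero, norm_zero, norm_zero, mul_zero]
    · have hn : 0 < ‖v‖ := norm_pos_iff.2 hv
      have h3 := hC (p, ⟨‖v‖⁻¹ • v, by
        rw [mem_closedBall_zero_iff, norm_smul, norm_inv, norm_norm,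
          inv_mul_cancel₀ hn.ne']⟩)
      have h4 : lm M' (fderiv ℝ (h k) (fun i => mt (p i)) v) =
          ‖v‖ • lm M' (fderiv ℝ (h k) (fun i => mt (p i)) (‖v‖⁻¹ • v)) := by
        rw [map_smul, map_smul, smul_smul, mul_inv_cancel₀ hn.ne', one_smul]
      rw [h4, norm_smul, norm_norm, mul_comm]
      exact mul_le_mul_of_nonneg_right h3 hn.le
  choose C1 hC1 hC1' using h1
  choose C2 hC2 hC2' using h2
  refine ⟨∑ k, (C1 k + C2 k), Finset.sum_nonneg fun k _ =>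
    add_nonneg (hC1 k) (hC2 k), fun k p => ?_, fun k p v => ?_⟩
  · refine (hC1' k p).trans ?_
    refine le_trans ?_ (Finset.single_le_sum (f := fun k => C1 k + C2 k)
      (fun k _ => add_nonneg (hC1 k) (hC2 k)) (Finset.mem_univ k))
    have := hC2 k
    linarith
  · refine (hC2' k p v).trans ?_
    refine mul_le_mul_of_nonneg_right ?_ (norm_nonneg _)
    refine le_trans ?_ (Finset.single_le_sum (f := fun k => C1 k + C2 k)
      (fun k _ => add_nonneg (hC1 k) (hC2 k)) (Finset.mem_univ k))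
    have := hC1 k
    linarith

variable {N n D M M' M'' m : ℕ} {G : Subgroup (UU N)}

set_option maxHeartbeats 8000000 in
/-- **Replacement of one source.** -/
theorem one_site (hNONC : S_NONC) (hCOVF : S_COVF) (hBOXE : S_BOXE) (hEXCE : S_EXCE)
    (hG : IsClosed (G : Set (UU N))) [MeasurableSpace G] [BorelSpace G] (μ : Measure G)
    [IsProbabilityMeasure μ] [μ.IsHaarMeasure] (B : LieBasis G n) {i0 i1 : Fin D} (h01 : i0 ≠ i1)
    (κ : G →* UU M) (κ' : G →* UU M') (τ : G →* UU M'') (hκ : Continuous κ) (hτ : Continuous τ)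
    (hM : 0 < M'') (hcent : ∀ z : G, (∀ h : G, z * h = h * z) → ∃ c : ℂ,
      (κ z : Mt M) = c • 1 ∧ (τ z : Mt M'') = c • 1)
    (hm : ∀ᵐ p ∂(Measure.pi fun _ : Fin m => μ), ∀ g : G, (∀ i, g * p i = p i * g) →
      ∀ h : G, g * h = h * g) (g : ℝ) (hg : 0 < g) :
    ∃ C : ℝ, 0 < C ∧ ∀ (l : ℕ) [NeZero l] (x y : Fin D → ZMod l) (E0 E1 E2 s : ℝ), 1 ≤ s →
      E1 - E0 ≤ s ^ 4 → C * s ^ 2 ≤ l →
      (∀ F : (Link D l → G) → ℂ, IsSm F → E0 * nsq μ F ≤ enr μ B g magnetic F) →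
      (∀ Ψ : (Link D l → G) → HV M M', IsSm Ψ → PP κ κ' x y Ψ →
        E1 * nsq μ Ψ ≤ enr μ B g magnetic Ψ) →
      (∀ ε : ℝ, 0 < ε → ∃ Ψ : (Link D l → G) → HV M M', IsSm Ψ ∧ PP κ κ' x y Ψ ∧
        nsq μ Ψ = 1 ∧ enr μ B g magnetic Ψ ≤ E1 + ε) →
      (∀ Φ : (Link D l → G) → HV M'' M', IsSm Φ → PP τ κ' x y Φ →
        E2 * nsq μ Φ ≤ enr μ B g magnetic Φ) →
      E2 ≤ E1 + C * s ^ 3 := by
  classical
  have hcU : CompactSpace (UU N) := E0AL.cUU N
  have hcs : CompactSpace G := isCompact_iff_compactSpace.1 hG.isCompact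
  have hsc0 : SecondCountableTopology (UU N) := E0AL.sUU N
  have hsc : SecondCountableTopology G := TopologicalSpace.Subtype.secondCountableTopology _
  obtain ⟨CW, hCW⟩ : ∃ CW : ℝ, CW = 8 * N * D := ⟨_, rfl⟩
  have hCW0 : 0 ≤ CW := by rw [hCW]; positivity
  obtain ⟨K1, hK1⟩ : ∃ K1 : ℝ, K1 = 2 / g ^ 2 * (2 + 8 * CW / g ^ 2) := ⟨_, rfl⟩
  have hK10 : 0 < K1 := by rw [hK1]; positivity
  obtain ⟨η, hη, hnonc⟩ := hNONC N n G hG μ B m (2 * K1)
  obtain ⟨Kn, c, h, hc, hsm, hcov, S, hSm, hSη, hS⟩ :=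
    hCOVF N G hG μ M M'' κ τ hκ hτ hM hcent m hm η hη
  obtain ⟨H, hH0, hH1, hH2⟩ := exists_H (M' := M') (G := G) hsm
  obtain ⟨c1, hc1⟩ : ∃ c1 : ℝ, c1 = m + 3 := ⟨_, rfl⟩
  have hc10 : 0 < c1 := by rw [hc1]; positivity
  obtain ⟨C3, hC3⟩ : ∃ C3 : ℝ, C3 = 40 * n * m ^ 2 * c1 + K1 * c1 ^ 2 := ⟨_, rfl⟩
  have hC30 : 0 ≤ C3 := by rw [hC3]; positivity
  obtain ⟨C4, hC4⟩ : ∃ C4 : ℝ, C4 = g ^ 2 / 2 * (Kn * H ^ 2 * C3) / (c / 2) := ⟨_, rfl⟩
  have hC40 : 0 ≤ C4 := by rw [hC4]; positivity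
  refine ⟨C4 + c1 + 1, by positivity, ?_⟩
  intro l _ x y E0 E1 E2 s hs hE hl hE0 hE1 hmin hE2
  have hs0 : 0 < s := by linarith
  -- the size of the box
  obtain ⟨k, hk⟩ : ∃ k : ℕ, k = ⌈s ^ 2⌉₊ + m + 1 := ⟨_, rfl⟩
  have hk1 : s ^ 2 ≤ k := by
    have := Nat.le_ceil (s ^ 2)
    rw [hk]; push_cast
    have hm0 : (0 : ℝ) ≤ m := Nat.cast_nonneg m
    linarith
  have hs2 : 1 ≤ s ^ 2 := one_le_pow₀ hs
  have hk2 : (k : ℝ) ≤ c1 * s ^ 2 := by
    have h1 := (Nat.ceil_lt_add_one (show 0 ≤ s ^ 2 by positivity)).le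
    rw [hk, hc1]; push_cast
    have hm0 : (0 : ℝ) ≤ m := Nat.cast_nonneg m
    nlinarith
  have hk0 : (0 : ℝ) < k := by linarith
  have hkm : m + 1 ≤ k := by rw [hk]; omega
  have hkl : k < l := by
    have h1 : (k : ℝ) < l := by
      have h2 : (C4 + c1 + 1) * s ^ 2 ≤ l := hl
      nlinarith
    exact_mod_cast h1
  have hs4 : s ^ 4 ≤ (k : ℝ) ^ 2 := by
    have := pow_le_pow_left₀ (by positivity) hk1 2
    calc s ^ 4 = (s ^ 2) ^ 2 := by ring
      _ ≤ _ := this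
  obtain ⟨bx, hbx⟩ : ∃ bx, bx = box i0 i1 x k := ⟨_, rfl⟩
  obtain ⟨Kb, hKb⟩ : ∃ Kb : ℝ, Kb = K1 * k ^ 2 := ⟨_, rfl⟩
  obtain ⟨T0, hT0⟩ : ∃ T0 : ℝ, T0 = (s * (n * (20 * m ^ 2 * k)) + Kb / s) / 2 := ⟨_, rfl⟩
  -- the sets of positions
  obtain ⟨T, hT⟩ : ∃ T, T = Finset.range k ×ˢ Finset.range k := ⟨_, rfl⟩
  have hTc : T.card = k * k := by rw [hT, Finset.card_product, Finset.card_range]
  have hTk : ∀ w ∈ T, w.1 < k ∧ w.2 < k := by
    intro w hw
    rw [hT, Finset.mem_product, Finset.mem_range, Finset.mem_range] at hw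
    exact hw
  have key : ∀ ε : ℝ, 0 < ε → ∃ w : Fin m → T, ∃ Ψ : (Link D l → G) → HV M M', IsSm Ψ ∧
      PP κ κ' x y Ψ ∧ nsq μ Ψ = 1 ∧ enr μ B g magnetic Ψ ≤ E1 + ε ∧
      c / 2 ≤ ∑ j, nsq μ (fun U => lm M' (Am i0 i1 x (fun i => (w i : ℕ × ℕ)) (h j) U) (Ψ U)) ∧
      ∑ e, cw i0 i1 x (fun i => (w i : ℕ × ℕ)) e * ∑ a, Real.sqrt (∫ U, ‖dd B e a Ψ U‖ ^ 2
        ∂(Measure.pi fun _ : Link D l => μ)) ≤ T0 := by
    intro ε hε
    obtain ⟨Ψ, hΨ, hΨP, hΨn, hΨe⟩ := hmin (min ε 1) (lt_min hε one_pos)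
    have hΨe1 : enr μ B g magnetic Ψ ≤ E1 + 1 := hΨe.trans (by
      have := min_le_right ε 1; linarith)
    -- the energy in the box
    have hbox : ∑ e ∈ bx, kin μ B e Ψ ≤ Kb := by
      have h1 : ∀ q, g ^ 2 / 2 * (∑ e ∈ bx, kin μ B e fun U => Ψ U q) +
          E0 * nsq μ (fun U => Ψ U q) ≤ enr μ B g magnetic (fun U => Ψ U q) +
            1 / g ^ 2 * (8 * N * D * bx.card) * nsq μ fun U => Ψ U q := fun q =>
        hBOXE N n G hG μ B (Link D l) g hg magnetic magnetic_cont bx (8 * N * D * bx.card)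
          (fun U U' hU => magnetic_var bx U U' hU) E0 hE0 _ (hΨ.entry q)
      have h2 := Finset.sum_le_sum fun q (_ : q ∈ Finset.univ) => h1 q
      rw [Finset.sum_add_distrib, Finset.sum_add_distrib, ← Finset.mul_sum, ← Finset.mul_sum,
        ← Finset.mul_sum, ← nsq_entry μ hΨ, ← enr_entry μ B g magnetic_cont hΨ,
        Finset.sum_comm, Finset.sum_congr rfl fun e _ => (kin_entry μ B e hΨ).symm, hΨn,
        mul_one, mul_one] at h2
      have h3 : (bx.card : ℝ) ≤ 8 * k ^ 2 := by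
        have h4 : bx.card ≤ 2 * (k + 1) ^ 2 := by rw [hbx]; exact card_box i0 i1 x k
        have h5 : ((k : ℝ) + 1) ^ 2 ≤ (2 * k) ^ 2 := by
          refine pow_le_pow_left₀ (by positivity) ?_ 2
          have : (1 : ℝ) ≤ k := by linarith
          linarith
        have h6 : (bx.card : ℝ) ≤ 2 * ((k : ℝ) + 1) ^ 2 := by exact_mod_cast h4
        linarith
      have h4 : g ^ 2 / 2 * ∑ e ∈ bx, kin μ B e Ψ ≤ g ^ 2 / 2 * Kb := by
        have h5 : g ^ 2 / 2 * ∑ e ∈ bx, kin μ B e Ψ ≤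
            (E1 - E0) + 1 + 1 / g ^ 2 * (8 * N * D * bx.card) := by linarith
        have h6 : 1 / g ^ 2 * (8 * N * D * bx.card) ≤ 1 / g ^ 2 * (CW * (8 * k ^ 2)) := by
          rw [← hCW]
          exact mul_le_mul_of_nonneg_left (mul_le_mul_of_nonneg_left h3 hCW0) (by positivity)
        have h7 : (1 : ℝ) ≤ s ^ 4 := one_le_pow₀ hs
        have h8 : g ^ 2 / 2 * Kb = 2 * k ^ 2 + 1 / g ^ 2 * (CW * (8 * k ^ 2)) := by
          rw [hKb, hK1]
          field_simp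
        rw [h8]
        linarith
      exact le_of_mul_le_mul_left h4 (by positivity)
    -- the choice of the positions
    have hsumT : ∑ w ∈ T, kin μ B (spl i0 i1 x w) Ψ ≤ K1 * T.card := by
      have hinj : Set.InjOn (fun w => spl i0 i1 x w) (T : Set (ℕ × ℕ)) := by
        intro w hw w' hw' he
        have a1 := hTk w hw
        have a2 := hTk w' hw'
        exact spl_inj x h01 (by omega) (by omega) (by omega) (by omega) he
      have h1 : ∑ w ∈ T, kin μ B (spl i0 i1 x w) Ψ =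
          ∑ e ∈ T.image (fun w => spl i0 i1 x w), kin μ B e Ψ :=
        (Finset.sum_image (f := fun e => kin μ B e Ψ) hinj).symm
      rw [h1, hTc]
      have h2 : T.image (fun w => spl i0 i1 x w) ⊆ bx := by
        intro e he
        obtain ⟨w, hw, rfl⟩ := Finset.mem_image.1 he
        have a1 := hTk w hw
        rw [hbx]
        exact spl_mem_box i0 i1 x (by omega) (by omega)
      refine (Finset.sum_le_sum_of_subset_of_nonneg h2 fun e _ _ => kin_nonneg μ B e Ψ).trans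
        (hbox.trans (le_of_eq ?_))
      rw [hKb]; push_cast; ring
    obtain ⟨w, hwinj, hwT, hwK⟩ := exists_good T (fun w => kin μ B (spl i0 i1 x w) Ψ)
      (fun w => kin_nonneg μ B _ Ψ) hK10 hsumT (m := m) (by
        rw [hTc]
        nlinarith)
    refine ⟨fun i => ⟨w i, hwT i⟩, Ψ, hΨ, hΨP, hΨn, hΨe.trans (by
      have := min_le_left ε 1; linarith), ?_, ?_⟩
    · refine low_bound μ hc hsm hSm hS hΨ hΨn ?_
      have h1 := hnonc (Link D l) (fun i => spl i0 i1 x (w i)) (fun i j hij => hwinj (by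
        have a1 := hTk _ (hwT i)
        have a2 := hTk _ (hwT j)
        exact spl_inj x h01 (by omega) (by omega) (by omega) (by omega) hij))
        (lv i0 i1 x w) (fun U i => hol (legA i0 i1 x (w i)) U)
        (fun U i => (hol (legA i0 i1 x ((w i).1, (w i).2 + 1)) U)⁻¹)
        (continuous_pi fun i => hol_cont _) (continuous_pi fun i => (hol_cont _).inv)
        (fun U i => hol_lasso i0 i1 x (w i) U) (fun U U' hU => by
          have hleg : ∀ w' : ℕ × ℕ, hol (legA i0 i1 x w') U = hol (legA i0 i1 x w') U' := by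
            intro w'
            refine hol_congr fun p hp => hU p.1 fun i => ?_
            have a1 := hTk _ (hwT i)
            exact spl_notMem x h01 (by omega) p hp
          exact ⟨funext fun i => hleg _, funext fun i => by rw [hleg]⟩)
        S hSm hSη (Fin M × Fin M') (fun q U => Ψ U q) (fun q => hΨ.entry q) (fun i => by
          rw [← nsq_entry μ hΨ, ← kin_entry μ B _ hΨ, hΨn, mul_one]
          exact hwK i)
      rwa [← nsq_entry μ hΨ, hΨn, mul_one] at h1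
    · rw [hT0]
      refine cross_bound μ B hkl (fun i => hTk _ (hwT i)) hs0 Ψ ?_
      rw [← hbx]; exact hbox
  obtain ⟨w, hw⟩ := pigeon (W := Fin m → T) (Q := fun w ε => ∃ Ψ : (Link D l → G) → HV M M',
      IsSm Ψ ∧ PP κ κ' x y Ψ ∧ nsq μ Ψ = 1 ∧ enr μ B g magnetic Ψ ≤ E1 + ε ∧
      c / 2 ≤ ∑ j, nsq μ (fun U => lm M' (Am i0 i1 x (fun i => (w i : ℕ × ℕ)) (h j) U) (Ψ U)) ∧
      ∑ e, cw i0 i1 x (fun i => (w i : ℕ × ℕ)) e * ∑ a, Real.sqrt (∫ U, ‖dd B e a Ψ U‖ ^ 2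
        ∂(Measure.pi fun _ : Link D l => μ)) ≤ T0) (by
      rintro w ε ε' hεε ⟨Ψ, h1, h2, h3, h4, h5, h6⟩
      exact ⟨Ψ, h1, h2, h3, h4.trans (by linarith), h5, h6⟩) key
  have hwk : ∀ i, ((w i : ℕ × ℕ)).1 < k ∧ ((w i : ℕ × ℕ)).2 < k := fun i => hTk _ (w i).2
  have hAsm : ∀ j, IsSm fun U : Link D l → G =>
      Am i0 i1 x (fun i => (w i : ℕ × ℕ)) (h j) U := fun j => isSm_Am (hsm j)
  have hfin := hEXCE N n G hG μ B (Link D l) (HV M M') (HV M'' M') g hg magnetic magnetic_cont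
    (PP κ κ' x y) (PP τ κ' x y) (fun Ψ Φ h1 h2 => h1.add h2) (fun r Ψ h1 => h1.smul r)
    E1 E2 hE1 hE2 Kn
    (fun j U => lm M' (Am i0 i1 x (fun i => (w i : ℕ × ℕ)) (h j) U))
    (fun j U => lm M' (Am i0 i1 x (fun i => (w i : ℕ × ℕ)) (h j) U)ᴴ)
    (fun j => (hAsm j).comp (lm M').contDiff)
    (fun j => ((hAsm j).comp ctL.contDiff).comp (lm M').contDiff)
    (fun j U v v' => lm_adj _ v v')
    (fun j Ψ h1 => PP.lm (fun γ U => Am_cov (hcov j) γ U) h1)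
    (fun j Ψ h1 => by
      have h2 : PP τ κ' x y fun U =>
        lm M' (Am i0 i1 x (fun i => (w i : ℕ × ℕ)) (h j) U) (Ψ U) :=
        PP.lm (fun γ U => Am_cov (hcov j) γ U) h1
      exact PP.lm (fun γ U => by
        rw [Am_cov (hcov j) γ U, conjTranspose_mul, conjTranspose_mul,
          conjTranspose_conjTranspose, Matrix.mul_assoc]) h2)
    H (cw i0 i1 x fun i => (w i : ℕ × ℕ)) (fun j U => hH1 j _) (fun e => cw_nonneg e)
    (fun j e a U => by
      have h1 := dd_clm B e a (lm M') (hAsm j) U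
      have h2 := dd_comp B e a (hsm j)
        (F := fun (U : Link D l → G) (i : Fin m) =>
          mt (lv i0 i1 x (fun i => (w i : ℕ × ℕ)) U i)) (IsSm.pi isSm_lv) U
      have h3 : dd B e a (fun U => Am i0 i1 x (fun i => (w i : ℕ × ℕ)) (h j) U) U =
          fderiv ℝ (h j) (fun i => mt (lv i0 i1 x (fun i => (w i : ℕ × ℕ)) U i))
            (dd B e a (fun (U : Link D l → G) (i : Fin m) =>
              mt (lv i0 i1 x (fun i => (w i : ℕ × ℕ)) U i)) U) := h2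
      have h4 : dd B e a (fun U => lm M' (Am i0 i1 x (fun i => (w i : ℕ × ℕ)) (h j) U)) U =
          lm M' (fderiv ℝ (h j) (fun i => mt (lv i0 i1 x (fun i => (w i : ℕ × ℕ)) U i))
            (dd B e a (fun (U : Link D l → G) (i : Fin m) =>
              mt (lv i0 i1 x (fun i => (w i : ℕ × ℕ)) U i)) U)) :=
        h1.trans (congrArg (lm M') h3)
      refine (le_of_eq (congrArg norm h4)).trans ?_
      refine (hH2 j _ _).trans ?_
      exact mul_le_mul_of_nonneg_left (norm_dd_lv B e a U) hH0)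
    (c / 2) T0 (by positivity) hw
  refine hfin.trans ?_
  have hcs2 : ∑ e, cw i0 i1 x (fun i => (w i : ℕ × ℕ)) e ^ 2 ≤ 20 * m ^ 2 * k :=
    sum_cw_sq hkl hwk
  have hks : (k : ℝ) * s ≤ c1 * s ^ 3 := by
    have := mul_le_mul_of_nonneg_right hk2 hs0.le
    calc (k : ℝ) * s ≤ c1 * s ^ 2 * s := this
      _ = c1 * s ^ 3 := by ring
  have hk3 : (k : ℝ) ≤ c1 * s ^ 3 := by
    refine le_trans ?_ hks
    nlinarith
  have hkk : (k : ℝ) ^ 2 / s ≤ c1 ^ 2 * s ^ 3 := by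
    rw [div_le_iff₀ hs0]
    have := pow_le_pow_left₀ hk0.le hk2 2
    calc (k : ℝ) ^ 2 ≤ (c1 * s ^ 2) ^ 2 := this
      _ = c1 ^ 2 * s ^ 3 * s := by ring
  have hX : (n : ℝ) * ∑ e, cw i0 i1 x (fun i => (w i : ℕ × ℕ)) e ^ 2 + 2 * T0 ≤ C3 * s ^ 3 := by
    have h1 : (n : ℝ) * ∑ e, cw i0 i1 x (fun i => (w i : ℕ × ℕ)) e ^ 2 ≤
        n * (20 * m ^ 2 * (c1 * s ^ 3)) := by
      refine mul_le_mul_of_nonneg_left (hcs2.trans ?_) (Nat.cast_nonneg n)
      exact mul_le_mul_of_nonneg_left hk3 (by positivity)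
    have h2 : 2 * T0 ≤ n * (20 * m ^ 2 * (c1 * s ^ 3)) + K1 * (c1 ^ 2 * s ^ 3) := by
      have h3 : 2 * T0 = n * (20 * m ^ 2) * (k * s) + K1 * (k ^ 2 / s) := by
        rw [hT0, hKb]; ring
      rw [h3]
      have h4 := mul_le_mul_of_nonneg_left hks (show (0 : ℝ) ≤ n * (20 * m ^ 2) by positivity)
      have h5 := mul_le_mul_of_nonneg_left hkk hK10.le
      linarith
    rw [hC3]
    linarith
  have hY : g ^ 2 / 2 * (Kn * H ^ 2 * (n * ∑ e, cw i0 i1 x (fun i => (w i : ℕ × ℕ)) e ^ 2 +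
      2 * T0)) / (c / 2) ≤ C4 * s ^ 3 := by
    rw [hC4]
    have h1 : Kn * H ^ 2 * (n * ∑ e, cw i0 i1 x (fun i => (w i : ℕ × ℕ)) e ^ 2 + 2 * T0) ≤
        Kn * H ^ 2 * (C3 * s ^ 3) := mul_le_mul_of_nonneg_left hX (by positivity)
    have h2 := mul_le_mul_of_nonneg_left h1 (show (0 : ℝ) ≤ g ^ 2 / 2 by positivity)
    have h3 := div_le_div_of_nonneg_right h2 (show (0 : ℝ) ≤ c / 2 by positivity)
    refine h3.trans (le_of_eq ?_)
    ring
  have hs3 : 0 ≤ s ^ 3 := by positivity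
  nlinarith

end

end Pool.Agent.H189.KS
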