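import Mathlib
import Pool.Agent.H189.KS.One4

/-!
# Lowest levels
-/

open MeasureTheory Matrix
open scoped ContDiff Matrix.Norms.Frobenius

namespace Pool.Agent.H189.KS

set_option linter.unusedSectionVars false

noncomputable section

variable {N n : ℕ} {G : Subgroup (UU N)} {E : Type} [Fintype E] [DecidableEq E]
  {V V' : Type} [NormedAddCommGroup V] [NormedSpace ℝ V] [NormedAddCommGroup V'] [NormedSpace ℝ V']
  [MeasurableSpace G] (μ : Measure G)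

/-- a linear isometry preserves the energies -/
lemma nsq_iso (T : V →L[ℝ] V') (hT : ∀ v, ‖T v‖ = ‖v‖) (F : (E → G) → V) :
    nsq μ (fun U => T (F U)) = nsq μ F := by
  unfold nsq
  simp only [hT]

lemma enr_iso (B : LieBasis G n) (g : ℝ) (W : (E → G) → ℝ) (T : V →L[ℝ] V')
    (hT : ∀ v, ‖T v‖ = ‖v‖) {F : (E → G) → V} (hF : IsSm F) :
    enr μ B g W (fun U => T (F U)) = enr μ B g W F := by
  unfold enr kin pot
  have h : ∀ e a U, ‖dd B e a (fun U => T (F U)) U‖ = ‖dd B e a F U‖ := fun e a U => by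
    rw [dd_clm B e a T hF, hT]
  simp only [hT, h]

lemma nsq_smul (c : ℝ) (F : (E → G) → V) : nsq μ (fun U => c • F U) = c ^ 2 * nsq μ F := by
  unfold nsq
  rw [← integral_const_mul]
  refine integral_congr_ae (Filter.Eventually.of_forall fun U => ?_)
  dsimp only
  rw [norm_smul, mul_pow, Real.norm_eq_abs, sq_abs]

lemma enr_smul (B : LieBasis G n) (g : ℝ) (W : (E → G) → ℝ) (c : ℝ) {F : (E → G) → V}
    (hF : IsSm F) : enr μ B g W (fun U => c • F U) = c ^ 2 * enr μ B g W F := by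
  unfold enr kin pot
  have h : ∀ e a, ∫ U, ‖dd B e a (fun U => c • F U) U‖ ^ 2 ∂(Measure.pi fun _ : E => μ) =
      c ^ 2 * ∫ U, ‖dd B e a F U‖ ^ 2 ∂(Measure.pi fun _ : E => μ) := fun e a => by
    rw [← integral_const_mul]
    refine integral_congr_ae (Filter.Eventually.of_forall fun U => ?_)
    dsimp only
    rw [dd_const_smul B e a c hF, norm_smul, mul_pow, Real.norm_eq_abs, sq_abs]
  have h2 : ∫ U, W U * ‖c • F U‖ ^ 2 ∂(Measure.pi fun _ : E => μ) =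
      c ^ 2 * ∫ U, W U * ‖F U‖ ^ 2 ∂(Measure.pi fun _ : E => μ) := by
    rw [← integral_const_mul]
    refine integral_congr_ae (Filter.Eventually.of_forall fun U => ?_)
    dsimp only
    rw [norm_smul, mul_pow, Real.norm_eq_abs, sq_abs]
    ring
  simp only [h, h2, ← Finset.mul_sum]
  ring

lemma nsq_nonneg (F : (E → G) → V) : 0 ≤ nsq μ F := integral_nonneg fun U => by positivity

lemma enr_nonneg (B : LieBasis G n) (g : ℝ) {W : (E → G) → ℝ} (hW : ∀ U, 0 ≤ W U)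
    (F : (E → G) → V) : 0 ≤ enr μ B g W F := by
  unfold enr kin pot
  have h1 : 0 ≤ ∑ e, ∑ a, ∫ U, ‖dd B e a F U‖ ^ 2 ∂(Measure.pi fun _ : E => μ) :=
    Finset.sum_nonneg fun e _ => Finset.sum_nonneg fun a _ => integral_nonneg fun U => by
      positivity
  have h2 : 0 ≤ ∫ U, W U * ‖F U‖ ^ 2 ∂(Measure.pi fun _ : E => μ) :=
    integral_nonneg fun U => mul_nonneg (hW U) (by positivity)
  positivity

/-- the lowest level in a sector -/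
def lev (B : LieBasis G n) (g : ℝ) (W : (E → G) → ℝ) (P : ((E → G) → V) → Prop) : ℝ :=
  sInf {e : ℝ | ∃ Ψ, IsSm Ψ ∧ P Ψ ∧ nsq μ Ψ = 1 ∧ enr μ B g W Ψ = e}

variable {B : LieBasis G n} {g : ℝ} {W : (E → G) → ℝ} {P : ((E → G) → V) → Prop}

lemma lev_bdd (hW : ∀ U, 0 ≤ W U) :
    BddBelow {e : ℝ | ∃ Ψ, IsSm Ψ ∧ P Ψ ∧ nsq μ Ψ = 1 ∧ enr μ B g W Ψ = e} := by
  refine ⟨0, ?_⟩
  rintro e ⟨Ψ, -, -, -, rfl⟩
  exact enr_nonneg μ B g hW Ψ

lemma lev_nonneg (hW : ∀ U, 0 ≤ W U) : 0 ≤ lev μ B g W P := by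
  refine Real.sInf_nonneg ?_
  rintro e ⟨Ψ, -, -, -, rfl⟩
  exact enr_nonneg μ B g hW Ψ

/-- normalisation -/
lemma exists_norm (hP : ∀ (c : ℝ) Ψ, P Ψ → P fun U => c • Ψ U) {Ψ : (E → G) → V} (hΨ : IsSm Ψ)
    (h1 : P Ψ) (h2 : 0 < nsq μ Ψ) : ∃ c : ℝ, c ^ 2 * nsq μ Ψ = 1 ∧
      IsSm (fun U => c • Ψ U) ∧ P (fun U => c • Ψ U) ∧ nsq μ (fun U => c • Ψ U) = 1 ∧
      enr μ B g W (fun U => c • Ψ U) = c ^ 2 * enr μ B g W Ψ := by
  have hc : (Real.sqrt (nsq μ Ψ))⁻¹ ^ 2 * nsq μ Ψ = 1 := by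
    rw [inv_pow, Real.sq_sqrt h2.le, inv_mul_cancel₀ h2.ne']
  refine ⟨(Real.sqrt (nsq μ Ψ))⁻¹, hc, (IsSm.const _).smul hΨ, hP _ _ h1, ?_,
    enr_smul μ B g W _ hΨ⟩
  rw [nsq_smul, hc]

lemma lev_le (hW : ∀ U, 0 ≤ W U) (hP : ∀ (c : ℝ) Ψ, P Ψ → P fun U => c • Ψ U)
    {Ψ : (E → G) → V} (hΨ : IsSm Ψ) (h1 : P Ψ) : lev μ B g W P * nsq μ Ψ ≤ enr μ B g W Ψ := by
  rcases (nsq_nonneg μ Ψ).eq_or_lt with h0 | h0
  · rw [← h0, mul_zero]
    exact enr_nonneg μ B g hW Ψ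
  · obtain ⟨c, hc, a1, a2, a3, a4⟩ := exists_norm μ (B := B) (g := g) (W := W) hP hΨ h1 h0
    have h3 : lev μ B g W P ≤ enr μ B g W (fun U => c • Ψ U) :=
      csInf_le (lev_bdd μ hW) ⟨_, a1, a2, a3, rfl⟩
    rw [a4] at h3
    have h4 := mul_le_mul_of_nonneg_right h3 h0.le
    calc _ ≤ c ^ 2 * enr μ B g W Ψ * nsq μ Ψ := h4
      _ = (c ^ 2 * nsq μ Ψ) * enr μ B g W Ψ := by ring
      _ = _ := by rw [hc, one_mul]

lemma lev_near (hne : ∃ Ψ, IsSm Ψ ∧ P Ψ ∧ nsq μ Ψ = 1) {ε : ℝ} (hε : 0 < ε) :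
    ∃ Ψ, IsSm Ψ ∧ P Ψ ∧ nsq μ Ψ = 1 ∧ enr μ B g W Ψ ≤ lev μ B g W P + ε := by
  obtain ⟨Ψ0, b1, b2, b3⟩ := hne
  have h1 : sInf {e : ℝ | ∃ Ψ, IsSm Ψ ∧ P Ψ ∧ nsq μ Ψ = 1 ∧ enr μ B g W Ψ = e} <
      lev μ B g W P + ε := by
    unfold lev
    linarith
  have h0 : {e : ℝ | ∃ Ψ, IsSm Ψ ∧ P Ψ ∧ nsq μ Ψ = 1 ∧ enr μ B g W Ψ = e}.Nonempty :=
    ⟨_, Ψ0, b1, b2, b3, rfl⟩
  obtain ⟨e, ⟨Ψ, a1, a2, a3, rfl⟩, he⟩ := exists_lt_of_csInf_lt h0 h1
  exact ⟨Ψ, a1, a2, a3, he.le⟩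

lemma magnetic_nonneg {D l : ℕ} [NeZero l] (U : Link D l → G) : 0 ≤ magnetic U := by
  unfold magnetic
  refine Finset.sum_nonneg fun x _ => Finset.sum_nonneg fun i _ => Finset.sum_nonneg fun j _ => ?_
  split_ifs
  · rw [trace_sub, Complex.sub_re, trace_one, Fintype.card_fin, Complex.natCast_re, sub_nonneg,
      Matrix.trace, Complex.re_sum]
    have h2 : ∀ i' : Fin N, (diag (mt (plaq U x i j)) i').re ≤ 1 := by
      intro i'
      refine (Complex.re_le_norm _).trans ?_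
      exact entry_norm_bound_of_unitary (plaq U x i j : UU N).2 i' i'
    calc ∑ i', (diag (mt (plaq U x i j)) i').re ≤ ∑ _i : Fin N, (1 : ℝ) :=
          Finset.sum_le_sum fun i' _ => h2 i'
      _ = N := by simp
  · exact le_rfl

/-! ### exchange of the two sources -/

section swap

variable {M M' D l : ℕ} [NeZero l] {κ : G →* UU M} {κ' : G →* UU M'} {x y : Fin D → ZMod l}

/-- conjugate transpose -/
def swp : HV M M' →L[ℝ] HV M' M := LinearMap.toContinuousLinearMap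
  { toFun := fun v => ofM (toM v)ᴴ
    map_add' := fun v w => by rw [toM_add, conjTranspose_add, ofM_add]
    map_smul' := fun c v => by
      rw [toM_smul, conjTranspose_smul, star_trivial, ofM_smul, RingHom.id_apply] }

lemma swp_norm (v : HV M M') : ‖(swp v : HV M' M)‖ = ‖v‖ := by
  have h1 : ‖(swp v : HV M' M)‖ ^ 2 = ‖v‖ ^ 2 := by
    rw [normsq, normsq, Finset.sum_comm]
    refine Finset.sum_congr rfl fun i _ => Finset.sum_congr rfl fun j _ => ?_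
    have : toM (swp v : HV M' M) j i = star (toM v i j) := rfl
    rw [this, norm_star]
  have h2 := norm_nonneg (swp v : HV M' M)
  have h3 := norm_nonneg v
  nlinarith

lemma PP.swap {Ψ : (Link D l → G) → HV M M'} (h : PP κ κ' x y Ψ) :
    PP κ' κ y x fun U => (swp (Ψ U) : HV M' M) := by
  intro γ U
  show (toM (Ψ (gt src tgt γ U)))ᴴ = (κ' (γ y) : Mt M') * (toM (Ψ U))ᴴ * (κ (γ x) : Mt M)ᴴ
  rw [h, conjTranspose_mul, conjTranspose_mul, conjTranspose_conjTranspose, Matrix.mul_assoc]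

lemma lev_swap_le (hne : ∃ Ψ : (Link D l → G) → HV M M', IsSm Ψ ∧ PP κ κ' x y Ψ ∧ nsq μ Ψ = 1) :
    lev μ B g magnetic (PP κ' κ y x) ≤ lev μ B g (magnetic (l := l)) (PP κ κ' x y) := by
  refine le_of_forall_pos_le_add fun ε hε => ?_
  obtain ⟨Ψ, a1, a2, a3, a4⟩ := lev_near μ (B := B) (g := g) (W := magnetic) hne hε
  refine (csInf_le (lev_bdd μ magnetic_nonneg) ⟨fun U => swp (Ψ U), a1.comp swp.contDiff,
    a2.swap, ?_, rfl⟩).trans ?_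
  · rw [nsq_iso μ swp swp_norm, a3]
  · rw [enr_iso μ B g _ swp swp_norm a1]
    exact a4

lemma ne_swap (hne : ∃ Ψ : (Link D l → G) → HV M M', IsSm Ψ ∧ PP κ κ' x y Ψ ∧ nsq μ Ψ = 1) :
    ∃ Ψ : (Link D l → G) → HV M' M, IsSm Ψ ∧ PP κ' κ y x Ψ ∧ nsq μ Ψ = 1 := by
  obtain ⟨Ψ, a1, a2, a3⟩ := hne
  exact ⟨fun U => swp (Ψ U), a1.comp swp.contDiff, a2.swap, by rw [nsq_iso μ swp swp_norm, a3]⟩

lemma lev_swap (hne : ∃ Ψ : (Link D l → G) → HV M M', IsSm Ψ ∧ PP κ κ' x y Ψ ∧ nsq μ Ψ = 1) :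
    lev μ B g (magnetic (l := l)) (PP κ' κ y x) =
      lev μ B g (magnetic (l := l)) (PP κ κ' x y) :=
  le_antisymm (lev_swap_le μ hne) (lev_swap_le μ (ne_swap μ hne))

end swap

end

end Pool.Agent.H189.KS
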