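import Pool.Agent.H189.KS.Stm

set_option autoImplicit false

open MeasureTheory Set Filter Topology
open scoped ContDiff

namespace Pool.Agent.H189.KS.PARI

section
variable {X : Type} [TopologicalSpace X] [CompactSpace X]
  [SecondCountableTopology X] [MeasurableSpace X] [BorelSpace X] (ν : Measure X)
  [IsFiniteMeasure ν] {P H : Type} [NormedAddCommGroup P] [NormedSpace ℝ P]
  [FiniteDimensional ℝ P] [NormedAddCommGroup H] [NormedSpace ℝ H]

theorem aux (T : X → P →L[ℝ] H) (hT : Continuous T) (m : ℕ) : ∀ (V W : Type)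
    [NormedAddCommGroup V] [NormedSpace ℝ V] [NormedAddCommGroup W] [NormedSpace ℝ W]
    [CompleteSpace W] (f : H → V) (A : X → V →L[ℝ] W), Continuous A → ContDiff ℝ m f →
    ContDiff ℝ m (fun x => ∫ γ, A γ (f (T γ x)) ∂ν) := by
  have hproper : ProperSpace P := FiniteDimensional.proper_real P
  have hTx : Continuous (fun p : P × X => T p.2 p.1) :=
    (hT.comp continuous_snd).clm_apply continuous_fst
  induction m with
  | zero =>
    intro V W _ _ _ _ _ f A hA hf
    have hc : Continuous (Function.uncurry (fun (x : P) (γ : X) => A γ (f (T γ x)))) :=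
      (hA.comp continuous_snd).clm_apply (hf.continuous.comp hTx)
    have h1 := continuous_parametric_integral_of_continuous (μ := ν) hc
      (isCompact_univ (X := X))
    simp only [Measure.restrict_univ] at h1
    exact contDiff_zero.mpr h1
  | succ m ih =>
    intro V W _ _ _ _ _ f A hA hf
    have hf' : ContDiff ℝ ((m : WithTop ℕ∞) + 1) f := by exact_mod_cast hf
    have hc : Continuous (fun p : P × X => A p.2 (f (T p.2 p.1))) :=
      (hA.comp continuous_snd).clm_apply (hf'.continuous.comp hTx)
    set A' : X → (H →L[ℝ] V) →L[ℝ] (P →L[ℝ] W) := fun γ =>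
      (ContinuousLinearMap.compL ℝ P V W (A γ)).comp
        ((ContinuousLinearMap.compL ℝ P H V).flip (T γ)) with hA'
    have hA'c : Continuous A' :=
      ((ContinuousLinearMap.compL ℝ P V W).continuous.comp hA).clm_comp
        ((ContinuousLinearMap.compL ℝ P H V).flip.continuous.comp hT)
    have hfd : ContDiff ℝ m (fderiv ℝ f) := hf'.fderiv_right le_rfl
    have hcD : Continuous (fun p : P × X => A' p.2 (fderiv ℝ f (T p.2 p.1))) :=
      (hA'c.comp continuous_snd).clm_apply (hfd.continuous.comp hTx)
    have hder : ∀ x γ, HasFDerivAt (fun x => A γ (f (T γ x))) (A' γ (fderiv ℝ f (T γ x))) x := by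
      intro x γ
      have h1 : HasFDerivAt f (fderiv ℝ f (T γ x)) (T γ x) :=
        (hf'.differentiable (by simp) (T γ x)).hasFDerivAt
      have h2 := (A γ).hasFDerivAt.comp x (h1.comp x (T γ).hasFDerivAt)
      exact h2
    have key : ContDiff ℝ ((m : WithTop ℕ∞) + 1) (fun x => ∫ γ, A γ (f (T γ x)) ∂ν) := by
      rw [contDiff_succ_iff_hasFDerivAt]
      refine ⟨fun x => ∫ γ, A' γ (fderiv ℝ f (T γ x)) ∂ν,
        ih (H →L[ℝ] V) (P →L[ℝ] W) (fderiv ℝ f) A' hA'c hfd, fun x => ?_⟩
      obtain ⟨C, hC⟩ := ((isCompact_closedBall x 1).prod (isCompact_univ (X := X))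
        ).exists_bound_of_continuousOn hcD.continuousOn
      obtain ⟨C0, hC0⟩ := ((isCompact_closedBall x 1).prod (isCompact_univ (X := X))
        ).exists_bound_of_continuousOn hc.continuousOn
      refine hasFDerivAt_integral_of_dominated_of_fderiv_le (𝕜 := ℝ) (F := fun x γ => A γ (f (T γ x)))
        (F' := fun x γ => A' γ (fderiv ℝ f (T γ x)))
        (s := Metric.closedBall x 1) (bound := fun _ => C)
        (Metric.closedBall_mem_nhds x one_pos) ?_ ?_ ?_ ?_ ?_ ?_
      · refine Eventually.of_forall fun y => ?_
        exact (hc.comp (continuous_const.prodMk continuous_id)).aestronglyMeasurable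
      · refine (integrable_const C0).mono'
          (hc.comp (continuous_const.prodMk continuous_id)).aestronglyMeasurable ?_
        exact Eventually.of_forall fun γ =>
          hC0 (x, γ) ⟨Metric.mem_closedBall_self zero_le_one, mem_univ _⟩
      · exact (hcD.comp (continuous_const.prodMk continuous_id)).aestronglyMeasurable
      · exact Eventually.of_forall fun γ y hy => hC (y, γ) ⟨hy, mem_univ _⟩
      · exact integrable_const _
      · exact Eventually.of_forall fun γ y _ => hder y γ
    exact_mod_cast key

end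

end Pool.Agent.H189.KS.PARI

namespace Pool.Agent.H189.KS

theorem t_PARI : S_PARI := by
  intro X _ _ _ _ _ ν _ P H V W _ _ _ _ _ _ _ _ _ _ _ f hf T hT A hA
  rw [contDiff_infty]
  intro m
  exact PARI.aux ν T hT m V W f A hA (hf.of_le (by exact_mod_cast le_top))

end Pool.Agent.H189.KS
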