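import Mathlib
import Pool.Agent.H189.KS.Stm

/-!
# SPAN: finitely many independent random elements generate the group up to its centre
-/

open MeasureTheory Matrix
open scoped ContDiff Matrix.Norms.Frobenius

namespace Pool.Agent.H189.KS.SPAN

set_option linter.unusedSectionVars false

noncomputable section

variable {N : ℕ} {G : Subgroup (UU N)}

/-- the elements of the group whose matrix lies in `W` -/
def SS (G : Subgroup (UU N)) (W : Submodule ℂ (Mt N)) : Set G := {g | mt g ∈ W}

/-- left multiplication -/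
def le (g : G) : Mt N ≃ₗ[ℂ] Mt N where
  toFun x := mt g * x
  invFun x := mt g⁻¹ * x
  map_add' x y := by simp only [Matrix.mul_add]
  map_smul' c x := by simp only [Matrix.mul_smul, RingHom.id_apply]
  left_inv x := by
    show mt g⁻¹ * (mt g * x) = x
    rw [← Matrix.mul_assoc, ← mt_mul, inv_mul_cancel, mt_one, Matrix.one_mul]
  right_inv x := by
    show mt g * (mt g⁻¹ * x) = x
    rw [← Matrix.mul_assoc, ← mt_mul, mul_inv_cancel, mt_one, Matrix.one_mul]

lemma closed_SS (W : Submodule ℂ (Mt N)) : IsClosed (SS G W) :=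
  (Submodule.closed_of_finiteDimensional W).preimage mt_cont

lemma mem_map (W : Submodule ℂ (Mt N)) (g : G) (x : Mt N) :
    x ∈ W.map (le g).toLinearMap ↔ mt g⁻¹ * x ∈ W := by
  constructor
  · rintro ⟨w, hw, rfl⟩
    have : mt g⁻¹ * (mt g * w) = w := (le g).left_inv w
    show mt g⁻¹ * (mt g * w) ∈ W
    rw [this]; exact hw
  · intro h
    exact ⟨_, h, (le g).right_inv x⟩

lemma finrank_map (W : Submodule ℂ (Mt N)) (g : G) :
    Module.finrank ℂ (W.map (le g).toLinearMap) = Module.finrank ℂ W :=
  LinearEquiv.finrank_map_eq (le g) W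

variable [MeasurableSpace G] [BorelSpace G] (μ : Measure G)

lemma meas_map [μ.IsHaarMeasure] (W : Submodule ℂ (Mt N)) (g : G) :
    μ (SS G (W.map (le g).toLinearMap)) = μ (SS G W) := by
  have : SS G (W.map (le g).toLinearMap) = (fun h => g⁻¹ * h) ⁻¹' SS G W := by
    ext h
    show mt h ∈ W.map (le g).toLinearMap ↔ mt (g⁻¹ * h) ∈ W
    rw [mem_map, mt_mul]
  rw [this, measure_preimage_mul]

/-- The stabiliser of `W`. -/
def stab (G : Subgroup (UU N)) (W : Submodule ℂ (Mt N)) : Subgroup G where
  carrier := {g | (∀ w ∈ W, mt g * w ∈ W) ∧ ∀ w ∈ W, mt g⁻¹ * w ∈ W}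
  mul_mem' := by
    rintro a b ⟨h1, h2⟩ ⟨h3, h4⟩
    refine ⟨fun w hw => ?_, fun w hw => ?_⟩
    · rw [mt_mul, Matrix.mul_assoc]; exact h1 _ (h3 _ hw)
    · rw [_root_.mul_inv_rev, mt_mul, Matrix.mul_assoc]; exact h4 _ (h2 _ hw)
  one_mem' := by
    refine ⟨fun w hw => ?_, fun w hw => ?_⟩
    · rw [mt_one, Matrix.one_mul]; exact hw
    · rw [inv_one, mt_one, Matrix.one_mul]; exact hw
  inv_mem' := by
    rintro a ⟨h1, h2⟩
    exact ⟨h2, by rw [inv_inv]; exact h1⟩

lemma closed_stab (W : Submodule ℂ (Mt N)) : IsClosed (stab G W : Set G) := by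
  have : (stab G W : Set G) = (⋂ w : W, {g : G | mt g * w ∈ W}) ∩
      (⋂ w : W, {g : G | mt g⁻¹ * w ∈ W}) := by
    ext g
    simp only [Set.mem_inter_iff, Set.mem_iInter]
    constructor
    · rintro ⟨h1, h2⟩
      exact ⟨fun w => h1 w w.2, fun w => h2 w w.2⟩
    · rintro ⟨h1, h2⟩
      exact ⟨fun w hw => h1 ⟨w, hw⟩, fun w hw => h2 ⟨w, hw⟩⟩
  rw [this]
  refine (isClosed_iInter fun w => ?_).inter (isClosed_iInter fun w => ?_)
  · exact (Submodule.closed_of_finiteDimensional W).preimage
      ((mt_cont (G := G)).mul continuous_const)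
  · exact (Submodule.closed_of_finiteDimensional W).preimage
      (((mt_cont (G := G)).comp continuous_inv).mul continuous_const)

lemma mem_stab {W : Submodule ℂ (Mt N)} {g g' : G}
    (h : W.map (le g).toLinearMap = W.map (le g').toLinearMap) : g⁻¹ * g' ∈ stab G W := by
  have h1 : ∀ x, mt g⁻¹ * x ∈ W ↔ mt g'⁻¹ * x ∈ W := fun x => by
    rw [← mem_map, ← mem_map, h]
  refine ⟨fun w hw => ?_, fun w hw => ?_⟩
  · rw [mt_mul, Matrix.mul_assoc, h1, ← Matrix.mul_assoc, ← mt_mul, inv_mul_cancel, mt_one,
      Matrix.one_mul]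
    exact hw
  · rw [_root_.mul_inv_rev, inv_inv, mt_mul, Matrix.mul_assoc, ← h1, ← Matrix.mul_assoc, ← mt_mul,
      inv_mul_cancel, mt_one, Matrix.one_mul]
    exact hw

/-- (1) A proper subspace is met in a null set. -/
lemma null [ConnectedSpace G] [IsProbabilityMeasure μ] [μ.IsHaarMeasure]
    (W : Submodule ℂ (Mt N)) (hW : ¬ ∀ g : G, mt g ∈ W) : μ (SS G W) = 0 := by
  by_contra hne
  -- a minimal counterexample
  have hex : ∃ d : ℕ, ∃ W : Submodule ℂ (Mt N), (¬ ∀ g : G, mt g ∈ W) ∧ μ (SS G W) ≠ 0 ∧
    Module.finrank ℂ W = d := ⟨_, W, hW, hne, rfl⟩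
  classical
  obtain ⟨V, hV1, hV2, hV3⟩ := Nat.find_spec hex
  have hmin : ∀ W' : Submodule ℂ (Mt N), (¬ ∀ g : G, mt g ∈ W') →
      Module.finrank ℂ W' < Module.finrank ℂ V → μ (SS G W') = 0 := by
    intro W' h1 h2
    by_contra h3
    rw [hV3] at h2
    exact Nat.find_min hex h2 ⟨W', h1, h3, rfl⟩
  -- translates
  have hnot : ∀ g : G, ¬ ∀ h : G, mt h ∈ V.map (le g).toLinearMap := by
    intro g hg
    apply hV1
    intro h
    have := (mem_map V g _).1 (hg (g * h))
    rwa [← mt_mul, inv_mul_cancel_left] at this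
  have hdisj : ∀ g g' : G, g⁻¹ * g' ∉ stab G V →
      μ (SS G (V.map (le g).toLinearMap) ∩ SS G (V.map (le g').toLinearMap)) = 0 := by
    intro g g' hgg
    have e : SS G (V.map (le g).toLinearMap) ∩ SS G (V.map (le g').toLinearMap) =
      SS G (V.map (le g).toLinearMap ⊓ V.map (le g').toLinearMap) := by
      ext h; rfl
    rw [e]
    apply hmin
    · intro h
      exact hnot g fun x => (h x).1
    · by_contra hlt
      rw [not_lt] at hlt
      apply hgg
      apply mem_stab
      have h1 : V.map (le g).toLinearMap ⊓ V.map (le g').toLinearMap =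
          V.map (le g).toLinearMap :=
        Submodule.eq_of_le_of_finrank_le inf_le_left (by rw [finrank_map]; exact hlt)
      refine Submodule.eq_of_le_of_finrank_le ?_ ?_
      · rw [← h1]; exact inf_le_right
      · rw [finrank_map, finrank_map]
  -- finite index
  have hfin : (stab G V).FiniteIndex := by
    have h1 := Measure.finite_const_le_meas_of_disjoint_iUnion₀ μ (ε := μ (SS G V))
      (pos_iff_ne_zero.2 hV2)
      (As := fun q : G ⧸ stab G V => SS G (V.map (le q.out).toLinearMap))
      (fun q => (closed_SS _).measurableSet.nullMeasurableSet)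
      (by
        intro q q' hqq
        refine hdisj _ _ fun h => hqq ?_
        have := QuotientGroup.eq.2 h
        rwa [QuotientGroup.out_eq', QuotientGroup.out_eq'] at this)
      (measure_ne_top μ _)
    have h2 : {q : G ⧸ stab G V | μ (SS G V) ≤ μ (SS G (V.map (le q.out).toLinearMap))} =
        Set.univ := by
      ext q
      simp [meas_map]
    rw [h2] at h1
    have : Finite (G ⧸ stab G V) := Set.finite_univ_iff.1 h1
    exact Subgroup.finiteIndex_of_finite_quotient
  have hopen : IsOpen (stab G V : Set G) :=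
    Subgroup.isOpen_of_isClosed_of_finiteIndex _ (closed_stab V)
  have huniv : (stab G V : Set G) = Set.univ :=
    IsClopen.eq_univ ⟨closed_stab V, hopen⟩ ⟨1, one_mem _⟩
  have hne' : (SS G V).Nonempty := by
    by_contra hemp
    rw [Set.not_nonempty_iff_eq_empty] at hemp
    apply hV2
    rw [hemp, measure_empty]
  obtain ⟨g0, hg0⟩ := hne'
  apply hV1
  intro g
  have h1 : g * g0⁻¹ ∈ stab G V := by
    show g * g0⁻¹ ∈ (stab G V : Set G)
    rw [huniv]; trivial
  have h2 := h1.1 _ hg0
  rwa [← mt_mul, inv_mul_cancel_right] at h2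

/-- The span of the group. -/
def AA (G : Subgroup (UU N)) : Submodule ℂ (Mt N) := Submodule.span ℂ (Set.range (mt : G → Mt N))

lemma closed_dep (k : ℕ) :
    IsClosed {p : Fin k → G | ¬ LinearIndependent ℂ (fun i => mt (p i))} := by
  have h : IsOpen {p : Fin k → G | LinearIndependent ℂ (fun i => mt (p i))} :=
    (isOpen_setOfPred_linearIndependent (𝕜 := ℂ) (E := Mt N) (ι := Fin k)).preimage
      (continuous_pi fun i => mt_cont.comp (continuous_apply i))
  exact isClosed_compl_iff.2 h

/-- (2) Independence of few random elements. -/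
lemma indep [SecondCountableTopology G] [ConnectedSpace G] [IsProbabilityMeasure μ]
    [μ.IsHaarMeasure] (k : ℕ)
    (hk : k ≤ Module.finrank ℂ (AA G)) :
    ∀ᵐ p ∂(Measure.pi fun _ : Fin k => μ), LinearIndependent ℂ (fun i => mt (p i)) := by
  induction k with
  | zero => exact Filter.Eventually.of_forall fun p => linearIndependent_empty_type
  | succ k ih =>
    have ih' := ih (by omega)
    rw [ae_iff]
    have hmp := (measurePreserving_piFinSuccAbove (fun _ : Fin (k + 1) => μ) 0).symm
    rw [← hmp.measure_preimage (closed_dep (k + 1)).measurableSet.nullMeasurableSet]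
    rw [Measure.prod_apply_symm (hmp.measurable (closed_dep (k + 1)).measurableSet)]
    rw [lintegral_eq_zero_of_ae_eq_zero]
    filter_upwards [ih'] with q hq
    refine measure_mono_null ?_ (null μ (Submodule.span ℂ (Set.range fun i => mt (q i))) ?_)
    · intro g hg
      have hg' : ¬ LinearIndependent ℂ (fun i => mt ((Fin.insertNth 0 g q : Fin (k + 1) → G) i)) := hg
      have e : (fun i => mt ((Fin.insertNth 0 g q : Fin (k + 1) → G) i)) =
          (Fin.cons (mt g) (fun i => mt (q i)) : Fin (k + 1) → Mt N) := by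
        funext i
        refine Fin.cases ?_ (fun j => ?_) i
        · simp
        · simp
      rw [e, linearIndependent_finCons] at hg'
      by_contra hn
      exact hg' ⟨hq, hn⟩
    · intro h
      have h1 : AA G ≤ Submodule.span ℂ (Set.range fun i => mt (q i)) := by
        refine Submodule.span_le.2 ?_
        rintro _ ⟨g, rfl⟩
        exact h g
      have h2 := Submodule.finrank_mono h1
      have h3 := finrank_range_le_card (R := ℂ) (fun i => mt (q i))
      rw [Set.finrank, Fintype.card_fin] at h3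
      omega

end

end Pool.Agent.H189.KS.SPAN

namespace Pool.Agent.H189.KS

open SPAN

theorem t_SPAN : S_SPAN := by
  intro N G hG _ _ _ μ _ _
  have h0 : SecondCountableTopology (Mt N) :=
    inferInstanceAs (SecondCountableTopology (Fin N → Fin N → ℂ))
  have h1 : SecondCountableTopology (UU N) := TopologicalSpace.Subtype.secondCountableTopology _
  have : SecondCountableTopology G := TopologicalSpace.Subtype.secondCountableTopology _
  refine ⟨Module.finrank ℂ (AA G), ?_⟩
  filter_upwards [indep μ _ le_rfl] with p hp g hg h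
  have h1 : Submodule.span ℂ (Set.range fun i => mt (p i)) = AA G := by
    refine Submodule.eq_of_le_of_finrank_eq ?_ ?_
    · refine Submodule.span_le.2 ?_
      rintro _ ⟨i, rfl⟩
      exact Submodule.subset_span ⟨p i, rfl⟩
    · rw [finrank_span_eq_card hp, Fintype.card_fin]
  have h2 : mt h ∈ Submodule.span ℂ (Set.range fun i => mt (p i)) := by
    rw [h1]; exact Submodule.subset_span ⟨h, rfl⟩
  apply mt_inj
  rw [mt_mul, mt_mul]
  generalize mt h = y at h2 ⊢
  induction h2 using Submodule.span_induction with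
  | mem x hx =>
    obtain ⟨i, rfl⟩ := hx
    rw [← mt_mul, hg i, mt_mul]
  | zero => rw [Matrix.mul_zero, Matrix.zero_mul]
  | add x y _ _ hx hy => rw [Matrix.mul_add, Matrix.add_mul, hx, hy]
  | smul c x _ hx => rw [Matrix.mul_smul, Matrix.smul_mul, hx]

end Pool.Agent.H189.KS
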