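import Mathlib
import Pool.Agent.H189.KS.Stm
import Pool.Agent.TH618.YM.Cartan

/-!
# SUBG: subadditive functions and one-parameter subgroups
-/

open MeasureTheory Matrix Filter
open scoped ContDiff Matrix.Norms.Frobenius Topology

namespace Pool.Agent.H189.KS.SUBG

set_option linter.unusedSectionVars false

noncomputable section

variable {N n : ℕ} {G : Subgroup (UU N)}

/-- the same data as a frame -/
def toFrame (B : LieBasis G n) : Pool.Agent.H906R3.YM.Frame G n where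
  X := B.X
  ex := B.ex
  ex_eq := B.ex_eq
  orth := B.orth
  full := B.full

lemma nu_list (ν : G → ℝ) (hm : ∀ z w, ν (z * w) ≤ ν z + ν w) (h1 : ν 1 = 0) (l : List G) :
    ν l.prod ≤ (l.map ν).sum := by
  induction l with
  | nil => rw [List.prod_nil, h1]; simp
  | cons g l ih =>
    rw [List.prod_cons, List.map_cons, List.sum_cons]
    exact (hm _ _).trans (add_le_add le_rfl ih)

lemma nu_one (ν : G → ℝ) (ht : Tendsto ν (𝓝 1) (𝓝 0)) : ν 1 = 0 := by
  have h := ht.mono_left (pure_le_nhds (1 : G))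
  rw [tendsto_pure_left] at h
  by_contra hne
  have h2 := h {ν 1}ᶜ (isOpen_compl_singleton.mem_nhds (by
    rw [Set.mem_compl_iff, Set.mem_singleton_iff]
    exact fun h => hne h.symm))
  exact h2 rfl

lemma tendsto_one_of (z : ℕ → G) (h : Tendsto (fun j => ‖mt (z j) - 1‖) atTop (𝓝 0)) :
    Tendsto z atTop (𝓝 1) := by
  have he : Topology.IsEmbedding (mt : G → Mt N) :=
    Topology.IsEmbedding.subtypeVal.comp Topology.IsEmbedding.subtypeVal
  rw [he.tendsto_nhds_iff]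
  have h1 : Tendsto (fun j => mt (z j)) atTop (𝓝 (mt (1 : G))) := by
    rw [mt_one]
    exact tendsto_iff_norm_sub_tendsto_zero.2 h
  exact h1

/-- one step of the iteration -/
lemma step (hG : IsClosed (G : Set (UU N))) (B : LieBasis G n) :
    ∃ C : ℝ, 0 < C ∧ ∀ z : G, ∃ c : Fin n → ℝ, (∀ a, |c a| ≤ ‖mt z - 1‖) ∧
      ‖mt (((List.ofFn fun a => B.ex a (c a)).prod)⁻¹ * z) - 1‖ ≤ C * ‖mt z - 1‖ ^ 2 := by
  have hco : CompactSpace G := isCompact_iff_compactSpace.1 hG.isCompact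
  have hs1 : SecondCountableTopology (Mt N) :=
    inferInstanceAs (SecondCountableTopology (Fin N → Fin N → ℂ))
  have hs2 : SecondCountableTopology (UU N) :=
    TopologicalSpace.Subtype.secondCountableTopology (α := Mt N) _
  have hsc : SecondCountableTopology G :=
    TopologicalSpace.Subtype.secondCountableTopology (α := UU N) _
  let F := toFrame B
  let _ : MeasurableSpace G := borel G
  have _ : BorelSpace G := ⟨rfl⟩
  obtain ⟨C, hC, hc⟩ := Pool.Agent.TH618.YM.cartan F hG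
  refine ⟨Real.sqrt C + (n ^ 2 + n) + 1, by positivity, fun z => ?_⟩
  have hcz := hc z
  set d : ℝ := ‖mt z - 1‖ with hd
  have hd0 : 0 ≤ d := norm_nonneg _
  set c : Fin n → ℝ := fun a => Pool.Agent.H906R3.YM.ip (F.X a) (mt z - 1) with hcdef
  have hcd : ∀ a, |c a| ≤ d := by
    intro a
    refine (Pool.Agent.W793.YM.abs_ip_le _ _).trans ?_
    rw [Pool.Agent.TH618.YM.norm_XB F a, one_mul]
  refine ⟨c, hcd, ?_⟩
  set w : Mt N := (mt z - 1) - ∑ a, c a • F.X a with hw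
  have hw2 : ‖w‖ ^ 2 = d ^ 2 - ∑ a, c a ^ 2 :=
    Pool.Agent.TH618.YM.norm_perp (X := F.X) F.orth _
  have hcz' : d ^ 2 ≤ ∑ a, c a ^ 2 + C * d ^ 4 := hcz
  have hw3 : ‖w‖ ≤ Real.sqrt C * d ^ 2 := by
    have h1 : ‖w‖ ^ 2 ≤ (Real.sqrt C * d ^ 2) ^ 2 := by
      rw [mul_pow, Real.sq_sqrt hC.le, hw2]
      nlinarith
    exact (abs_le_of_sq_le_sq' h1 (by positivity)).2
  set r : Mt N := mt (Pool.Agent.TH618.YM.Ph0 F c) - 1 - ∑ a, c a • F.X a with hr
  have hrb : ‖r‖ ≤ (n ^ 2 + n) * d ^ 2 := Pool.Agent.TH618.YM.Ph0_dev F c hcd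
  have hh1 : mt ((Pool.Agent.TH618.YM.Ph0 F c)⁻¹ * z) - 1 =
      mt (Pool.Agent.TH618.YM.Ph0 F c)⁻¹ * (w - r) := by
    have e1 : w - r = mt z - mt (Pool.Agent.TH618.YM.Ph0 F c) := by
      rw [hw, hr]; abel
    have e2 : mt (Pool.Agent.TH618.YM.Ph0 F c)⁻¹ * mt (Pool.Agent.TH618.YM.Ph0 F c) = 1 := by
      rw [← mt_mul, inv_mul_cancel]; rfl
    rw [e1, mul_sub, e2, mt_mul]
  have hfin : ‖mt ((Pool.Agent.TH618.YM.Ph0 F c)⁻¹ * z) - 1‖ ≤
      (Real.sqrt C + (n ^ 2 + n) + 1) * d ^ 2 := by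
    rw [hh1]
    have h2 : ‖mt (Pool.Agent.TH618.YM.Ph0 F c)⁻¹ * (w - r)‖ = ‖w - r‖ :=
      Pool.Agent.TH618.YM.norm_mt_mul (Pool.Agent.TH618.YM.Ph0 F c)⁻¹ (w - r)
    rw [h2]
    refine (norm_sub_le _ _).trans ?_
    nlinarith [sq_nonneg d]
  exact hfin

lemma iter (B : LieBasis G n) (C : ℝ) (hC : 0 < C)
    (hstep : ∀ z : G, ∃ c : Fin n → ℝ, (∀ a, |c a| ≤ ‖mt z - 1‖) ∧
      ‖mt (((List.ofFn fun a => B.ex a (c a)).prod)⁻¹ * z) - 1‖ ≤ C * ‖mt z - 1‖ ^ 2)
    (ν : G → ℝ) (k : ℝ) (hk : 0 ≤ k)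
    (hm : ∀ z w, ν (z * w) ≤ ν z + ν w) (h1 : ν 1 = 0)
    (he : ∀ a t, ν (B.ex a t) ≤ |t| * k) (z : G) (hz : ‖mt z - 1‖ ≤ 1 / (2 * C)) (j : ℕ) :
    ∃ z' : G, ‖mt z' - 1‖ ≤ (1 / 2) ^ j * ‖mt z - 1‖ ∧
      ν z ≤ 2 * n * k * (1 - (1 / 2) ^ j) * ‖mt z - 1‖ + ν z' := by
  induction j with
  | zero => exact ⟨z, by simp, by simp⟩
  | succ j ih =>
    obtain ⟨z', h2, h3⟩ := ih
    obtain ⟨c, hc, h4⟩ := hstep z'
    have hd0 : 0 ≤ ‖mt z - 1‖ := norm_nonneg _
    have hd1 : 0 ≤ ‖mt z' - 1‖ := norm_nonneg _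
    set d := ‖mt z - 1‖ with hd
    set d' := ‖mt z' - 1‖ with hd'
    have hp : (0 : ℝ) < (1 / 2) ^ j := by positivity
    have hp1 : ((1 : ℝ) / 2) ^ j ≤ 1 := pow_le_one₀ (by norm_num) (by norm_num)
    have hdd : d' ≤ 1 / (2 * C) := by
      refine h2.trans (le_trans ?_ hz)
      nlinarith
    have hdd2 : C * d' ^ 2 ≤ 1 / 2 * d' := by
      have h5 : C * d' ≤ 1 / 2 := by
        rw [le_div_iff₀ (by positivity)] at hdd
        linarith
      nlinarith
    refine ⟨((List.ofFn fun a => B.ex a (c a)).prod)⁻¹ * z', ?_, ?_⟩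
    · refine h4.trans (hdd2.trans ?_)
      rw [pow_succ]
      nlinarith
    · have h5 : ν z' ≤ ν ((List.ofFn fun a => B.ex a (c a)).prod) +
          ν (((List.ofFn fun a => B.ex a (c a)).prod)⁻¹ * z') := by
        have := hm ((List.ofFn fun a => B.ex a (c a)).prod)
          (((List.ofFn fun a => B.ex a (c a)).prod)⁻¹ * z')
        rwa [mul_inv_cancel_left] at this
      have h6 : ν ((List.ofFn fun a => B.ex a (c a)).prod) ≤ n * d' * k := by
        refine (nu_list ν hm h1 _).trans ?_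
        rw [List.map_ofFn, List.sum_ofFn]
        calc ∑ a, (ν ∘ fun a => B.ex a (c a)) a ≤ ∑ _a : Fin n, d' * k := by
              refine Finset.sum_le_sum fun a _ => ?_
              exact (he a (c a)).trans (mul_le_mul_of_nonneg_right (hc a) hk)
          _ = n * d' * k := by
              rw [Finset.sum_const, Finset.card_univ, Fintype.card_fin, nsmul_eq_mul]; ring
      have h7 : n * d' * k ≤ n * k * ((1 / 2) ^ j * d) := by
        have h8 : (0 : ℝ) ≤ n * k := by positivity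
        nlinarith
      have h9 : (2 : ℝ) * n * k * (1 - (1 / 2) ^ (j + 1)) * d =
          2 * n * k * (1 - (1 / 2) ^ j) * d + n * k * ((1 / 2) ^ j * d) := by
        rw [pow_succ]; ring
      rw [h9]
      linarith

end

end Pool.Agent.H189.KS.SUBG

namespace Pool.Agent.H189.KS

open Pool.Agent.H189.KS.SUBG

/-- TARGET -/
theorem t_SUBG : S_SUBG := by
  intro N n G hG B
  obtain ⟨C, hC, hstep⟩ := step hG B
  rcases Nat.eq_zero_or_pos n with hn | hn
  · -- no directions: a neighbourhood of `1` is trivial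
    subst hn
    refine ⟨1, 1 / (2 * C), one_pos, by positivity, ?_⟩
    intro ν k _ _ ht _ z hz
    have h0 := norm_nonneg (mt z - 1)
    have hzero : ‖mt z - 1‖ = 0 := by
      obtain ⟨c, -, h4⟩ := hstep z
      have e1 : ((List.ofFn fun a : Fin 0 => B.ex a (c a)).prod)⁻¹ * z = z := by simp
      rw [e1] at h4
      rw [le_div_iff₀ (by positivity)] at hz
      have h5 : C * ‖mt z - 1‖ ^ 2 ≤ 1 / 2 * ‖mt z - 1‖ := by nlinarith
      linarith
    have hz1 : z = 1 := by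
      apply mt_inj
      rw [mt_one]
      exact sub_eq_zero.1 (norm_eq_zero.1 hzero)
    rw [hz1, nu_one ν ht, mt_one, sub_self, norm_zero]
    simp
  · refine ⟨2 * n + 1, 1 / (2 * C), by positivity, by positivity, ?_⟩
    intro ν k h0 hm ht he z hz
    have hk : 0 ≤ k := by
      have h1 := he ⟨0, hn⟩ 1
      have h2 := h0 (B.ex ⟨0, hn⟩ 1)
      rw [abs_one, one_mul] at h1
      linarith
    have h1 := nu_one ν ht
    have hit := iter B C hC hstep ν k hk hm h1 he z hz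
    choose y hy1 hy2 using hit
    have hlim : Tendsto (fun j => ‖mt (y j) - 1‖) atTop (𝓝 0) := by
      refine squeeze_zero (fun j => norm_nonneg _) hy1 ?_
      have := (tendsto_pow_atTop_nhds_zero_of_lt_one (r := (1 : ℝ) / 2) (by norm_num)
        (by norm_num)).mul_const ‖mt z - 1‖
      rwa [zero_mul] at this
    have hν := ht.comp (tendsto_one_of y hlim)
    have hd0 : 0 ≤ ‖mt z - 1‖ := norm_nonneg _
    have hb : ∀ j, ν z - 2 * n * k * ‖mt z - 1‖ ≤ ν (y j) := by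
      intro j
      have h3 := hy2 j
      have hp : (0 : ℝ) ≤ (1 / 2) ^ j := by positivity
      have h4 : 0 ≤ 2 * n * k * (1 / 2) ^ j * ‖mt z - 1‖ := by positivity
      nlinarith
    have h5 : ν z - 2 * n * k * ‖mt z - 1‖ ≤ 0 :=
      ge_of_tendsto hν (Eventually.of_forall hb)
    have h6 : 0 ≤ ‖mt z - 1‖ * k := by positivity
    nlinarith

end Pool.Agent.H189.KS
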